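import Pool.Agent.Helper54.GP.Width

/-!
# A free set with the largest upper density
-/

namespace Pool.Agent.Helper54.GP

open Finset Filter Topology
open Pool.Agent.Helper54.SigmaDens (N N_mono N_le)

/-- Gluing free sets living at very sparse scales. -/
lemma scales_free {k : ℕ} (hk : 3 ≤ k) {F : ℕ → Set ℕ} {T X : ℕ → ℕ} (hF : ∀ i, Free k (F i))
    (hb : ∀ i, ∀ n ∈ F i, X i < (T i + 1) * n ∧ n ≤ X i)
    (hX : ∀ i, (T (i + 1) + 1) ^ 2 * (X i + 1) ^ 2 < X (i + 1)) : Free k {n | ∃ i, n ∈ F i} := by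
  have hstep : ∀ i, X i < X (i + 1) := by
    intro i
    have h1 := hX i
    have h2 : 1 ≤ (T (i + 1) + 1) ^ 2 := Nat.one_le_pow _ _ (by omega)
    nlinarith
  have hmono : StrictMono X := strictMono_nat_of_lt_succ hstep
  refine ⟨fun n hn => ?_, fun a q ha hq hall => ?_⟩
  · obtain ⟨i, hi⟩ := hn
    exact (hF i).1 n hi
  obtain ⟨n, hn, hgp⟩ := gp_terms hall
  have hex : ∀ j < k, ∃ i, n j ∈ F i := fun j hj => (hn j hj).1
  choose! i hi using hex
  have hpos : ∀ j < k, 0 < n j := fun j hj => (hF _).1 _ (hi j hj)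
  have hinc : ∀ j, j + 1 < k → n j < n (j + 1) := by
    intro j hj
    have h1 := (hn j (by omega)).2
    have h2 := (hn (j + 1) hj).2
    have h3 : (0 : ℚ) < n j := by exact_mod_cast hpos j (by omega)
    have h4 : (n (j + 1) : ℚ) = n j * q := by
      rw [h1, h2]
      ring
    have h5 : (n j : ℚ) < n (j + 1) := by
      rw [h4]
      nlinarith
    exact_mod_cast h5
  -- all terms are at the same scale
  have hall' : ∀ d, d < k → i (k - 1 - d) = i (k - 1) := by
    intro d
    induction d using Nat.strong_induction_on with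
    | _ d ih =>
      intro hd
      by_contra hne
      have hd0 : d ≠ 0 := by
        rintro rfl
        exact hne (by simp)
      obtain ⟨j, hj⟩ : ∃ j, j = k - 1 - d := ⟨_, rfl⟩
      have hj1 : i (j + 1) = i (k - 1) := by
        have := ih (d - 1) (by omega) (by omega)
        rwa [show k - 1 - (d - 1) = j + 1 by omega] at this
      rw [← hj] at hne
      have hjk : j + 1 < k := by omega
      have b0 := hb _ _ (hi j (by omega))
      have b1 := hb _ _ (hi (j + 1) hjk)
      have hlt := hinc j hjk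
      rw [hj1] at b1
      rcases lt_or_gt_of_ne hne with h | h
      · -- `n j` is at a smaller scale
        obtain ⟨s, hs⟩ : ∃ s, i (k - 1) = s + 1 := ⟨i (k - 1) - 1, by omega⟩
        rw [hs] at b1 h
        have hX1 : X (i j) ≤ X s := hmono.monotone (by omega)
        have hXs := hX s
        have hnj : n j ≤ X s := b0.2.trans hX1
        obtain ⟨τ, hτ⟩ : ∃ τ, τ = T (s + 1) + 1 := ⟨_, rfl⟩
        rw [← hτ] at b1 hXs
        have hτ1 : 1 ≤ τ := by omega
        rcases Nat.lt_or_ge (j + 2) k with h2 | h2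
        · have hj2 : i (j + 2) = i (k - 1) := by
            have := ih (d - 2) (by omega) (by omega)
            rwa [show k - 1 - (d - 2) = j + 2 by omega] at this
          have b2 := hb _ _ (hi (j + 2) h2)
          rw [hj2, hs] at b2
          have h3 := hgp j h2
          have h4 : n (j + 2) < τ * n (j + 1) := lt_of_le_of_lt b2.2 b1.1
          have h5 : n (j + 1) * n (j + 1) < n j * (τ * n (j + 1)) := by
            rw [← h3]
            exact Nat.mul_lt_mul_of_pos_left h4 (hpos j (by omega))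
          have h6 : n (j + 1) < n j * τ := by
            have hp := hpos (j + 1) hjk
            by_contra hcon
            push Not at hcon
            have : n j * (τ * n (j + 1)) ≤ n (j + 1) * n (j + 1) := by
              calc n j * (τ * n (j + 1)) = (n j * τ) * n (j + 1) := by ring
                _ ≤ n (j + 1) * n (j + 1) := Nat.mul_le_mul_right _ hcon
            omega
          have h7 : X (s + 1) < τ * (X s * τ) := by
            calc X (s + 1) < τ * n (j + 1) := b1.1
              _ ≤ τ * (n j * τ) := Nat.mul_le_mul_left _ h6.le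
              _ ≤ τ * (X s * τ) := Nat.mul_le_mul_left _ (Nat.mul_le_mul_right _ hnj)
          have h8 : τ * (X s * τ) ≤ τ ^ 2 * (X s + 1) ^ 2 := by
            have : X s ≤ (X s + 1) ^ 2 := by nlinarith
            calc τ * (X s * τ) = τ ^ 2 * X s := by ring
              _ ≤ τ ^ 2 * (X s + 1) ^ 2 := Nat.mul_le_mul_left _ this
          omega
        · have hj0 : 1 ≤ j := by omega
          have h3 := hgp (j - 1) (by omega)
          rw [show j - 1 + 2 = j + 1 by omega, show j - 1 + 1 = j by omega] at h3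
          have h4 : n (j + 1) ≤ n j * n j := by
            rw [← h3]
            exact Nat.le_mul_of_pos_left _ (hpos (j - 1) (by omega))
          have h5 : n j * n j ≤ X s * X s := Nat.mul_le_mul hnj hnj
          have h7 : X (s + 1) < τ * (X s * X s) :=
            lt_of_lt_of_le b1.1 (Nat.mul_le_mul_left _ (h4.trans h5))
          have h8 : τ * (X s * X s) ≤ τ ^ 2 * (X s + 1) ^ 2 := by
            have h9 : X s * X s ≤ (X s + 1) ^ 2 := by nlinarith
            have h10 : τ ≤ τ ^ 2 := by nlinarith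
            exact Nat.mul_le_mul h10 h9
          omega
      · -- `n j` is at a larger scale
        obtain ⟨s, hs⟩ : ∃ s, i j = s + 1 := ⟨i j - 1, by omega⟩
        rw [hs] at b0 h
        have hX1 : X (i (k - 1)) ≤ X s := hmono.monotone (by omega)
        have hXs := hX s
        obtain ⟨τ, hτ⟩ : ∃ τ, τ = T (s + 1) + 1 := ⟨_, rfl⟩
        rw [← hτ] at b0 hXs
        have hτ1 : 1 ≤ τ := by omega
        have h1 : n j ≤ X s := hlt.le.trans (b1.2.trans hX1)
        have h2 : X (s + 1) < τ * X s := lt_of_lt_of_le b0.1 (Nat.mul_le_mul_left _ h1)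
        have h8 : τ * X s ≤ τ ^ 2 * (X s + 1) ^ 2 := by
          have h9 : X s ≤ (X s + 1) ^ 2 := by nlinarith
          have h10 : τ ≤ τ ^ 2 := by nlinarith
          exact Nat.mul_le_mul h10 h9
        omega
  refine (hF (i (k - 1))).2 a q ha hq fun j hj => ⟨n j, ?_, (hn j hj).2⟩
  have h1 := hall' (k - 1 - j) (by omega)
  rw [show k - 1 - (k - 1 - j) = j by omega] at h1
  rw [← h1]
  exact hi j hj

/-- There is a free set whose upper density is at least all the finite lower bounds. -/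
lemma exists_alpha_set {k : ℕ} (hk : 3 ≤ k) :
    ∃ A, Free k A ∧ ∀ y T, 2 ≤ y → aLo k y T ≤ upperDensity A := by
  -- optimal finite sets
  have hCex : ∀ y t, ∃ B ⊆ S y t, Free k (B : Set ℕ) ∧ f k y t = B.card := fun y t =>
    exists_f (by omega) y t
  choose C hC1 hC2 hC3 using hCex
  -- the enumeration of parameters
  obtain ⟨ys, hys⟩ : ∃ ys : ℕ → ℕ, ys = fun i => (Nat.unpair (Nat.unpair i).1).1 + 2 := ⟨_, rfl⟩
  obtain ⟨Ts, hTs⟩ : ∃ Ts : ℕ → ℕ, Ts = fun i => (Nat.unpair (Nat.unpair i).1).2 := ⟨_, rfl⟩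
  have hys2 : ∀ i, 2 ≤ ys i := fun i => by rw [hys]; simp
  -- thresholds
  have hthr : ∀ i : ℕ, ∃ X0 : ℕ, ∀ X ≥ X0, (aLo k (ys i) (Ts i) - 1 / ((i : ℝ) + 1)) * X ≤
      N (scaleSet (ys i) (Ts i) (C (ys i)) X) X := by
    intro i
    obtain ⟨D, hD0, hD⟩ := scaleSet_count (y := ys i) (T := Ts i) (hys2 i) (hC1 (ys i))
    have h1 : Tendsto (fun x : ℕ => D * (((Nat.sqrt x : ℝ) + 1) / x)) atTop (𝓝 (D * 0)) :=
      tendsto_sqrt_div.const_mul D
    rw [mul_zero] at h1
    have h2 : (0 : ℝ) < 1 / ((i : ℝ) + 1) := by positivity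
    obtain ⟨X0, hX0⟩ := eventually_atTop.1 (h1.eventually_lt_const h2)
    refine ⟨X0 + 1, fun X hX => ?_⟩
    have hX' : (0 : ℝ) < X := by exact_mod_cast (by omega : 0 < X)
    have h3 := hX0 X (by omega)
    have h4 := hD X
    have h5 : D * (((Nat.sqrt X : ℝ) + 1) / X) * X = D * (Nat.sqrt X + 1) := by field_simp
    have h6 : Phi (ys i) * (1 - 1 / ((ys i : ℝ) - 1)) *
      ∑ t ∈ Icc 1 (Ts i), ((C (ys i) t).card : ℝ) / ((t : ℝ) * (t + 1)) = aLo k (ys i) (Ts i) := by
      rw [aLo]
      congr 1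
      refine Finset.sum_congr rfl fun t _ => ?_
      rw [hC3]
    rw [h6] at h4
    nlinarith
  choose X0 hX0 using hthr
  obtain ⟨X, hXdef⟩ : ∃ X : ℕ → ℕ, X = fun i => Nat.rec (max (X0 0) 1)
      (fun i x => max (X0 (i + 1)) ((Ts (i + 1) + 1) ^ 2 * (x + 1) ^ 2 + 1)) i := ⟨_, rfl⟩
  have hXs : ∀ i, X (i + 1) = max (X0 (i + 1)) ((Ts (i + 1) + 1) ^ 2 * (X i + 1) ^ 2 + 1) := by
    intro i
    rw [hXdef]
  have hX1 : ∀ i, X0 i ≤ X i := by
    intro i
    cases i with
    | zero => rw [hXdef]; exact le_max_left _ _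
    | succ i => rw [hXs]; exact le_max_left _ _
  have hX2 : ∀ i, (Ts (i + 1) + 1) ^ 2 * (X i + 1) ^ 2 < X (i + 1) := by
    intro i
    rw [hXs]
    exact lt_of_lt_of_le (Nat.lt_succ_self _) (le_max_right _ _)
  have hstep : ∀ i, X i < X (i + 1) := by
    intro i
    have h1 := hX2 i
    have h2 : 1 ≤ (Ts (i + 1) + 1) ^ 2 := Nat.one_le_pow _ _ (by omega)
    nlinarith
  have hmono : StrictMono X := strictMono_nat_of_lt_succ hstep
  obtain ⟨F, hF⟩ : ∃ F : ℕ → Set ℕ, F = fun i => scaleSet (ys i) (Ts i) (C (ys i)) (X i) := ⟨_, rfl⟩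
  have hfree : Free k {n | ∃ i, n ∈ F i} := by
    refine scales_free (T := Ts) (X := X) hk (fun i => ?_) (fun i n hn => ?_) hX2
    · rw [hF]
      exact scaleSet_free hk (hC1 _) (hC2 _) _
    · rw [hF] at hn
      have := scaleSet_bounds (hC1 _) hn
      exact ⟨this.1, this.2.1⟩
  refine ⟨_, hfree, fun y T hy => ?_⟩
  refine le_of_forall_pos_le_add fun ε hε => ?_
  suffices h : aLo k y T - ε ≤ upperDensity {n | ∃ i, n ∈ F i} by linarith
  refine upperDensity_ge ?_
  rw [frequently_atTop]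
  intro x0
  obtain ⟨K, hK⟩ := exists_nat_gt (1 / ε)
  -- an index with the given parameters, which is large
  obtain ⟨i, hi⟩ : ∃ i, i = Nat.pair (Nat.pair (y - 2) T) (max K x0) := ⟨_, rfl⟩
  have hi1 : ys i = y := by
    rw [hys, hi]
    simp only [Nat.unpair_pair]
    omega
  have hi2 : Ts i = T := by
    rw [hTs, hi]
    simp only [Nat.unpair_pair]
  have hi3 : max K x0 ≤ i := hi ▸ Nat.right_le_pair _ _
  have hiX : i ≤ X i := hmono.id_le i
  refine ⟨X i, le_trans (le_trans (le_max_right _ _) hi3) hiX, ?_⟩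
  have hXpos : 0 < X i := by
    cases i with
    | zero =>
      rw [hXdef]
      exact lt_of_lt_of_le one_pos (le_max_right _ _)
    | succ i => exact lt_of_le_of_lt (Nat.zero_le _) (hstep i)
  have hXpos' : (0 : ℝ) < X i := by exact_mod_cast hXpos
  rw [le_div_iff₀ hXpos']
  have h1 := hX0 i (X i) (hX1 i)
  rw [hi1, hi2] at h1
  have h2 : N (scaleSet y T (C y) (X i)) (X i) ≤ N {n | ∃ i, n ∈ F i} (X i) := by
    refine N_mono ?_ _
    intro n hn
    refine ⟨i, ?_⟩
    rw [hF]
    simp only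
    rw [hi1, hi2]
    exact hn
  have h2' : (N (scaleSet y T (C y) (X i)) (X i) : ℝ) ≤ N {n | ∃ i, n ∈ F i} (X i) := by
    exact_mod_cast h2
  have h3 : 1 / ((i : ℝ) + 1) ≤ ε := by
    rw [div_le_iff₀ (by positivity)]
    rw [div_lt_iff₀ hε] at hK
    have : (K : ℝ) ≤ i := by exact_mod_cast le_trans (le_max_left _ _) hi3
    nlinarith
  nlinarith

/-- The lower bounds for the upper density are below the upper bounds. -/
lemma aLo_le_aUp {k : ℕ} (hk : 3 ≤ k) {y : ℕ} (hy : 2 ≤ y) (T y' T' : ℕ) :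
    aLo k y T ≤ aUp k y' T' := by
  obtain ⟨A, hA, h⟩ := exists_alpha_set hk
  exact (h y T hy).trans (upperDensity_le_bound (by omega) y' T' hA)

end Pool.Agent.Helper54.GP
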