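import Pool.Agent.Helper54.GP.BetaSet

/-!
# A free set with density `b`
-/

namespace Pool.Agent.Helper54.GP

open Finset Filter Topology
open Pool.Agent.Helper54.SigmaDens (N N_mono N_le)

lemma N_mono' {A B : Set ℕ} {x : ℕ} (h : ∀ n, 1 ≤ n → n ≤ x → n ∈ A → n ∈ B) :
    N A x ≤ N B x := by
  classical
  unfold N
  refine Finset.card_le_card fun n hn => ?_
  rw [Finset.mem_filter, Finset.mem_Icc] at hn ⊢
  exact ⟨hn.1, h n hn.1.1 hn.1.2 hn.2⟩

lemma exists_beta_set {k : ℕ} (hk : 3 ≤ k) {b : ℝ}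
    (hb : ∀ y T, 3 ≤ y → 1 ≤ T → bLo k y T ≤ b ∧ b ≤ bUp k y T) :
    ∃ A, Free k A ∧ HasDensity A b := by
  -- parameters
  have hpar : ∀ l : ℕ, ∃ y T, l + 3 ≤ y ∧ 3 ≤ y ∧ 1 ≤ T ∧
      bUp k y T - bLo k y T < 1 / ((l : ℝ) + 1) ∧ aUp k y T - aLo k y T < 1 / ((l : ℝ) + 1) :=
    fun l => width (by omega) (l + 3) (by positivity)
  choose ys Ts hys1 hys3 hTs1 hw _ using hpar
  have hBex : ∀ l, ∃ B ⊆ S (ys l) (Ts l), Free k (B : Set ℕ) ∧
      M k (ys l) (Ts l) = ∑ b ∈ B, 1 / (b : ℝ) := fun l => exists_M (by omega) _ _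
  choose B hB hfB hMB using hBex
  have hBpos : ∀ l, ∀ s ∈ B l, 0 < s := fun l s hs => (mem_S.1 (hB l hs)).1.1
  have hBsm : ∀ l, ∀ s ∈ B l, 0 < s ∧ Sm (ys l) s := fun l s hs =>
    ⟨(mem_S.1 (hB l hs)).1.1, (mem_S.1 (hB l hs)).2⟩
  obtain ⟨q, hq⟩ : ∃ q : ℕ → ℕ, q = fun l => W (ys l) * ∏ s ∈ B l, s := ⟨_, rfl⟩
  have hq0 : ∀ l, 0 < q l := fun l => by
    rw [hq]
    exact Nat.mul_pos (W_pos _) (Finset.prod_pos (hBpos l))
  choose blk hblk1 hblk2 hblk3 using exists_block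
  obtain ⟨Qs, hQs⟩ : ∃ Qs : ℕ → ℕ, Qs = fun i => Nat.rec 1
    (fun l Q => Q * q l * ∏ p ∈ blk ((l + 1) * (Q * q l)) l, p) i := ⟨_, rfl⟩
  obtain ⟨F, hF⟩ : ∃ F : ℕ → Finset ℕ, F = fun l => blk ((l + 1) * (Qs l * q l)) l := ⟨_, rfl⟩
  obtain ⟨R, hR⟩ : ∃ R : ℕ → ℕ, R = fun l => ∏ p ∈ F l, p := ⟨_, rfl⟩
  have hRF : ∀ l, ∏ p ∈ F l, p = R l := fun l => by rw [hR]
  have hFp : ∀ l, ∀ p ∈ F l, p.Prime ∧ (l + 1) * (Qs l * q l) < p := fun l p hp => by
    rw [hF] at hp
    exact hblk1 _ _ p hp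
  have hFprime : ∀ l, ∀ p ∈ F l, p.Prime := fun l p hp => (hFp l p hp).1
  have hR0 : ∀ l, 0 < R l := fun l => by
    rw [← hRF]
    exact Finset.prod_pos fun p hp => (hFprime l p hp).pos
  have hQs0 : Qs 0 = 1 := by
    rw [hQs]
    rfl
  have hQsS : ∀ l, Qs (l + 1) = Qs l * q l * R l := by
    intro l
    rw [hR, hF, hQs]
  have hQpos : ∀ l, 0 < Qs l := by
    intro l
    induction l with
    | zero => rw [hQs0]; exact one_pos
    | succ l ih =>
      rw [hQsS]
      exact Nat.mul_pos (Nat.mul_pos ih (hq0 l)) (hR0 l)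
  have hQdvd : ∀ l, Qs l ∣ Qs (l + 1) := fun l => by
    rw [hQsS, mul_assoc]
    exact Dvd.intro _ rfl
  have hQdvd' : ∀ i j, i ≤ j → Qs i ∣ Qs j := by
    intro i j hij
    induction j, hij using Nat.le_induction with
    | base => exact dvd_rfl
    | succ j _ ih => exact ih.trans (hQdvd j)
  have hRdvd : ∀ i j, i < j → R i ∣ Qs j := by
    intro i j hij
    refine dvd_trans ?_ (hQdvd' (i + 1) j hij)
    rw [hQsS]
    exact Dvd.intro_left _ rfl
  have hcopAux : ∀ l c, 0 < c → c ≤ (l + 1) * (Qs l * q l) → Nat.Coprime c (R l) := by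
    intro l c hc0 hc
    rw [← hRF, coprime_prod_iff (hFprime l)]
    intro p hp hpc
    have h1 := Nat.le_of_dvd hc0 hpc
    have h2 := (hFp l p hp).2
    omega
  have hcopQ : ∀ l, Nat.Coprime (Qs l) (R l) := fun l => hcopAux l _ (hQpos l) (by
    have h1 : 1 ≤ q l := hq0 l
    have h2 : Qs l ≤ Qs l * q l := Nat.le_mul_of_pos_right _ h1
    have h3 : Qs l * q l ≤ (l + 1) * (Qs l * q l) := Nat.le_mul_of_pos_left _ (by omega)
    omega)
  have hcopq : ∀ l, Nat.Coprime (q l) (R l) := fun l => hcopAux l _ (hq0 l) (by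
    have h1 : 1 ≤ Qs l := hQpos l
    have h2 : q l ≤ Qs l * q l := Nat.le_mul_of_pos_left _ h1
    have h3 : Qs l * q l ≤ (l + 1) * (Qs l * q l) := Nat.le_mul_of_pos_left _ (by omega)
    omega)
  have hcopR : ∀ i j, i < j → Nat.Coprime (R i) (R j) := fun i j hij =>
    Nat.Coprime.coprime_dvd_left (hRdvd i j hij) (hcopQ j)
  have hyF : ∀ l, ∀ p ∈ F l, p.Prime ∧ ys l ≤ p := by
    intro l p hp
    refine ⟨hFprime l p hp, ?_⟩
    by_contra hcon
    push Not at hcon
    have h1 : p ∣ W (ys l) := (prime_dvd_W (hFprime l p hp)).2 hcon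
    have h2 : p ∣ q l := by
      rw [hq]
      exact h1.mul_right _
    have h3 : Nat.Coprime (q l) (R l) := hcopq l
    rw [← hRF, coprime_prod_iff (hFprime l)] at h3
    exact h3 p hp h2
  -- the densities of the coprimality conditions
  have huex : ∀ l : ℕ, ∃ u : ℝ, HasDensity {n | Nat.Coprime n (R l)} u ∧ 0 ≤ u ∧
      u ≤ ((l : ℝ) + 1) / (l + 2) := by
    intro l
    have h1 : 1 / ((l : ℝ) + 1) ≤ ∑ p ∈ F l, 1 / (p : ℝ) := by
      rw [hF]
      exact hblk2 _ _
    obtain ⟨u, hu, hu0, hu1⟩ := block_density (hFprime l) (c := 1 / ((l : ℝ) + 1)) (by positivity) h1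
    rw [hRF] at hu
    refine ⟨u, hu, hu0, hu1.trans (le_of_eq ?_)⟩
    field_simp
    ring
  choose u hu hu0 hu1 using huex
  have hhit : ∀ l x : ℕ, (N {n | ¬ Nat.Coprime n (R l)} x : ℝ) ≤ x * (2 / ((l : ℝ) + 1)) := by
    intro l x
    have h1 := block_hits (hFprime l) x
    rw [hRF] at h1
    refine h1.trans (mul_le_mul_of_nonneg_left ?_ (Nat.cast_nonneg _))
    rw [hF]
    exact hblk3 _ _
  -- the periodic approximations
  obtain ⟨D, hD⟩ : ∃ D : ℕ → Set ℕ, D = fun L => {n | ∃ l < L, ¬ Nat.Coprime n (R l) ∧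
      (∀ l', l < l' → l' < L → Nat.Coprime n (R l')) ∧ n ∈ prodRough (ys l) (B l)} := ⟨_, rfl⟩
  have hmD : ∀ L n, n ∈ D L ↔ ∃ l < L, ¬ Nat.Coprime n (R l) ∧
      (∀ l', l < l' → l' < L → Nat.Coprime n (R l')) ∧ n ∈ prodRough (ys l) (B l) := by
    intro L n
    rw [hD]
    rfl
  have hDS : ∀ L, D (L + 1) = ({n | Nat.Coprime n (R L)} ∩ D L) ∪
      ({n | Nat.Coprime n (R L)}ᶜ ∩ prodRough (ys L) (B L)) := by
    intro L
    ext n
    rw [Set.mem_union, Set.mem_inter_iff, Set.mem_inter_iff, Set.mem_compl_iff, hmD, hmD]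
    simp only [Set.mem_ofPred_eq]
    constructor
    · rintro ⟨l, hl, h1, h2, h3⟩
      rcases Nat.lt_succ_iff_lt_or_eq.1 hl with h4 | h4
      · exact Or.inl ⟨h2 L h4 (by omega), l, h4, h1, fun l' h5 h6 => h2 l' h5 (by omega), h3⟩
      · subst h4
        exact Or.inr ⟨h1, h3⟩
    · rintro (⟨h1, l, hl, h2, h3, h4⟩ | ⟨h1, h2⟩)
      · refine ⟨l, by omega, h2, fun l' h5 h6 => ?_, h4⟩
        rcases Nat.lt_succ_iff_lt_or_eq.1 h6 with h7 | h7
        · exact h3 l' h5 h7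
        · rw [h7]
          exact h1
      · exact ⟨L, by omega, h1, fun l' h5 h6 => by omega, h2⟩
  have hperR : ∀ l, Per (R l) {n | Nat.Coprime n (R l)} := by
    intro l n _
    simp only [Set.mem_ofPred_eq]
    rw [Nat.coprime_add_self_left]
  have hperRc : ∀ l, Per (R l) {n | Nat.Coprime n (R l)}ᶜ := by
    intro l n hn
    rw [Set.mem_compl_iff, Set.mem_compl_iff, hperR l n hn]
  have hperC : ∀ l, Per (q l) (prodRough (ys l) (B l)) := fun l => by
    rw [hq]
    exact prodRough_per (hBpos l)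
  have hperD : ∀ l, Per (Qs l) (D l) := by
    intro l
    induction l with
    | zero =>
      intro n _
      rw [hmD, hmD]
      constructor <;> rintro ⟨l, hl, _⟩ <;> omega
    | succ l ih =>
      intro n hn
      have h1 : Per (Qs (l + 1)) {n | Nat.Coprime n (R l)} := (hperR l).of_dvd (hRdvd l (l + 1) (by omega))
      have h2 : Per (Qs (l + 1)) (D l) := ih.of_dvd (hQdvd l)
      have h3 : Per (Qs (l + 1)) (prodRough (ys l) (B l)) := (hperC l).of_dvd (by
        rw [hQsS, mul_comm (Qs l), mul_assoc]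
        exact Dvd.intro _ rfl)
      rw [hDS, Set.mem_union, Set.mem_union, Set.mem_inter_iff, Set.mem_inter_iff,
        Set.mem_inter_iff, Set.mem_inter_iff, Set.mem_compl_iff, Set.mem_compl_iff,
        h1 n hn, h2 n hn, h3 n hn]
  obtain ⟨c, hc⟩ : ∃ c : ℕ → ℝ, c = fun l => Phi (ys l) * M k (ys l) (Ts l) := ⟨_, rfl⟩
  have hcd : ∀ l, HasDensity (prodRough (ys l) (B l)) (c l) := by
    intro l
    rw [hc]
    simp only
    rw [hMB]
    exact prodRough_density (hBsm l)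
  have hdens : ∀ l, ∃ δ : ℝ, HasDensity (D l) δ := by
    intro l
    exact ⟨_, per_hasDensity (hQpos l) (hperD l)⟩
  choose δ hδ using hdens
  have hrec : ∀ l, δ (l + 1) = u l * δ l + (1 - u l) * c l := by
    intro l
    have h1 : HasDensity ({n | Nat.Coprime n (R l)} ∩ D l) (u l * δ l) :=
      inter_density (hR0 l) (hQpos l) (hcopQ l).symm (hperR l) (hperD l) (hu l) (hδ l)
    have h2 : HasDensity ({n | Nat.Coprime n (R l)}ᶜ ∩ prodRough (ys l) (B l)) ((1 - u l) * c l) :=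
      inter_density (hR0 l) (hq0 l) (hcopq l).symm (hperRc l) (hperC l) (hu l).compl (hcd l)
    have h3 : Disjoint ({n | Nat.Coprime n (R l)} ∩ D l)
        ({n | Nat.Coprime n (R l)}ᶜ ∩ prodRough (ys l) (B l)) := by
      rw [Set.disjoint_left]
      rintro n ⟨h4, _⟩ ⟨h5, _⟩
      exact h5 h4
    have h4 := HasDensity.union h3 h1 h2
    rw [← hDS] at h4
    exact (hδ (l + 1)).unique h4
  have hcb : ∀ l : ℕ, |c l - b| ≤ 1 / ((l : ℝ) + 1) := by
    intro l
    have h1 := hb (ys l) (Ts l) (hys3 l) (hTs1 l)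
    have h2 := hw l
    have hP := Phi_pos (ys l)
    have hM := M_nonneg (k := k) (by omega) (ys l) (Ts l)
    have h3 : bLo k (ys l) (Ts l) ≤ c l := by
      rw [bLo, hc]
      simp only
      have h4 := factor_le_one (y := ys l) (by have := hys3 l; omega)
      have h5 : 0 ≤ Phi (ys l) * M k (ys l) (Ts l) := mul_nonneg hP.le hM
      nlinarith
    have h4 : c l ≤ bUp k (ys l) (Ts l) := by
      rw [bUp, hc]
      simp only
      have := Phi_mul_sum_le (ys l) (Ts l)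
      nlinarith
    rw [abs_le]
    constructor <;> linarith [h1.1, h1.2]
  have hconv : Tendsto δ atTop (𝓝 b) := conv_lemma hrec hu0 hu1 hcb
  -- the final set
  obtain ⟨A, hA⟩ : ∃ A : Set ℕ, A = {n | ∃ l, ¬ Nat.Coprime n (∏ p ∈ F l, p) ∧
      (∀ l' > l, Nat.Coprime n (∏ p ∈ F l', p)) ∧ n ∈ prodRS (ys l) (B l)} := ⟨_, rfl⟩
  have hfree : Free k A := by
    rw [hA]
    exact levels_free hk hB hfB hyF
  have hmA : ∀ n, n ∈ A ↔ ∃ l, ¬ Nat.Coprime n (R l) ∧ (∀ l' > l, Nat.Coprime n (R l')) ∧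
      n ∈ prodRS (ys l) (B l) := by
    intro n
    rw [hA]
    simp only [Set.mem_ofPred_eq, hRF]
  refine ⟨A, hfree, ?_⟩
  -- thresholds
  obtain ⟨K, hK⟩ : ∃ K : ℕ → ℕ, K = fun l => (l + 1) * Qs l := ⟨_, rfl⟩
  have hKs : ∀ l, K l < K (l + 1) := by
    intro l
    rw [hK]
    simp only
    have h1 : Qs l ≤ Qs (l + 1) := Nat.le_of_dvd (hQpos _) (hQdvd l)
    have h2 := hQpos l
    nlinarith
  have hKmono : StrictMono K := strictMono_nat_of_lt_succ hKs
  have hK0 : K 0 = 1 := by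
    rw [hK]
    simp [hQs0]
  -- numbers below `K (l + 1)` have no hit at levels above `l`
  have hnohit : ∀ l n, 0 < n → n < K (l + 1) → ∀ l' > l, Nat.Coprime n (R l') := by
    intro l n hn0 hn l' hl'
    refine hcopAux l' n hn0 ?_
    have h1 : Qs (l + 1) ≤ Qs l' := Nat.le_of_dvd (hQpos _) (hQdvd' _ _ hl')
    have h2 : 1 ≤ q l' := hq0 l'
    rw [hK] at hn
    simp only at hn
    calc n ≤ (l + 1 + 1) * Qs (l + 1) := hn.le
      _ ≤ (l' + 1) * Qs l' := Nat.mul_le_mul (by omega) h1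
      _ ≤ (l' + 1) * (Qs l' * q l') := Nat.mul_le_mul_left _ (Nat.le_mul_of_pos_right _ h2)
  -- the main estimate
  have hmain : ∀ L l x : ℕ, L ≤ l → K l ≤ x → x < K (l + 1) →
      |(N A x : ℝ) / x - b| ≤ |δ l - b| + 1 / ((l : ℝ) + 1) + 2 / ((l : ℝ) + 1) +
        (1 / ((L : ℝ) + 1) + (((L : ℝ) + 1) / (l + 1) + 1 / ((l : ℝ) + 1))) := by
    intro L l x hLl hx1 hx2
    have hx0 : 0 < x := by
      have := hKmono.monotone (Nat.zero_le l)
      omega
    have hx0' : (0 : ℝ) < x := by exact_mod_cast hx0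
    have hQx : (Qs l : ℝ) ≤ x * (1 / ((l : ℝ) + 1)) := by
      rw [mul_one_div, le_div_iff₀ (by positivity)]
      rw [hK] at hx1
      simp only at hx1
      have : (((l + 1) * Qs l : ℕ) : ℝ) ≤ x := by exact_mod_cast hx1
      push_cast at this
      linarith
    have hND := abs_le.1 (per_bound' (hQpos l) (hperD l) (hδ l) x)
    have hNV := hhit l x
    have hbad := bad_count L x
    obtain ⟨hperU, v, hv, hv0, hv1⟩ := noHit_density hR0 hcopR hu hu0 hu1 L l hLl
    have hU2 : Per (Qs l) {n | ∀ i, L ≤ i → i < l → Nat.Coprime n (R i)} := by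
      refine hperU.of_dvd ?_
      clear hND hNV hbad hperU hv hv0 hv1 hx1 hx2 hQx
      induction l, hLl using Nat.le_induction with
      | base => simp
      | succ l hl ih =>
        rw [Finset.prod_Ico_succ_top hl, hQsS]
        exact Nat.mul_dvd_mul (ih.mul_right _) dvd_rfl
    have hNU := (abs_le.1 (per_bound' (hQpos l) hU2 hv x)).2
    have hv2 := mul_le_mul_of_nonneg_right hv1 hx0'.le
    -- upper inclusion
    have hup : N A x ≤ N (D l) x + N {n | ¬ Nat.Coprime n (R l)} x := by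
      refine le_trans ?_ (N_union_le _ _ x)
      refine N_mono' fun n hn1 hn2 hn => ?_
      rw [hmA] at hn
      obtain ⟨l1, h1, h2, h3⟩ := hn
      have hl1 : l1 ≤ l := by
        by_contra hcon
        push Not at hcon
        exact h1 (hnohit l n hn1 (by omega) l1 hcon)
      rcases Nat.lt_or_eq_of_le hl1 with h4 | h4
      · left
        rw [hmD]
        refine ⟨l1, h4, h1, fun l' h5 _ => h2 l' h5, ?_⟩
        obtain ⟨s, hs, m, hm, h6⟩ := h3
        exact ⟨s, hs, m, RS_subset _ hm, h6⟩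
      · right
        rw [h4] at h1
        exact h1
    -- lower inclusion
    have hlo : N (D l) x ≤ N A x + N {n | ¬ Nat.Coprime n (R l)} x +
        (N {n | ∃ j, L + 2 ≤ j ∧ j * j ∣ n} x +
          N {n | ∀ i, L ≤ i → i < l → Nat.Coprime n (R i)} x) := by
      refine le_trans ?_ (Nat.add_le_add (N_union_le _ _ x) (N_union_le _ _ x))
      refine le_trans ?_ (N_union_le _ _ x)
      refine N_mono' fun n hn1 hn2 hn => ?_
      rw [hmD] at hn
      obtain ⟨l1, hl1, h1, h2, h3⟩ := hn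
      by_cases hV : Nat.Coprime n (R l)
      swap
      · exact Or.inl (Or.inr hV)
      have h2' : ∀ l' > l1, Nat.Coprime n (R l') := by
        intro l' hl'
        rcases lt_trichotomy l' l with h | h | h
        · exact h2 l' hl' h
        · rw [h]
          exact hV
        · exact hnohit l n hn1 (by omega) l' h
      obtain ⟨s, hs, m, hm, h6⟩ := h3
      by_cases hsq : Squarefree m
      · refine Or.inl (Or.inl ?_)
        rw [hmA]
        exact ⟨l1, h1, h2', s, hs, m, ⟨hm.1, hm.2, hsq⟩, h6⟩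
      · right
        rcases Nat.lt_or_ge l1 L with h7 | h7
        · right
          intro i hi1 hi2
          exact h2 i (by omega) hi2
        · left
          rw [Nat.squarefree_iff_prime_squarefree] at hsq
          push Not at hsq
          obtain ⟨p, hp, hpm⟩ := hsq
          refine ⟨p, ?_, ?_⟩
          · have h8 := coprime_W_iff.1 hm.2 p hp ((Dvd.intro _ rfl).trans hpm)
            have h9 := hys1 l1
            omega
          · rw [h6]
            exact hpm.mul_left s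
    have hup' : (N A x : ℝ) ≤ N (D l) x + N {n | ¬ Nat.Coprime n (R l)} x := by exact_mod_cast hup
    have hlo' : (N (D l) x : ℝ) ≤ N A x + N {n | ¬ Nat.Coprime n (R l)} x +
        (N {n | ∃ j, L + 2 ≤ j ∧ j * j ∣ n} x +
          N {n | ∀ i, L ≤ i → i < l → Nat.Coprime n (R i)} x) := by exact_mod_cast hlo
    have habs := abs_le.1 (le_refl |δ l - b|)
    have e1 : (N A x : ℝ) / x - b = ((N A x : ℝ) - b * x) / x := by field_simp
    rw [e1, abs_div, abs_of_pos hx0', div_le_iff₀ hx0']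
    have h11 : (δ l - b) * x ≤ |δ l - b| * x := mul_le_mul_of_nonneg_right (le_abs_self _) hx0'.le
    have h12 : -(|δ l - b| * x) ≤ (δ l - b) * x := by
      have := mul_le_mul_of_nonneg_right habs.1 hx0'.le
      linarith
    have p1 : 0 ≤ (x : ℝ) * (1 / ((L : ℝ) + 1)) := by positivity
    have p2 : 0 ≤ ((L : ℝ) + 1) / (l + 1) * x := by positivity
    have p3 : 0 ≤ (x : ℝ) * (1 / ((l : ℝ) + 1)) := by positivity
    rw [abs_le]
    constructor
    · nlinarith
    · nlinarith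
  -- conclusion
  rw [HasDensity, Metric.tendsto_atTop]
  intro ε hε
  obtain ⟨L, hL⟩ := exists_nat_gt (4 / ε)
  have hLε : 1 / ((L : ℝ) + 1) < ε / 4 := by
    rw [div_lt_iff₀ (by positivity)]
    rw [div_lt_iff₀ hε] at hL
    nlinarith
  obtain ⟨l1, hl1⟩ := Metric.tendsto_atTop.1 hconv (ε / 4) (by linarith)
  obtain ⟨l2, hl2⟩ := exists_nat_gt (4 * ((L : ℝ) + 5) / ε)
  obtain ⟨l0, hl0⟩ : ∃ l0, l0 = max L (max l1 l2) := ⟨_, rfl⟩
  refine ⟨K l0, fun x hx => ?_⟩
  have hex : ∃ m, x < K m := ⟨x + 1, by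
    have := hKmono.id_le (x + 1)
    simp only [id] at this
    omega⟩
  obtain ⟨m, hm⟩ : ∃ m, m = Nat.find hex := ⟨_, rfl⟩
  have hm1 : x < K m := hm ▸ Nat.find_spec hex
  have hm0 : l0 < m := by
    by_contra hcon
    push Not at hcon
    have := hKmono.monotone hcon
    omega
  obtain ⟨l, rfl⟩ : ∃ l, m = l + 1 := ⟨m - 1, by omega⟩
  have hlx : K l ≤ x := by
    have := Nat.find_min hex (m := l) (by omega)
    omega
  have hll0 : l0 ≤ l := by omega
  have hLl : L ≤ l := le_trans (hl0 ▸ le_max_left _ _) hll0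
  have hl1l : l1 ≤ l := le_trans (hl0 ▸ le_trans (le_max_left _ _) (le_max_right _ _)) hll0
  have hl2l : l2 ≤ l := le_trans (hl0 ▸ le_trans (le_max_right _ _) (le_max_right _ _)) hll0
  have hest := hmain L l x hLl hlx hm1
  have h1 := hl1 l hl1l
  rw [Real.dist_eq] at h1 ⊢
  have h2 : 1 / ((l : ℝ) + 1) + 2 / ((l : ℝ) + 1) + (((L : ℝ) + 1) / (l + 1) + 1 / ((l : ℝ) + 1)) <
      ε / 4 := by
    have e : 1 / ((l : ℝ) + 1) + 2 / ((l : ℝ) + 1) + (((L : ℝ) + 1) / (l + 1) + 1 / ((l : ℝ) + 1)) =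
        ((L : ℝ) + 5) / (l + 1) := by
      field_simp
      ring
    rw [e, div_lt_iff₀ (by positivity)]
    rw [div_lt_iff₀ hε] at hl2
    have : (l2 : ℝ) ≤ l := by exact_mod_cast hl2l
    nlinarith
  linarith

end Pool.Agent.Helper54.GP
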