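import Pool.Agent.Helper54.GP.Block

/-!
# A free set with the largest asymptotic density
-/

namespace Pool.Agent.Helper54.GP

open Finset Filter Topology
open Pool.Agent.Helper54.SigmaDens (N N_mono N_le)

/-- The numbers `s m`, `s ∈ B`, `m` rough. -/
def prodRough (y : ℕ) (B : Finset ℕ) : Set ℕ := {n | ∃ s ∈ B, ∃ m ∈ Rough y, n = s * m}

lemma prodRough_per {y : ℕ} {B : Finset ℕ} (hB : ∀ s ∈ B, 0 < s) :
    Per (W y * ∏ b ∈ B, b) (prodRough y B) := by
  intro n hn
  constructor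
  · rintro ⟨s, hs, m, hm, h⟩
    obtain ⟨c, hc⟩ := Finset.dvd_prod_of_mem (fun b => b) hs
    rw [hc] at h
    have hs0 := hB s hs
    have h1 : n + s * (W y * c) = s * m := by rw [← h]; ring
    have h2 : W y * c < m := by
      by_contra hcon
      push Not at hcon
      have := Nat.mul_le_mul_left s hcon
      omega
    obtain ⟨d, hd⟩ : ∃ d, m = d + W y * c := ⟨m - W y * c, by omega⟩
    refine ⟨s, hs, d, ⟨by omega, ?_⟩, ?_⟩
    · have := hm.2
      rw [hd, Nat.coprime_add_mul_left_left] at this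
      exact this
    · rw [hd] at h1
      have : s * (d + W y * c) = s * d + s * (W y * c) := by ring
      omega
  · rintro ⟨s, hs, m, hm, h⟩
    obtain ⟨c, hc⟩ := Finset.dvd_prod_of_mem (fun b => b) hs
    rw [hc]
    refine ⟨s, hs, m + W y * c, ⟨by have := hm.1; omega, ?_⟩, by rw [h]; ring⟩
    rw [Nat.coprime_add_mul_left_left]
    exact hm.2

lemma prodRough_density {y : ℕ} {B : Finset ℕ} (hB : ∀ s ∈ B, 0 < s ∧ Sm y s) :
    HasDensity (prodRough y B) (Phi y * ∑ b ∈ B, 1 / (b : ℝ)) := by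
  have h1 := N_prodset B hB (Rough y) (le_refl _)
  refine tendsto_of_bound (C := B.card * (W y + 1)) fun x => ?_
  have h2 : (N (prodRough y B) x : ℝ) = ∑ s ∈ B, (N (Rough y) (x / s) : ℝ) := by
    rw [prodRough, h1]
    push_cast
    rfl
  rw [h2, Finset.mul_sum, Finset.sum_mul, ← Finset.sum_sub_distrib]
  refine (Finset.abs_sum_le_sum_abs _ _).trans ?_
  rw [← nsmul_eq_mul]
  refine Finset.sum_le_card_nsmul _ _ _ fun s hs => ?_
  have h3 := abs_le.1 (rough_count y (x / s))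
  have h4 := cast_div_ge x s
  have h5 : ((x / s : ℕ) : ℝ) ≤ x / s := Nat.cast_div_le
  have hP := Phi_pos y
  have hP1 := Phi_le_one y
  have h6 := mul_le_mul_of_nonneg_left h4 hP.le
  have h7 := mul_le_mul_of_nonneg_left h5 hP.le
  have h8 : Phi y * (1 / (s : ℝ)) * x = Phi y * (x / s) := by ring
  rw [h8, abs_le]
  constructor <;> nlinarith

/-- A convergence lemma for convex combinations. -/
lemma conv_lemma {δ u c : ℕ → ℝ} {b : ℝ} (h : ∀ l, δ (l + 1) = u l * δ l + (1 - u l) * c l)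
    (hu0 : ∀ l, 0 ≤ u l) (hu : ∀ l : ℕ, u l ≤ ((l : ℝ) + 1) / (l + 2))
    (hc : ∀ l : ℕ, |c l - b| ≤ 1 / ((l : ℝ) + 1)) : Tendsto δ atTop (𝓝 b) := by
  rw [Metric.tendsto_atTop]
  intro ε hε
  obtain ⟨L, hL⟩ := exists_nat_gt (2 / ε)
  have hε2 : 0 < ε / 2 := by linarith
  obtain ⟨w, hw⟩ : ∃ w : ℕ → ℝ, w = fun l => max (|δ l - b| - ε / 2) 0 := ⟨_, rfl⟩
  have hw0 : ∀ l, 0 ≤ w l := fun l => by rw [hw]; exact le_max_right _ _
  have hstep : ∀ l : ℕ, L ≤ l → ((l : ℝ) + 2) * w (l + 1) ≤ ((l : ℝ) + 1) * w l := by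
    intro l hl
    have hl' : (L : ℝ) ≤ l := by exact_mod_cast hl
    have h1 : 1 / ((l : ℝ) + 1) ≤ ε / 2 := by
      rw [div_le_iff₀ (by positivity)]
      rw [div_lt_iff₀ hε] at hL
      nlinarith
    have h2 : u l ≤ 1 := by
      refine (hu l).trans ?_
      rw [div_le_one (by positivity)]
      linarith
    have h3 : |δ (l + 1) - b| ≤ u l * |δ l - b| + (1 - u l) * |c l - b| := by
      have : δ (l + 1) - b = u l * (δ l - b) + (1 - u l) * (c l - b) := by
        rw [h]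
        ring
      rw [this]
      refine (abs_add_le _ _).trans ?_
      rw [abs_mul, abs_mul, abs_of_nonneg (hu0 l), abs_of_nonneg (by linarith : 0 ≤ 1 - u l)]
    have h4 : w (l + 1) ≤ u l * w l := by
      rw [hw]
      simp only
      refine max_le ?_ (mul_nonneg (hu0 l) (le_max_right _ _))
      have h5 : |δ l - b| - ε / 2 ≤ max (|δ l - b| - ε / 2) 0 := le_max_left _ _
      have h6 := mul_le_mul_of_nonneg_left h5 (hu0 l)
      have h7 : (1 - u l) * |c l - b| ≤ (1 - u l) * (ε / 2) :=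
        mul_le_mul_of_nonneg_left ((hc l).trans h1) (by linarith)
      nlinarith
    have h5 : u l * w l ≤ ((l : ℝ) + 1) / (l + 2) * w l := mul_le_mul_of_nonneg_right (hu l) (hw0 l)
    have h6 : w (l + 1) ≤ ((l : ℝ) + 1) / (l + 2) * w l := h4.trans h5
    have h7 : ((l : ℝ) + 2) * w (l + 1) ≤ ((l : ℝ) + 2) * (((l : ℝ) + 1) / (l + 2) * w l) :=
      mul_le_mul_of_nonneg_left h6 (by positivity)
    have h8 : ((l : ℝ) + 2) * (((l : ℝ) + 1) / (l + 2) * w l) = ((l : ℝ) + 1) * w l := by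
      field_simp
    linarith
  have hall : ∀ l, L ≤ l → ((l : ℝ) + 1) * w l ≤ ((L : ℝ) + 1) * w L := by
    intro l hl
    induction l, hl using Nat.le_induction with
    | base => exact le_rfl
    | succ l hl ih =>
      have := hstep l hl
      push_cast
      have e : (l : ℝ) + 1 + 1 = l + 2 := by ring
      rw [e]
      linarith
  obtain ⟨K, hK⟩ := exists_nat_gt ((((L : ℝ) + 1) * w L) / (ε / 2))
  refine ⟨max K L, fun l hl => ?_⟩
  have hl1 : K ≤ l := le_trans (le_max_left _ _) hl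
  have hl2 : L ≤ l := le_trans (le_max_right _ _) hl
  have h1 := hall l hl2
  rw [div_lt_iff₀ hε2] at hK
  have hl1' : (K : ℝ) ≤ l := by exact_mod_cast hl1
  have h2 : w l < ε / 2 := by
    by_contra hcon
    push Not at hcon
    have h3 : ((l : ℝ) + 1) * (ε / 2) ≤ ((l : ℝ) + 1) * w l :=
      mul_le_mul_of_nonneg_left hcon (by positivity)
    nlinarith
  rw [Real.dist_eq]
  have h3 : |δ l - b| - ε / 2 ≤ w l := by
    rw [hw]
    exact le_max_left _ _
  linarith

lemma bad_count (L x : ℕ) : (N {n | ∃ j, L + 2 ≤ j ∧ j * j ∣ n} x : ℝ) ≤ x * (1 / ((L : ℝ) + 1)) := by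
  classical
  obtain ⟨U, hU⟩ : ∃ U : Set ℕ, U = {n | ∃ j, L + 2 ≤ j ∧ j * j ∣ n} := ⟨_, rfl⟩
  have hmU : ∀ n, n ∈ U ↔ ∃ j, L + 2 ≤ j ∧ j * j ∣ n := fun n => by rw [hU]; rfl
  rw [← hU]
  have h1 : (Icc 1 x).filter (· ∈ U) ⊆
      (Icc (L + 2) (Nat.sqrt x)).biUnion (fun j => (Icc 1 x).filter (fun n => j * j ∣ n)) := by
    intro n hn
    rw [Finset.mem_filter, hmU, Finset.mem_Icc] at hn
    obtain ⟨h1, j, hj, hjn⟩ := hn
    rw [Finset.mem_biUnion]
    refine ⟨j, ?_, by rw [Finset.mem_filter, Finset.mem_Icc]; exact ⟨h1, hjn⟩⟩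
    rw [Finset.mem_Icc, Nat.le_sqrt]
    exact ⟨hj, (Nat.le_of_dvd h1.1 hjn).trans h1.2⟩
  have h2 : N U x ≤ ∑ j ∈ Icc (L + 2) (Nat.sqrt x), x / (j * j) := by
    unfold N
    refine (Finset.card_le_card h1).trans (Finset.card_biUnion_le.trans ?_)
    refine Finset.sum_le_sum fun p _ => ?_
    have : (Icc 1 x) = Ioc 0 x := by
      ext n
      rw [Finset.mem_Icc, Finset.mem_Ioc]
      omega
    rw [this, Nat.Ioc_filter_dvd_card_eq_div]
  have h3 : (N U x : ℝ) ≤ ∑ j ∈ Icc (L + 2) (Nat.sqrt x), ((x / (j * j) : ℕ) : ℝ) := by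
    exact_mod_cast h2
  refine h3.trans ?_
  have h4 : ∑ j ∈ Icc (L + 2) (Nat.sqrt x), ((x / (j * j) : ℕ) : ℝ) ≤
      ∑ j ∈ Icc (L + 2) (Nat.sqrt x), (x : ℝ) * (1 / ((j : ℝ) * j)) := by
    refine Finset.sum_le_sum fun j _ => ?_
    have := @Nat.cast_div_le ℝ _ _ _ x (j * j)
    push_cast at this
    rw [mul_one_div]
    exact this
  refine h4.trans ?_
  rw [← Finset.mul_sum]
  refine mul_le_mul_of_nonneg_left ?_ (Nat.cast_nonneg _)
  have h5 := sum_inv_sq (y := L + 2) (J := Nat.sqrt x) (by omega)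
  refine h5.trans (le_of_eq ?_)
  push_cast
  congr 1
  ring

/-- The sets of all numbers with no hit in the levels `[L, l)`. -/
lemma noHit_density {R : ℕ → ℕ} {u : ℕ → ℝ} (hR0 : ∀ l, 0 < R l)
    (hcop : ∀ i j, i < j → Nat.Coprime (R i) (R j))
    (hu : ∀ l, HasDensity {n | Nat.Coprime n (R l)} (u l)) (hu0 : ∀ l, 0 ≤ u l)
    (hu1 : ∀ l : ℕ, u l ≤ ((l : ℝ) + 1) / (l + 2)) (L : ℕ) :
    ∀ l, L ≤ l → Per (∏ i ∈ Ico L l, R i) {n | ∀ i, L ≤ i → i < l → Nat.Coprime n (R i)} ∧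
      ∃ v : ℝ, HasDensity {n | ∀ i, L ≤ i → i < l → Nat.Coprime n (R i)} v ∧ 0 ≤ v ∧
        v ≤ ((L : ℝ) + 1) / (l + 1) := by
  intro l hl
  induction l, hl using Nat.le_induction with
  | base =>
    have e : {n | ∀ i, L ≤ i → i < L → Nat.Coprime n (R i)} = Set.univ := by
      ext n
      simp only [Set.mem_ofPred_eq, Set.mem_univ, iff_true]
      intro i h1 h2
      omega
    refine ⟨by intro n _; rw [e]; simp, 1, ?_, zero_le_one, ?_⟩
    · rw [e]
      refine (tendsto_const_nhds (x := (1 : ℝ))).congr' ?_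
      filter_upwards [eventually_gt_atTop 0] with x hx
      have hx' : (x : ℝ) ≠ 0 := by exact_mod_cast hx.ne'
      have : N (Set.univ : Set ℕ) x = x := by
        have h := N_compl (∅ : Set ℕ) x
        rw [Set.compl_empty] at h
        have h0 : N (∅ : Set ℕ) x = 0 := by
          unfold N
          simp
        omega
      rw [this, div_self hx']
    · rw [div_self (by positivity)]
  | succ l hl ih =>
    obtain ⟨hper, v, hv, hv0, hv1⟩ := ih
    have e : {n | ∀ i, L ≤ i → i < l + 1 → Nat.Coprime n (R i)} =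
        {n | ∀ i, L ≤ i → i < l → Nat.Coprime n (R i)} ∩ {n | Nat.Coprime n (R l)} := by
      ext n
      simp only [Set.mem_inter_iff, Set.mem_ofPred_eq]
      constructor
      · intro h
        exact ⟨fun i h1 h2 => h i h1 (by omega), h l hl (by omega)⟩
      · rintro ⟨h1, h2⟩ i h3 h4
        rcases Nat.lt_succ_iff_lt_or_eq.1 h4 with h5 | h5
        · exact h1 i h3 h5
        · rw [h5]
          exact h2
    have hperR : Per (R l) {n | Nat.Coprime n (R l)} := by
      intro n _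
      simp only [Set.mem_ofPred_eq]
      rw [Nat.coprime_add_self_left]
    have hcop' : Nat.Coprime (∏ i ∈ Ico L l, R i) (R l) :=
      Nat.Coprime.prod_left fun i hi => hcop i l (Finset.mem_Ico.1 hi).2
    have hpos : 0 < ∏ i ∈ Ico L l, R i := Finset.prod_pos fun i _ => hR0 i
    refine ⟨?_, v * u l, ?_, mul_nonneg hv0 (hu0 l), ?_⟩
    · rw [e, Finset.prod_Ico_succ_top hl]
      intro n hn
      rw [Set.mem_inter_iff, Set.mem_inter_iff, hper.mul (R l) n hn,
        (hperR.of_dvd (Dvd.intro_left _ rfl) : Per ((∏ i ∈ Ico L l, R i) * R l) _) n hn]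
    · rw [e]
      exact inter_density hpos (hR0 l) hcop' hper hperR hv (hu l)
    · have h1 : v * u l ≤ ((L : ℝ) + 1) / (l + 1) * (((l : ℝ) + 1) / (l + 2)) :=
        mul_le_mul hv1 (hu1 l) (hu0 l) (by positivity)
      refine h1.trans (le_of_eq ?_)
      push_cast
      field_simp
      ring

end Pool.Agent.Helper54.GP
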