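import Pool.Agent.Helper54.GP.AlphaSet

/-!
# Blocks of primes, and the gluing of free sets by levels
-/

namespace Pool.Agent.Helper54.GP

open Finset Filter Topology
open Pool.Agent.Helper54.SigmaDens (N N_mono N_le)

/-- A finite block of primes `> K` with `∑ 1/p` in `[1/(l+1), 2/(l+1)]`. -/
lemma exists_block (K l : ℕ) : ∃ F : Finset ℕ, (∀ p ∈ F, p.Prime ∧ K < p) ∧
    1 / ((l : ℝ) + 1) ≤ ∑ p ∈ F, 1 / (p : ℝ) ∧ ∑ p ∈ F, 1 / (p : ℝ) ≤ 2 / ((l : ℝ) + 1) := by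
  classical
  obtain ⟨K', hK'⟩ : ∃ K', K' = max K l := ⟨_, rfl⟩
  obtain ⟨g, hg⟩ : ∃ g : ℕ → ℝ, g = fun n => ∑ p ∈ (Ioc K' n).filter Nat.Prime, 1 / (p : ℝ) := ⟨_, rfl⟩
  have h1 := not_summable_one_div_on_primes
  rw [not_summable_iff_tendsto_nat_atTop_of_nonneg (fun n => Set.indicator_nonneg
    (fun _ _ => by positivity) n)] at h1
  have hex : ∃ n, 1 / ((l : ℝ) + 1) ≤ g n := by
    obtain ⟨n, hn⟩ := (h1.eventually_ge_atTop (1 + ∑ i ∈ range (K' + 1),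
      Set.indicator {p : ℕ | p.Prime} (fun n : ℕ => 1 / (n : ℝ)) i)).exists
    refine ⟨n, ?_⟩
    have h2 : ∑ i ∈ range n, Set.indicator {p : ℕ | p.Prime} (fun n : ℕ => 1 / (n : ℝ)) i ≤
        ∑ i ∈ range (K' + 1), Set.indicator {p : ℕ | p.Prime} (fun n : ℕ => 1 / (n : ℝ)) i +
        g n := by
      have h3 : g n = ∑ i ∈ Ioc K' n, Set.indicator {p : ℕ | p.Prime} (fun n : ℕ => 1 / (n : ℝ)) i := by
        rw [hg]
        simp only
        rw [Finset.sum_filter]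
        refine Finset.sum_congr rfl fun i _ => ?_
        rw [Set.indicator_apply]
        rfl
      rw [h3, ← Finset.sum_union]
      · refine Finset.sum_le_sum_of_subset_of_nonneg ?_ fun i _ _ =>
          Set.indicator_nonneg (fun _ _ => by positivity) i
        intro i hi
        rw [Finset.mem_range] at hi
        rw [Finset.mem_union, Finset.mem_range, Finset.mem_Ioc]
        omega
      · rw [Finset.disjoint_left]
        intro i hi hi2
        rw [Finset.mem_range] at hi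
        rw [Finset.mem_Ioc] at hi2
        omega
    have h4 : 1 / ((l : ℝ) + 1) ≤ 1 := by
      rw [div_le_one (by positivity)]
      linarith [Nat.cast_nonneg (α := ℝ) l]
    linarith
  obtain ⟨n, hn⟩ : ∃ n, n = Nat.find hex := ⟨_, rfl⟩
  have hn1 : 1 / ((l : ℝ) + 1) ≤ g n := hn ▸ Nat.find_spec hex
  have hn0 : K' < n := by
    by_contra hcon
    push Not at hcon
    have : g n = 0 := by
      rw [hg]
      simp only
      rw [Finset.Ioc_eq_empty (by omega)]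
      simp
    rw [this] at hn1
    have : (0 : ℝ) < 1 / ((l : ℝ) + 1) := by positivity
    linarith
  refine ⟨(Ioc K' n).filter Nat.Prime, ?_, ?_, ?_⟩
  · intro p hp
    rw [Finset.mem_filter, Finset.mem_Ioc] at hp
    exact ⟨hp.2, lt_of_le_of_lt (hK' ▸ le_max_left _ _) hp.1.1⟩
  · rw [hg] at hn1
    exact hn1
  · have h2 : ¬ 1 / ((l : ℝ) + 1) ≤ g (n - 1) := Nat.find_min hex (by omega)
    push Not at h2
    have h3 : g n ≤ g (n - 1) + 1 / (n : ℝ) := by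
      rw [hg]
      simp only
      obtain ⟨m, rfl⟩ : ∃ m, n = m + 1 := ⟨n - 1, by omega⟩
      rw [Nat.add_sub_cancel, Finset.sum_filter, Finset.sum_filter,
        Finset.sum_Ioc_succ_top (by omega)]
      split_ifs
      · push_cast
        rfl
      · have : (0 : ℝ) ≤ 1 / ((m + 1 : ℕ) : ℝ) := by positivity
        push_cast at this ⊢
        linarith
    have h4 : 1 / (n : ℝ) ≤ 1 / ((l : ℝ) + 1) := by
      refine one_div_le_one_div_of_le (by positivity) ?_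
      have : l + 1 ≤ n := by
        have := le_max_right K l
        omega
      exact_mod_cast this
    have h5 : g n ≤ 2 / ((l : ℝ) + 1) := by
      have : 2 / ((l : ℝ) + 1) = 1 / ((l : ℝ) + 1) + 1 / ((l : ℝ) + 1) := by ring
      rw [this]
      linarith
    rw [hg] at h5
    exact h5

lemma coprime_prod_iff {F : Finset ℕ} (hF : ∀ p ∈ F, p.Prime) (n : ℕ) :
    Nat.Coprime n (∏ p ∈ F, p) ↔ ∀ p ∈ F, ¬ p ∣ n := by
  rw [Nat.coprime_prod_right_iff]
  constructor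
  · intro h p hp hpn
    have := h p hp
    rw [Nat.coprime_comm, (hF p hp).coprime_iff_not_dvd] at this
    exact this hpn
  · intro h p hp
    rw [Nat.coprime_comm, (hF p hp).coprime_iff_not_dvd]
    exact h p hp

/-- The density of the numbers without prime factor in a block. -/
lemma block_density {F : Finset ℕ} (hF : ∀ p ∈ F, p.Prime) {c : ℝ} (hc : 0 < c)
    (h1 : c ≤ ∑ p ∈ F, 1 / (p : ℝ)) :
    ∃ u : ℝ, HasDensity {n | Nat.Coprime n (∏ p ∈ F, p)} u ∧ 0 ≤ u ∧ u ≤ 1 / (1 + c) := by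
  have hR : 0 < ∏ p ∈ F, p := Finset.prod_pos fun p hp => (hF p hp).pos
  refine ⟨_, coprime_density hR, by positivity, ?_⟩
  have h2 : (Nat.totient (∏ p ∈ F, p) : ℝ) / ((∏ p ∈ F, p : ℕ) : ℝ) =
      ∏ p ∈ F, (1 - (p : ℝ)⁻¹) := by
    have h := Nat.totient_eq_mul_prod_factors (∏ p ∈ F, p)
    rw [Nat.primeFactors_prod hF] at h
    have h' : (Nat.totient (∏ p ∈ F, p) : ℝ) = ((∏ p ∈ F, p : ℕ) : ℝ) * ∏ p ∈ F, (1 - (p : ℝ)⁻¹) := by
      have := congrArg (fun z : ℚ => (z : ℝ)) h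
      push_cast at this ⊢
      exact this
    rw [h']
    have : ((∏ p ∈ F, p : ℕ) : ℝ) ≠ 0 := by exact_mod_cast hR.ne'
    field_simp
  rw [h2]
  -- `∏ (1 - 1/p) ≤ 1 / ∏ (1 + 1/p) ≤ 1 / (1 + ∑ 1/p)`
  have h3 : (∏ p ∈ F, (1 - (p : ℝ)⁻¹)) * (∏ p ∈ F, (1 + (p : ℝ)⁻¹)) ≤ 1 := by
    rw [← Finset.prod_mul_distrib]
    refine Finset.prod_le_one (fun p hp => ?_) fun p hp => ?_
    · have hp2 : (2 : ℝ) ≤ p := by exact_mod_cast (hF p hp).two_le
      have h4 : (p : ℝ)⁻¹ ≤ 1 := inv_le_one_of_one_le₀ (by linarith)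
      have h5 : (0 : ℝ) ≤ (p : ℝ)⁻¹ := by positivity
      exact mul_nonneg (by linarith) (by linarith)
    · have h5 : (0 : ℝ) ≤ (p : ℝ)⁻¹ := by positivity
      nlinarith
  have h4 : ∀ G : Finset ℕ, 1 + ∑ p ∈ G, (p : ℝ)⁻¹ ≤ ∏ p ∈ G, (1 + (p : ℝ)⁻¹) := by
    intro G
    induction G using Finset.induction_on with
    | empty => simp
    | insert p G hp ih =>
      rw [Finset.sum_insert hp, Finset.prod_insert hp]
      have h5 : (0 : ℝ) ≤ (p : ℝ)⁻¹ := by positivity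
      have h6 : (0 : ℝ) ≤ ∑ p ∈ G, (p : ℝ)⁻¹ := by positivity
      nlinarith
  have h4 := h4 F
  have h5 : ∑ p ∈ F, (p : ℝ)⁻¹ = ∑ p ∈ F, 1 / (p : ℝ) := by simp only [one_div]
  have h6 : 0 ≤ ∏ p ∈ F, (1 - (p : ℝ)⁻¹) := by
    refine Finset.prod_nonneg fun p hp => ?_
    have hp2 : (2 : ℝ) ≤ p := by exact_mod_cast (hF p hp).two_le
    have h4 : (p : ℝ)⁻¹ ≤ 1 := inv_le_one_of_one_le₀ (by linarith)
    linarith
  rw [le_div_iff₀ (by linarith)]
  rw [h5] at h4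
  have h7 : 1 + c ≤ ∏ p ∈ F, (1 + (p : ℝ)⁻¹) := by linarith
  exact (mul_le_mul_of_nonneg_left h7 h6).trans h3

/-- At most `x ∑ 1/p` numbers up to `x` have a prime factor in the block. -/
lemma block_hits {F : Finset ℕ} (hF : ∀ p ∈ F, p.Prime) (x : ℕ) :
    (N {n | ¬ Nat.Coprime n (∏ p ∈ F, p)} x : ℝ) ≤ x * ∑ p ∈ F, 1 / (p : ℝ) := by
  classical
  obtain ⟨U, hU⟩ : ∃ U : Set ℕ, U = {n | ¬ Nat.Coprime n (∏ p ∈ F, p)} := ⟨_, rfl⟩
  have hmU : ∀ n, n ∈ U ↔ ∃ p ∈ F, p ∣ n := by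
    intro n
    rw [hU]
    show ¬ Nat.Coprime n (∏ p ∈ F, p) ↔ _
    rw [coprime_prod_iff hF]
    push Not
    rfl
  rw [← hU]
  have h1 : (Icc 1 x).filter (· ∈ U) ⊆ F.biUnion (fun p => (Icc 1 x).filter (fun n => p ∣ n)) := by
    intro n hn
    rw [Finset.mem_filter, hmU] at hn
    obtain ⟨h1, p, hp, hpn⟩ := hn
    rw [Finset.mem_biUnion]
    exact ⟨p, hp, by rw [Finset.mem_filter]; exact ⟨h1, hpn⟩⟩
  have h2 : N U x ≤ ∑ p ∈ F, x / p := by
    unfold N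
    refine (Finset.card_le_card h1).trans (Finset.card_biUnion_le.trans ?_)
    refine Finset.sum_le_sum fun p _ => ?_
    have : (Icc 1 x) = Ioc 0 x := by
      ext n
      rw [Finset.mem_Icc, Finset.mem_Ioc]
      omega
    rw [this, Nat.Ioc_filter_dvd_card_eq_div]
  have h3 : (N U x : ℝ) ≤ ∑ p ∈ F, ((x / p : ℕ) : ℝ) := by exact_mod_cast h2
  refine h3.trans ?_
  rw [Finset.mul_sum]
  refine Finset.sum_le_sum fun p _ => ?_
  rw [mul_one_div]
  exact Nat.cast_div_le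

lemma not_sq_dvd {y p s m : ℕ} (hp : p.Prime) (hpy : y ≤ p) (hs : Sm y s) (hm : Squarefree m) :
    ¬ p * p ∣ s * m := by
  intro h
  have h1 : Nat.Coprime p s := by
    rw [hp.coprime_iff_not_dvd]
    intro h2
    exact absurd (hs p hp h2) (not_lt.2 hpy)
  have h2 : p * p ∣ m := (Nat.Coprime.mul_left h1 h1).dvd_of_dvd_mul_left h
  exact hp.one_lt.ne' (Nat.isUnit_iff.1 (hm p h2))

/-- Gluing of free sets by levels. -/
lemma levels_free {k : ℕ} (hk : 3 ≤ k) {ys : ℕ → ℕ} {B : ℕ → Finset ℕ} {T : ℕ → ℕ}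
    (hB : ∀ l, B l ⊆ S (ys l) (T l)) (hf : ∀ l, Free k (B l : Set ℕ)) {F : ℕ → Finset ℕ}
    (hF : ∀ l, ∀ p ∈ F l, p.Prime ∧ ys l ≤ p) :
    Free k {n | ∃ l, ¬ Nat.Coprime n (∏ p ∈ F l, p) ∧ (∀ l' > l, Nat.Coprime n (∏ p ∈ F l', p)) ∧
      n ∈ prodRS (ys l) (B l)} := by
  refine ⟨?_, fun a q ha hq hall => ?_⟩
  · rintro n ⟨l, _, _, hn⟩
    exact (prodRS_free hk (hB l) (hf l)).1 n hn
  obtain ⟨n, hn, hgp⟩ := gp_terms hall
  have hex : ∀ j < k, ∃ l, ¬ Nat.Coprime (n j) (∏ p ∈ F l, p) ∧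
      (∀ l' > l, Nat.Coprime (n j) (∏ p ∈ F l', p)) ∧ n j ∈ prodRS (ys l) (B l) :=
    fun j hj => (hn j hj).1
  choose! lv hlv1 hlv2 hlv3 using hex
  -- the maximal level
  obtain ⟨j0, hj0, hmax⟩ := Finset.exists_max_image (range k) lv ⟨0, by rw [Finset.mem_range]; omega⟩
  rw [Finset.mem_range] at hj0
  have hmax' : ∀ j < k, lv j ≤ lv j0 := fun j hj => hmax j (Finset.mem_range.2 hj)
  obtain ⟨J, hJ⟩ : ∃ J, J = lv j0 := ⟨_, rfl⟩
  rw [← hJ] at hmax'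
  have hFJ : ∀ p ∈ F J, p.Prime := fun p hp => (hF J p hp).1
  have h0 := hlv1 j0 hj0
  rw [← hJ, coprime_prod_iff hFJ] at h0
  push Not at h0
  obtain ⟨p, hpF, hpn⟩ := h0
  have hp : p.Prime := hFJ p hpF
  have hpy : ys J ≤ p := (hF J p hpF).2
  -- a term divisible by `p` has level `J` and is not divisible by `p ^ 2`
  have hlev : ∀ j < k, p ∣ n j → lv j = J := by
    intro j hj hpj
    refine le_antisymm (hmax' j hj) ?_
    by_contra hlt
    push Not at hlt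
    have := hlv2 j hj J hlt
    rw [coprime_prod_iff hFJ] at this
    exact this p hpF hpj
  have hsq : ∀ j < k, ¬ p * p ∣ n j := by
    intro j hj h
    have h1 := hlev j hj ((Dvd.intro _ rfl).trans h)
    have h2 := hlv3 j hj
    rw [h1] at h2
    obtain ⟨s, hs, m, hm, h3⟩ := h2
    rw [h3] at h
    exact not_sq_dvd hp hpy (mem_S.1 (hB J hs)).2 hm.2.2 h
  have hpsq : ∀ u v w : ℕ, u * w = v * v → ¬ p * p ∣ u → ¬ p * p ∣ w →
      ((p ∣ u → p ∣ v) ∧ (p ∣ v → p ∣ u ∧ p ∣ w) ∧ (p ∣ w → p ∣ v)) := by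
    intro u v w h hu hw
    refine ⟨fun h1 => ?_, fun h1 => ?_, fun h1 => ?_⟩
    · have : p ∣ v * v := h ▸ Dvd.dvd.mul_right h1 w
      rcases (Nat.Prime.dvd_mul hp).1 this with h | h <;> exact h
    · have h2 : p * p ∣ u * w := h ▸ Nat.mul_dvd_mul h1 h1
      by_cases hpu : p ∣ u
      · refine ⟨hpu, ?_⟩
        by_contra hpw
        have h3 : Nat.Coprime p w := (hp.coprime_iff_not_dvd).2 hpw
        exact hu ((Nat.Coprime.mul_left h3 h3).dvd_of_dvd_mul_right h2)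
      · exfalso
        have h3 : Nat.Coprime p u := (hp.coprime_iff_not_dvd).2 hpu
        exact hw ((Nat.Coprime.mul_left h3 h3).dvd_of_dvd_mul_left h2)
    · have : p ∣ v * v := h ▸ Dvd.dvd.mul_left h1 u
      rcases (Nat.Prime.dvd_mul hp).1 this with h | h <;> exact h
  have hiff : ∀ j, j + 2 < k → ((p ∣ n j ↔ p ∣ n (j + 1)) ∧ (p ∣ n (j + 2) ↔ p ∣ n (j + 1))) := by
    intro j hj
    have h1 := hpsq (n j) (n (j + 1)) (n (j + 2)) (hgp j hj) (hsq j (by omega)) (hsq (j + 2) hj)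
    exact ⟨⟨h1.1, fun h => (h1.2.1 h).1⟩, ⟨h1.2.2, fun h => (h1.2.1 h).2⟩⟩
  have hiff0 : ∀ j < k, (p ∣ n j ↔ p ∣ n 0) := by
    intro j
    induction j using Nat.strong_induction_on with
    | _ j ih =>
      intro hj
      match j, hj with
      | 0, _ => rfl
      | 1, _ => exact (hiff 0 (by omega)).1.symm
      | j + 2, hj => exact (hiff j hj).2.trans (ih (j + 1) (by omega) (by omega))
  have hallp : ∀ j < k, p ∣ n j := fun j hj => (hiff0 j hj).2 ((hiff0 j0 hj0).1 hpn)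
  refine (prodRS_free hk (hB J) (hf J)).2 a q ha hq fun j hj => ⟨n j, ?_, (hn j hj).2⟩
  have h1 := hlv3 j hj
  rw [hlev j hj (hallp j hj)] at h1
  exact h1

end Pool.Agent.Helper54.GP
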