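import Pool.Agent.Helper54.GP.Free
import Pool.Agent.Helper54.SigmaDens.Numeric

/-!
# Counting rough numbers, periodic sets
-/

namespace Pool.Agent.Helper54.GP

open Finset Filter Topology
open Pool.Agent.Helper54.SigmaDens (N N_mono N_le N_eq_count count_coprime N_succ)

lemma N_mono_right (A : Set ℕ) {x x' : ℕ} (h : x ≤ x') : N A x ≤ N A x' := by
  classical
  unfold N
  refine Finset.card_le_card fun n hn => ?_
  rw [Finset.mem_filter, Finset.mem_Icc] at hn ⊢
  exact ⟨⟨hn.1.1, hn.1.2.trans h⟩, hn.2⟩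

lemma N_congr {A B : Set ℕ} (h : ∀ n, 1 ≤ n → (n ∈ A ↔ n ∈ B)) (x : ℕ) : N A x = N B x := by
  classical
  unfold N
  congr 1
  ext n
  rw [Finset.mem_filter, Finset.mem_filter, Finset.mem_Icc]
  constructor
  · rintro ⟨h1, h2⟩
    exact ⟨h1, (h n h1.1).1 h2⟩
  · rintro ⟨h1, h2⟩
    exact ⟨h1, (h n h1.1).2 h2⟩

lemma N_zero (A : Set ℕ) : N A 0 = 0 := by
  have := N_le A 0
  omega

lemma rough_count (y x : ℕ) : |(N (Rough y) x : ℝ) - Phi y * x| ≤ W y := by
  have hW : 0 < W y := W_pos y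
  have hW' : (0 : ℝ) < W y := by exact_mod_cast hW
  have e : ∀ z, N (Rough y) z = N {m | Nat.Coprime m (W y)} z := fun z =>
    N_congr (A := Rough y) (B := {m | Nat.Coprime m (W y)})
      (fun n hn => Iff.intro (fun h => h.2) (fun h => And.intro hn h)) z
  obtain ⟨k, hk⟩ : ∃ k, k = x / W y := ⟨_, rfl⟩
  have h1 : W y * k ≤ x := by rw [hk]; exact Nat.mul_div_le x _
  have h2 : x ≤ W y * (k + 1) := by
    rw [hk]
    exact (Nat.lt_mul_div_succ x hW).le
  have h3 : N (Rough y) (W y * k) ≤ N (Rough y) x := N_mono_right _ h1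
  have h4 : N (Rough y) x ≤ N (Rough y) (W y * (k + 1)) := N_mono_right _ h2
  rw [e (W y * k), count_coprime] at h3
  rw [e (W y * (k + 1)), count_coprime] at h4
  have h5 : Phi y * W y = Nat.totient (W y) := by
    rw [Phi_eq]
    field_simp
  have h6 : (Nat.totient (W y) : ℝ) ≤ W y := by exact_mod_cast Nat.totient_le (W y)
  have h1' : (W y : ℝ) * k ≤ x := by exact_mod_cast h1
  have h2' : (x : ℝ) ≤ W y * (k + 1) := by exact_mod_cast h2
  have h3' : (k : ℝ) * Nat.totient (W y) ≤ N (Rough y) x := by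
    exact_mod_cast h3
  have h4' : (N (Rough y) x : ℝ) ≤ (k + 1) * Nat.totient (W y) := by
    exact_mod_cast h4
  have hP : 0 < Phi y := Phi_pos y
  rw [abs_le]
  constructor <;> nlinarith

lemma mem_Rough {y m : ℕ} : m ∈ Rough y ↔ 0 < m ∧ Nat.Coprime m (W y) := Iff.rfl

/-- A set with period `P`. -/
def Per (P : ℕ) (A : Set ℕ) : Prop := ∀ n, 1 ≤ n → (n + P ∈ A ↔ n ∈ A)

lemma Per.mul {P : ℕ} {A : Set ℕ} (h : Per P A) (c : ℕ) : Per (P * c) A := by
  induction c with
  | zero => intro n _; simp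
  | succ c ih =>
    intro n hn
    rw [show n + P * (c + 1) = n + P * c + P by ring, h _ (by omega), ih n hn]

lemma Per.of_dvd {P Q : ℕ} {A : Set ℕ} (h : Per P A) (hd : P ∣ Q) : Per Q A := by
  obtain ⟨c, rfl⟩ := hd
  exact h.mul c

lemma N_period {P : ℕ} {A : Set ℕ} (hper : Per P A) (q r : ℕ) :
    N A (P * q + r) = q * N A P + N A r := by
  classical
  have hshift : ∀ k, (P + k + 1 ∈ A) ↔ (k + 1 ∈ A) := by
    intro k
    have := hper (k + 1) (by omega)
    rw [← this]
    ring_nf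
  have h1 : ∀ b, N A (P + b) = N A P + N A b := by
    intro b
    rw [N_eq_count, N_eq_count, N_eq_count, Nat.count_add]
    congr 1
    simp only [hshift]
  induction q with
  | zero => simp
  | succ q ih =>
    rw [show P * (q + 1) + r = P + (P * q + r) by ring, h1, ih]
    ring

lemma N_zero_of (A : Set ℕ) : (N A 0 : ℝ) = 0 := by
  rw [N_zero]
  simp

lemma tendsto_of_bound {g : ℕ → ℝ} {d C : ℝ} (h : ∀ x : ℕ, |g x - d * x| ≤ C) :
    Tendsto (fun x : ℕ => g x / x) atTop (𝓝 d) := by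
  have h1 : Tendsto (fun x : ℕ => C / (x : ℝ)) atTop (𝓝 0) := tendsto_const_div_atTop_nhds_zero_nat C
  rw [tendsto_iff_norm_sub_tendsto_zero]
  refine squeeze_zero' (Eventually.of_forall fun _ => norm_nonneg _) ?_ h1
  filter_upwards [eventually_gt_atTop 0] with x hx
  have hx' : (0 : ℝ) < x := by exact_mod_cast hx
  rw [Real.norm_eq_abs]
  have : g x / x - d = (g x - d * x) / x := by field_simp
  rw [this, abs_div, abs_of_pos hx']
  exact div_le_div_of_nonneg_right (h x) hx'.le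

lemma per_bound {P : ℕ} (hP : 0 < P) {A : Set ℕ} (hper : Per P A) (x : ℕ) :
    |(N A x : ℝ) - (N A P : ℝ) / P * x| ≤ P := by
  have hP' : (0 : ℝ) < P := by exact_mod_cast hP
  have hxe : P * (x / P) + x % P = x := Nat.div_add_mod x P
  obtain ⟨q, hq⟩ : ∃ q, q = x / P := ⟨_, rfl⟩
  obtain ⟨r, hr⟩ : ∃ r, r = x % P := ⟨_, rfl⟩
  rw [← hq, ← hr] at hxe
  have hrP : r < P := hr ▸ Nat.mod_lt _ hP
  have h4 : (N A x : ℝ) = q * N A P + N A r := by
    rw [← hxe, N_period hper]
    push_cast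
    ring
  have hxe' : (x : ℝ) = P * q + r := by exact_mod_cast hxe.symm
  have hcr : (N A r : ℝ) ≤ r := by exact_mod_cast N_le A r
  have hcP : (N A P : ℝ) ≤ P := by exact_mod_cast N_le A P
  have hc0 : (0 : ℝ) ≤ N A r := Nat.cast_nonneg _
  have hcP0 : (0 : ℝ) ≤ N A P := Nat.cast_nonneg _
  have hrP' : (r : ℝ) ≤ P := by exact_mod_cast hrP.le
  have hr0 : (0 : ℝ) ≤ r := Nat.cast_nonneg _
  have h5 : (N A x : ℝ) - (N A P : ℝ) / P * x = N A r - (N A P : ℝ) / P * r := by
    rw [h4, hxe']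
    field_simp
    ring
  have h6 : (N A P : ℝ) / P * r ≤ r := by
    have : (N A P : ℝ) / P ≤ 1 := by
      rw [div_le_one hP']
      exact hcP
    nlinarith
  have h7 : 0 ≤ (N A P : ℝ) / P * r := by positivity
  rw [h5, abs_le]
  constructor <;> linarith

lemma per_hasDensity {P : ℕ} (hP : 0 < P) {A : Set ℕ} (hper : Per P A) :
    HasDensity A ((N A P : ℝ) / P) := tendsto_of_bound (per_bound hP hper)

lemma HasDensity.unique {A : Set ℕ} {d d' : ℝ} (h : HasDensity A d) (h' : HasDensity A d') :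
    d = d' := tendsto_nhds_unique h h'

lemma per_bound' {P : ℕ} (hP : 0 < P) {A : Set ℕ} (hper : Per P A) {d : ℝ} (hd : HasDensity A d)
    (x : ℕ) : |(N A x : ℝ) - d * x| ≤ P := by
  rw [hd.unique (per_hasDensity hP hper)]
  exact per_bound hP hper x

lemma rough_density (y : ℕ) : HasDensity (Rough y) (Phi y) := tendsto_of_bound (rough_count y)

lemma coprime_density {R : ℕ} (hR : 0 < R) :
    HasDensity {n | Nat.Coprime n R} ((Nat.totient R : ℝ) / R) := by
  have hper : Per R {n | Nat.Coprime n R} := by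
    intro n _
    simp only [Set.mem_ofPred_eq]
    rw [Nat.coprime_add_self_left]
  have h := per_hasDensity hR hper
  have h2 := count_coprime R 1
  rw [mul_one, one_mul] at h2
  rwa [h2] at h

/-- **Independence** of periodic sets with coprime periods. -/
lemma inter_density {P Q : ℕ} (hP : 0 < P) (hQ : 0 < Q) (hPQ : Nat.Coprime P Q) {A B : Set ℕ}
    (hA : Per P A) (hB : Per Q B) {a b : ℝ} (ha : HasDensity A a) (hb : HasDensity B b) :
    HasDensity (A ∩ B) (a * b) := by
  classical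
  have hB' : Per (P * Q) B := hB.of_dvd (Dvd.intro_left _ rfl)
  obtain ⟨U, hU⟩ : ∃ U : Set ℕ, U = A ∩ B := ⟨_, rfl⟩
  rw [← hU]
  have hmU : ∀ n, n ∈ U ↔ n ∈ A ∧ n ∈ B := fun n => by rw [hU, Set.mem_inter_iff]
  have hAB : Per (P * Q) U := by
    intro n hn
    rw [hmU, hmU, hA.mul Q n hn, hB' n hn]
  have h := per_hasDensity (Nat.mul_pos hP hQ) hAB
  have key : N U (P * Q) = N A P * N B Q := by
    -- residues are represented in `[1, P]`, `[1, Q]`, `[1, P Q]`
    have hrep : ∀ {R : ℕ} {C : Set ℕ}, 0 < R → Per R C → ∀ n, (n + 1 ∈ C ↔ n % R + 1 ∈ C) := by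
      intro R C hR hC n
      have h1 := hC.mul (n / R) (n % R + 1) (by omega)
      rw [← h1]
      have : n % R + 1 + R * (n / R) = n + 1 := by
        have := Nat.mod_add_div n R
        omega
      rw [this]
    rw [N_eq_count, N_eq_count, N_eq_count, Nat.count_eq_card_filter_range,
      Nat.count_eq_card_filter_range, Nat.count_eq_card_filter_range, ← Finset.card_product]
    refine Finset.card_bij (fun n _ => (n % P, n % Q)) ?_ ?_ ?_
    · intro n hn
      rw [Finset.mem_filter, Finset.mem_range, hmU] at hn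
      rw [Finset.mem_product, Finset.mem_filter, Finset.mem_filter, Finset.mem_range,
        Finset.mem_range]
      exact ⟨⟨Nat.mod_lt _ hP, (hrep hP hA n).1 hn.2.1⟩, ⟨Nat.mod_lt _ hQ, (hrep hQ hB n).1 hn.2.2⟩⟩
    · intro n hn n' hn' hnn
      rw [Finset.mem_filter, Finset.mem_range, hmU] at hn hn'
      rw [Prod.mk.injEq] at hnn
      have h1 : n ≡ n' [MOD P * Q] := (Nat.modEq_and_modEq_iff_modEq_mul hPQ).1 ⟨hnn.1, hnn.2⟩
      rw [Nat.ModEq, Nat.mod_eq_of_lt hn.1, Nat.mod_eq_of_lt hn'.1] at h1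
      exact h1
    · rintro ⟨u, v⟩ huv
      rw [Finset.mem_product, Finset.mem_filter, Finset.mem_filter, Finset.mem_range,
        Finset.mem_range] at huv
      obtain ⟨⟨hu, hu'⟩, ⟨hv, hv'⟩⟩ := huv
      simp only at hu hu' hv hv'
      obtain ⟨c, hc⟩ := Nat.chineseRemainder hPQ u v
      have hcP : (c % (P * Q)) % P = u := by
        rw [Nat.mod_mul_right_mod]
        have := hc.1
        rw [Nat.ModEq, Nat.mod_eq_of_lt hu] at this
        exact this
      have hcQ : (c % (P * Q)) % Q = v := by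
        rw [Nat.mod_mul_left_mod]
        have := hc.2
        rw [Nat.ModEq, Nat.mod_eq_of_lt hv] at this
        exact this
      refine ⟨c % (P * Q), ?_, by rw [hcP, hcQ]⟩
      rw [Finset.mem_filter, Finset.mem_range, hmU]
      refine ⟨Nat.mod_lt _ (Nat.mul_pos hP hQ), (hrep hP hA _).2 ?_, (hrep hQ hB _).2 ?_⟩
      · rw [hcP]
        exact hu'
      · rw [hcQ]
        exact hv'
  rw [key] at h
  have e : ((N A P * N B Q : ℕ) : ℝ) / ((P * Q : ℕ) : ℝ) = a * b := by
    rw [ha.unique (per_hasDensity hP hA), hb.unique (per_hasDensity hQ hB)]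
    push_cast
    have : (P : ℝ) ≠ 0 := by exact_mod_cast hP.ne'
    have : (Q : ℝ) ≠ 0 := by exact_mod_cast hQ.ne'
    field_simp
  rwa [e] at h

lemma N_add_of_disjoint {A B : Set ℕ} (h : Disjoint A B) (x : ℕ) :
    N (A ∪ B) x = N A x + N B x := by
  classical
  obtain ⟨U, hU⟩ : ∃ U : Set ℕ, U = A ∪ B := ⟨_, rfl⟩
  rw [← hU]
  unfold N
  rw [← Finset.card_union_of_disjoint]
  · congr 1
    ext n
    rw [Finset.mem_union, Finset.mem_filter, Finset.mem_filter, Finset.mem_filter]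
    constructor
    · rintro ⟨h1, h2⟩
      rw [hU] at h2
      rcases h2 with h2 | h2
      · exact Or.inl ⟨h1, h2⟩
      · exact Or.inr ⟨h1, h2⟩
    · rintro (⟨h1, h2⟩ | ⟨h1, h2⟩)
      · exact ⟨h1, hU ▸ Or.inl h2⟩
      · exact ⟨h1, hU ▸ Or.inr h2⟩
  · rw [Finset.disjoint_left]
    intro n hn hn2
    rw [Finset.mem_filter] at hn hn2
    exact Set.disjoint_left.1 h hn.2 hn2.2

lemma HasDensity.union {A B : Set ℕ} (h : Disjoint A B) {a b : ℝ} (ha : HasDensity A a)
    (hb : HasDensity B b) : HasDensity (A ∪ B) (a + b) := by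
  refine (Tendsto.add ha hb).congr fun x => ?_
  rw [N_add_of_disjoint h]
  push_cast
  ring

lemma N_union_le (A B : Set ℕ) (x : ℕ) : N (A ∪ B) x ≤ N A x + N B x := by
  classical
  obtain ⟨U, hU⟩ : ∃ U : Set ℕ, U = A ∪ B := ⟨_, rfl⟩
  rw [← hU]
  unfold N
  refine le_trans (Finset.card_le_card ?_) (Finset.card_union_le _ _)
  intro n hn
  rw [Finset.mem_union, Finset.mem_filter, Finset.mem_filter]
  rw [Finset.mem_filter] at hn
  have h2 := hn.2
  rw [hU] at h2
  rcases h2 with h2 | h2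
  · exact Or.inl ⟨hn.1, h2⟩
  · exact Or.inr ⟨hn.1, h2⟩

lemma N_compl (A : Set ℕ) (x : ℕ) : N A x + N Aᶜ x = x := by
  classical
  rw [← N_add_of_disjoint disjoint_compl_right, Set.union_compl_self]
  unfold N
  simp

lemma HasDensity.compl {A : Set ℕ} {a : ℝ} (ha : HasDensity A a) : HasDensity Aᶜ (1 - a) := by
  refine (tendsto_const_nhds.sub ha : Tendsto (fun x : ℕ => 1 - (N A x : ℝ) / x) atTop (𝓝 (1 - a))).congr' ?_
  filter_upwards [eventually_gt_atTop 0] with x hx
  have hx' : (x : ℝ) ≠ 0 := by exact_mod_cast hx.ne'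
  have h := N_compl A x
  have h' : (N A x : ℝ) + N Aᶜ x = x := by exact_mod_cast h
  field_simp
  linarith

end Pool.Agent.Helper54.GP
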