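import Pool.Agent.Helper54.GP.Count

/-!
# Rough squarefree numbers and products with smooth numbers
-/

namespace Pool.Agent.Helper54.GP

open Finset Filter Topology
open Pool.Agent.Helper54.SigmaDens (N N_mono N_le)

/-- `s` has only prime factors `< y`. -/
def Sm (y s : ℕ) : Prop := ∀ p, p.Prime → p ∣ s → p < y

lemma sum_pairs {y : ℕ} (P : Finset (ℕ × ℕ))
    (hP : ∀ p ∈ P, 0 < p.1 ∧ Sm y p.1 ∧ p.2 ∈ Rough y) (g : ℕ → ℝ) :
    ∑ n ∈ P.image (fun p => p.1 * p.2), g n = ∑ p ∈ P, g (p.1 * p.2) := by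
  refine Finset.sum_image ?_
  intro p hp p' hp' h
  have h1 := hP p hp
  have h2 := hP p' hp'
  have h3 := decomp_unique h1.2.1 h2.2.1 h1.2.2.2 h2.2.2.2 h1.2.2.1 h1.1 h
  exact Prod.ext h3.1 h3.2

lemma card_pairs {y : ℕ} (P : Finset (ℕ × ℕ))
    (hP : ∀ p ∈ P, 0 < p.1 ∧ Sm y p.1 ∧ p.2 ∈ Rough y) :
    (P.image (fun p => p.1 * p.2)).card = P.card := by
  refine Finset.card_image_of_injOn ?_
  intro p hp p' hp' h
  have h1 := hP p hp
  have h2 := hP p' hp'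
  have h3 := decomp_unique h1.2.1 h2.2.1 h1.2.2.2 h2.2.2.2 h1.2.2.1 h1.1 h
  exact Prod.ext h3.1 h3.2

lemma N_prodset {y : ℕ} (B : Finset ℕ) (hB : ∀ s ∈ B, 0 < s ∧ Sm y s) (R : Set ℕ)
    (hR : R ⊆ Rough y) (x : ℕ) :
    N {n | ∃ s ∈ B, ∃ m ∈ R, n = s * m} x = ∑ s ∈ B, N R (x / s) := by
  classical
  obtain ⟨U, hU⟩ : ∃ U : Set ℕ, U = {n | ∃ s ∈ B, ∃ m ∈ R, n = s * m} := ⟨_, rfl⟩
  have hmU : ∀ n, n ∈ U ↔ ∃ s ∈ B, ∃ m ∈ R, n = s * m := fun n => by rw [hU]; rfl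
  rw [← hU]
  unfold N
  rw [← Finset.card_sigma]
  symm
  refine Finset.card_bij (fun p _ => p.1 * p.2) ?_ ?_ ?_
  · rintro ⟨s, m⟩ h
    rw [Finset.mem_sigma, Finset.mem_filter, Finset.mem_Icc] at h
    obtain ⟨hs, ⟨hm1, hm2⟩, hm3⟩ := h
    simp only at hs hm1 hm2 hm3
    have hs0 := (hB s hs).1
    rw [Finset.mem_filter, Finset.mem_Icc, hmU]
    refine ⟨⟨Nat.mul_pos hs0 hm1, ?_⟩, s, hs, m, hm3, rfl⟩
    calc s * m ≤ s * (x / s) := Nat.mul_le_mul_left _ hm2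
      _ ≤ x := Nat.mul_div_le x s
  · rintro ⟨s, m⟩ h ⟨s', m'⟩ h' heq
    rw [Finset.mem_sigma, Finset.mem_filter, Finset.mem_Icc] at h h'
    obtain ⟨hs, ⟨hm1, hm2⟩, hm3⟩ := h
    obtain ⟨hs', ⟨hm1', hm2'⟩, hm3'⟩ := h'
    simp only at hs hm1 hm2 hm3 hs' hm1' hm2' hm3' heq
    have h3 := decomp_unique (hB s hs).2 (hB s' hs').2 (hR hm3).2 (hR hm3').2 hm1 (hB s hs).1 heq
    obtain ⟨rfl, rfl⟩ := h3
    rfl
  · intro n hn
    rw [Finset.mem_filter, Finset.mem_Icc, hmU] at hn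
    obtain ⟨⟨hn1, hn2⟩, s, hs, m, hm, rfl⟩ := hn
    have hs0 := (hB s hs).1
    refine ⟨⟨s, m⟩, ?_, rfl⟩
    rw [Finset.mem_sigma, Finset.mem_filter, Finset.mem_Icc]
    refine ⟨hs, ⟨(hR hm).1, ?_⟩, hm⟩
    rw [Nat.le_div_iff_mul_le hs0]
    simp only
    linarith [mul_comm s m]

open Classical in
lemma N_Ioc (A : Set ℕ) {u v : ℕ} (h : u ≤ v) :
    N A v = N A u + ((Ioc u v).filter (· ∈ A)).card := by
  unfold N
  rw [← Finset.card_union_of_disjoint]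
  · congr 1
    ext n
    simp only [Finset.mem_filter, Finset.mem_Icc, Finset.mem_union, Finset.mem_Ioc]
    constructor
    · rintro ⟨⟨h1, h2⟩, h3⟩
      rcases Nat.lt_or_ge u n with h4 | h4
      · exact Or.inr ⟨⟨h4, h2⟩, h3⟩
      · exact Or.inl ⟨⟨h1, h4⟩, h3⟩
    · rintro (⟨⟨h1, h2⟩, h3⟩ | ⟨⟨h1, h2⟩, h3⟩)
      · exact ⟨⟨h1, by omega⟩, h3⟩
      · exact ⟨⟨by omega, by omega⟩, h3⟩
  · rw [Finset.disjoint_left]
    intro n hn hn2
    rw [Finset.mem_filter, Finset.mem_Icc] at hn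
    rw [Finset.mem_filter, Finset.mem_Ioc] at hn2
    omega

/-- The rough squarefree numbers. -/
def RS (y : ℕ) : Set ℕ := {m | 0 < m ∧ Nat.Coprime m (W y) ∧ Squarefree m}

lemma RS_subset (y : ℕ) : RS y ⊆ Rough y := fun _ h => ⟨h.1, h.2.1⟩

lemma sum_inv_sq {y J : ℕ} (hy : 2 ≤ y) : ∑ j ∈ Icc y J, 1 / ((j : ℝ) * j) ≤ 1 / ((y : ℝ) - 1) := by
  rcases le_or_gt y J with h | h
  · have h1 : Icc y J = Ioc (y - 1) J := by
      ext n
      rw [Finset.mem_Icc, Finset.mem_Ioc]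
      omega
    have h2 := sum_Ioc_inv_sq_le_sub (α := ℝ) (k := y - 1) (n := J) (by omega) (by omega)
    rw [h1]
    have h3 : ((y - 1 : ℕ) : ℝ) = (y : ℝ) - 1 := by
      rw [Nat.cast_sub (by omega)]
      simp
    rw [h3] at h2
    have h4 : (0 : ℝ) ≤ (J : ℝ)⁻¹ := by positivity
    calc ∑ j ∈ Ioc (y - 1) J, 1 / ((j : ℝ) * j) = ∑ j ∈ Ioc (y - 1) J, ((j : ℝ) ^ 2)⁻¹ := by
          refine Finset.sum_congr rfl fun j _ => ?_
          rw [one_div, pow_two]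
      _ ≤ 1 / ((y : ℝ) - 1) := by
          rw [one_div]
          linarith
  · rw [Finset.Icc_eq_empty (by omega), Finset.sum_empty]
    have : (2 : ℝ) ≤ y := by exact_mod_cast hy
    have : (0 : ℝ) < (y : ℝ) - 1 := by linarith
    positivity

open Classical in
lemma bad_one {y j u v : ℕ} (hj : 0 < j) (huv : u ≤ v) :
    (((Ioc u v).filter (fun m => m ∈ Rough y ∧ j * j ∣ m)).card : ℝ) ≤
      Phi y * (v - u) * (1 / ((j : ℝ) * j)) + 3 * W y := by
  have hjj : 0 < j * j := Nat.mul_pos hj hj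
  have h1 : ((Ioc u v).filter (fun m => m ∈ Rough y ∧ j * j ∣ m)).card ≤
      ((Ioc (u / (j * j)) (v / (j * j))).filter (· ∈ Rough y)).card := by
    refine Finset.card_le_card_of_injOn (fun m => m / (j * j)) ?_ ?_
    · intro m hm
      rw [Finset.mem_coe, Finset.mem_filter, Finset.mem_Ioc] at hm
      obtain ⟨⟨hm1, hm2⟩, hm3, c, rfl⟩ := hm
      rw [Finset.mem_coe, Finset.mem_filter, Finset.mem_Ioc]
      simp only [Nat.mul_div_cancel_left _ hjj]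
      refine ⟨⟨?_, ?_⟩, ?_, ?_⟩
      · rw [Nat.div_lt_iff_lt_mul hjj]
        linarith [mul_comm (j * j) c]
      · rw [Nat.le_div_iff_mul_le hjj]
        linarith [mul_comm (j * j) c]
      · exact Nat.pos_of_mul_pos_left hm3.1
      · exact Nat.Coprime.coprime_mul_left hm3.2
    · intro a ha b hb hab
      rw [Finset.mem_coe, Finset.mem_filter] at ha hb
      obtain ⟨_, _, c, rfl⟩ := ha
      obtain ⟨_, _, d, rfl⟩ := hb
      simp only [Nat.mul_div_cancel_left _ hjj] at hab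
      rw [hab]
  have huv' : u / (j * j) ≤ v / (j * j) := Nat.div_le_div_right huv
  have h2 := N_Ioc (Rough y) huv'
  have h3 := rough_count y (u / (j * j))
  have h4 := rough_count y (v / (j * j))
  rw [abs_le] at h3 h4
  have h5 : ((v / (j * j) : ℕ) : ℝ) ≤ v / ((j : ℝ) * j) := by
    have := @Nat.cast_div_le ℝ _ _ _ v (j * j)
    push_cast at this
    exact this
  have h6 : (u : ℝ) / ((j : ℝ) * j) - 1 ≤ ((u / (j * j) : ℕ) : ℝ) := by
    have := Nat.lt_floor_add_one ((u : ℝ) / ((j * j : ℕ) : ℝ))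
    rw [Nat.floor_div_natCast, Nat.floor_natCast] at this
    push_cast at this
    linarith
  have hP := Phi_pos y
  have hP1 := Phi_le_one y
  have hW : (1 : ℝ) ≤ W y := by exact_mod_cast W_pos y
  have h2' : (N (Rough y) (v / (j * j)) : ℝ) = N (Rough y) (u / (j * j)) +
      ((Ioc (u / (j * j)) (v / (j * j))).filter (· ∈ Rough y)).card := by exact_mod_cast h2
  have h1' : (((Ioc u v).filter (fun m => m ∈ Rough y ∧ j * j ∣ m)).card : ℝ) ≤
      (((Ioc (u / (j * j)) (v / (j * j))).filter (· ∈ Rough y)).card : ℝ) := by exact_mod_cast h1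
  have h7 : Phi y * ((v / (j * j) : ℕ) : ℝ) ≤ Phi y * (v / ((j : ℝ) * j)) :=
    mul_le_mul_of_nonneg_left h5 hP.le
  have h8 : Phi y * ((u : ℝ) / ((j : ℝ) * j) - 1) ≤ Phi y * ((u / (j * j) : ℕ) : ℝ) :=
    mul_le_mul_of_nonneg_left h6 hP.le
  have h9 : Phi y * (v - u) * (1 / ((j : ℝ) * j)) =
      Phi y * (v / ((j : ℝ) * j)) - Phi y * ((u : ℝ) / ((j : ℝ) * j)) := by ring
  rw [h9]
  linarith

open Classical in
lemma bad_interval {y u v : ℕ} (hy : 2 ≤ y) (huv : u ≤ v) :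
    (((Ioc u v).filter (fun m => m ∈ Rough y ∧ ¬ Squarefree m)).card : ℝ) ≤
      Phi y * (v - u) * (1 / ((y : ℝ) - 1)) + 3 * W y * Nat.sqrt v := by
  have hsub : (Ioc u v).filter (fun m => m ∈ Rough y ∧ ¬ Squarefree m) ⊆
      (Icc y (Nat.sqrt v)).biUnion
        (fun j => (Ioc u v).filter (fun m => m ∈ Rough y ∧ j * j ∣ m)) := by
    intro m hm
    rw [Finset.mem_filter, Finset.mem_Ioc] at hm
    obtain ⟨⟨h1, h2⟩, h3, h4⟩ := hm
    rw [Nat.squarefree_iff_prime_squarefree] at h4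
    push Not at h4
    obtain ⟨p, hp, hpm⟩ := h4
    rw [Finset.mem_biUnion]
    refine ⟨p, ?_, ?_⟩
    · rw [Finset.mem_Icc]
      refine ⟨coprime_W_iff.1 h3.2 p hp ((Dvd.intro _ rfl).trans hpm), ?_⟩
      rw [Nat.le_sqrt]
      exact (Nat.le_of_dvd h3.1 hpm).trans h2
    · rw [Finset.mem_filter, Finset.mem_Ioc]
      exact ⟨⟨h1, h2⟩, h3, hpm⟩
  have h1 : (((Ioc u v).filter (fun m => m ∈ Rough y ∧ ¬ Squarefree m)).card : ℝ) ≤
      ∑ j ∈ Icc y (Nat.sqrt v),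
        (((Ioc u v).filter (fun m => m ∈ Rough y ∧ j * j ∣ m)).card : ℝ) := by
    have := (Finset.card_le_card hsub).trans Finset.card_biUnion_le
    exact_mod_cast this
  refine h1.trans ?_
  have h2 : ∑ j ∈ Icc y (Nat.sqrt v),
        (((Ioc u v).filter (fun m => m ∈ Rough y ∧ j * j ∣ m)).card : ℝ) ≤
      ∑ j ∈ Icc y (Nat.sqrt v), (Phi y * (v - u) * (1 / ((j : ℝ) * j)) + 3 * W y) := by
    refine Finset.sum_le_sum fun j hj => ?_
    rw [Finset.mem_Icc] at hj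
    exact bad_one (by omega) huv
  refine h2.trans ?_
  rw [Finset.sum_add_distrib, ← Finset.mul_sum, Finset.sum_const, nsmul_eq_mul, Nat.card_Icc]
  have hP := Phi_pos y
  have hvu : (0 : ℝ) ≤ (v : ℝ) - u := by
    have : (u : ℝ) ≤ v := by exact_mod_cast huv
    linarith
  have h3 := mul_le_mul_of_nonneg_left (sum_inv_sq (y := y) (J := Nat.sqrt v) hy)
    (mul_nonneg hP.le hvu)
  have h4 : ((Nat.sqrt v + 1 - y : ℕ) : ℝ) ≤ Nat.sqrt v := by
    exact_mod_cast (by omega : Nat.sqrt v + 1 - y ≤ Nat.sqrt v)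
  have hW : (0 : ℝ) < W y := by exact_mod_cast W_pos y
  nlinarith

open Classical in
lemma RS_interval {y u v : ℕ} (hy : 2 ≤ y) (huv : u ≤ v) :
    Phi y * (1 - 1 / ((y : ℝ) - 1)) * (v - u) - 5 * W y * (Nat.sqrt v + 1) ≤
      (N (RS y) v : ℝ) - N (RS y) u := by
  have h1 := N_Ioc (RS y) huv
  have h2 := N_Ioc (Rough y) huv
  have h3 : ((Ioc u v).filter (· ∈ Rough y)).card ≤ ((Ioc u v).filter (· ∈ RS y)).card +
      ((Ioc u v).filter (fun m => m ∈ Rough y ∧ ¬ Squarefree m)).card := by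
    refine le_trans (Finset.card_le_card ?_) (Finset.card_union_le _ _)
    intro m hm
    rw [Finset.mem_filter] at hm
    rw [Finset.mem_union, Finset.mem_filter, Finset.mem_filter]
    by_cases h : Squarefree m
    · exact Or.inl ⟨hm.1, hm.2.1, hm.2.2, h⟩
    · exact Or.inr ⟨hm.1, hm.2, h⟩
  have h4 := bad_interval hy huv
  have h5 := rough_count y u
  have h6 := rough_count y v
  rw [abs_le] at h5 h6
  have h1' : (N (RS y) v : ℝ) = N (RS y) u + ((Ioc u v).filter (· ∈ RS y)).card := by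
    exact_mod_cast h1
  have h2' : (N (Rough y) v : ℝ) = N (Rough y) u + ((Ioc u v).filter (· ∈ Rough y)).card := by
    exact_mod_cast h2
  have h3' : (((Ioc u v).filter (· ∈ Rough y)).card : ℝ) ≤ ((Ioc u v).filter (· ∈ RS y)).card +
      ((Ioc u v).filter (fun m => m ∈ Rough y ∧ ¬ Squarefree m)).card := by exact_mod_cast h3
  have hW : (1 : ℝ) ≤ W y := by exact_mod_cast W_pos y
  have hs : (0 : ℝ) ≤ Nat.sqrt v := Nat.cast_nonneg _
  have h7 : Phi y * (1 - 1 / ((y : ℝ) - 1)) * (v - u) =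
    Phi y * (v - u) - Phi y * (v - u) * (1 / ((y : ℝ) - 1)) := by ring
  rw [h7, h1']
  nlinarith

lemma RS_lower {y : ℕ} (hy : 2 ≤ y) (v : ℕ) :
    Phi y * (1 - 1 / ((y : ℝ) - 1)) * v - 5 * W y * (Nat.sqrt v + 1) ≤ N (RS y) v := by
  have := RS_interval hy (Nat.zero_le v)
  rw [N_zero] at this
  simpa using this

end Pool.Agent.Helper54.GP
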