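import Pool.Agent.Helper54.SigmaDens.Main

/-!
# Sets without `k`-term geometric progressions: definitions
-/

namespace Pool.Agent.Helper54.GP

open Finset Filter Topology
open Pool.Agent.Helper54.SigmaDens (N)

/-- `A` is a set of positive integers which contains no `k`-term geometric progression
`a, a q, …, a q ^ (k - 1)` with a positive integer `a` and a rational ratio `q > 1`. -/
def Free (k : ℕ) (A : Set ℕ) : Prop :=
  (∀ n ∈ A, 0 < n) ∧
    ∀ (a : ℕ) (q : ℚ), 0 < a → 1 < q → ¬ ∀ i < k, ∃ n ∈ A, (n : ℚ) = a * q ^ i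

/-- `A` has asymptotic density `d`; `N A x` is the number of elements of `A` in `[1, x]`. -/
def HasDensity (A : Set ℕ) (d : ℝ) : Prop :=
  Tendsto (fun x : ℕ => (N A x : ℝ) / x) atTop (𝓝 d)

/-- The upper asymptotic density. -/
noncomputable def upperDensity (A : Set ℕ) : ℝ := limsup (fun x : ℕ => (N A x : ℝ) / x) atTop

/-- `α_k`: the supremum of the upper asymptotic densities of `k`-GP-free sets. -/
noncomputable def alpha (k : ℕ) : ℝ := sSup {d | ∃ A, Free k A ∧ d = upperDensity A}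

/-- `β_k`: the supremum of the asymptotic densities of the `k`-GP-free sets that have one. -/
noncomputable def beta (k : ℕ) : ℝ := sSup {d | ∃ A, Free k A ∧ HasDensity A d}

/-- `Φ y = ∏_{p < y} (1 - 1/p)`. -/
noncomputable def Phi (y : ℕ) : ℝ := ∏ p ∈ Nat.primesBelow y, (1 - 1 / (p : ℝ))

open Classical in
/-- The positive integers `s ≤ T` all of whose prime factors are `< y`. -/
noncomputable def S (y T : ℕ) : Finset ℕ := (Icc 1 T).filter (· ∈ Nat.smoothNumbers y)

/-- The maximum of `∑_{b ∈ B} 1/b` over the `k`-GP-free subsets `B` of `S y T`. -/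
noncomputable def M (k y T : ℕ) : ℝ :=
  sSup {w | ∃ B ⊆ S y T, Free k (B : Set ℕ) ∧ w = ∑ b ∈ B, 1 / (b : ℝ)}

/-- The maximum cardinality of a `k`-GP-free subset of `S y t`. -/
noncomputable def f (k y t : ℕ) : ℕ :=
  sSup {c | ∃ B ⊆ S y t, Free k (B : Set ℕ) ∧ c = B.card}

/-- The squarefree part of the argument: the product of the primes below `y`. -/
noncomputable def W (y : ℕ) : ℕ := ∏ p ∈ Nat.primesBelow y, p

/-- The `y`-rough numbers. -/
def Rough (y : ℕ) : Set ℕ := {m | 0 < m ∧ Nat.Coprime m (W y)}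

/-! ### Basic facts -/

lemma W_pos (y : ℕ) : 0 < W y :=
  Finset.prod_pos fun p hp => (Nat.prime_of_mem_primesBelow hp).pos

lemma prime_dvd_W {y p : ℕ} (hp : p.Prime) : p ∣ W y ↔ p < y := by
  rw [W, Prime.dvd_finset_prod_iff hp.prime]
  constructor
  · rintro ⟨q, hq, hpq⟩
    rw [(Nat.prime_dvd_prime_iff_eq hp (Nat.prime_of_mem_primesBelow hq)).1 hpq]
    exact Nat.lt_of_mem_primesBelow hq
  · intro h
    exact ⟨p, Nat.mem_primesBelow.2 ⟨h, hp⟩, dvd_rfl⟩

lemma coprime_W_iff {y m : ℕ} : Nat.Coprime m (W y) ↔ ∀ p, p.Prime → p ∣ m → y ≤ p := by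
  constructor
  · intro h p hp hpm
    by_contra hlt
    push Not at hlt
    have := Nat.dvd_gcd hpm ((prime_dvd_W hp).2 hlt)
    rw [Nat.Coprime] at h
    rw [h] at this
    exact hp.one_lt.ne' (Nat.dvd_one.1 this)
  · intro h
    refine Nat.coprime_of_dvd ?_
    intro p hp hpm hpW
    exact absurd (h p hp hpm) (not_le.2 ((prime_dvd_W hp).1 hpW))

lemma primeFactors_W (y : ℕ) : (W y).primeFactors = Nat.primesBelow y :=
  Nat.primeFactors_prod fun p hp => Nat.prime_of_mem_primesBelow hp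

lemma Phi_eq (y : ℕ) : Phi y = (Nat.totient (W y) : ℝ) / W y := by
  have h := Nat.totient_eq_mul_prod_factors (W y)
  have h2 : (Nat.totient (W y) : ℝ) = W y * ∏ p ∈ (W y).primeFactors, (1 - (p : ℝ)⁻¹) := by
    have := congrArg (fun z : ℚ => (z : ℝ)) h
    push_cast at this
    exact this
  rw [h2, primeFactors_W, Phi]
  have : (W y : ℝ) ≠ 0 := by exact_mod_cast (W_pos y).ne'
  field_simp

lemma Phi_pos (y : ℕ) : 0 < Phi y := by
  rw [Phi]
  refine Finset.prod_pos fun p hp => ?_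
  have hp2 : (2 : ℝ) ≤ p := by exact_mod_cast (Nat.prime_of_mem_primesBelow hp).two_le
  rw [sub_pos, div_lt_one (by linarith)]
  linarith

lemma Phi_le_one (y : ℕ) : Phi y ≤ 1 := by
  rw [Phi]
  refine Finset.prod_le_one (fun p hp => ?_) fun p hp => ?_
  · have hp2 : (2 : ℝ) ≤ p := by exact_mod_cast (Nat.prime_of_mem_primesBelow hp).two_le
    rw [sub_nonneg, div_le_one (by linarith)]
    linarith
  · have : (0 : ℝ) ≤ 1 / p := by positivity
    linarith

lemma mem_S {y T s : ℕ} : s ∈ S y T ↔ (1 ≤ s ∧ s ≤ T) ∧ ∀ p, p.Prime → p ∣ s → p < y := by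
  classical
  rw [S, Finset.mem_filter, Finset.mem_Icc, Nat.mem_smoothNumbers']

lemma S_mono {y T T' : ℕ} (h : T ≤ T') : S y T ⊆ S y T' := by
  intro s hs
  rw [mem_S] at hs ⊢
  exact ⟨⟨hs.1.1, hs.1.2.trans h⟩, hs.2⟩

lemma S_card_le (y T : ℕ) : (S y T).card ≤ T := by
  classical
  rw [S]
  exact (Finset.card_filter_le _ _).trans (by simp)

/-- A smooth number is coprime to a rough number. -/
lemma coprime_of {y s m : ℕ} (hs : ∀ p, p.Prime → p ∣ s → p < y) (hm : Nat.Coprime m (W y)) :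
    Nat.Coprime s m := by
  refine Nat.coprime_of_dvd ?_
  intro p hp h1 h2
  exact absurd (coprime_W_iff.1 hm p hp h2) (not_le.2 (hs p hp h1))

/-- Uniqueness of the decomposition into a smooth and a rough factor. -/
lemma decomp_unique {y s s' m m' : ℕ} (hs : ∀ p, p.Prime → p ∣ s → p < y)
    (hs' : ∀ p, p.Prime → p ∣ s' → p < y) (hm : Nat.Coprime m (W y)) (hm' : Nat.Coprime m' (W y))
    (hm0 : 0 < m) (hs0 : 0 < s) (h : s * m = s' * m') : s = s' ∧ m = m' := by
  have h1 : s ∣ s' := (coprime_of hs hm').dvd_of_dvd_mul_right (h ▸ Dvd.intro _ rfl)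
  have h2 : s' ∣ s := (coprime_of hs' hm).dvd_of_dvd_mul_right (h ▸ Dvd.intro _ rfl)
  have h3 : s = s' := Nat.dvd_antisymm h1 h2
  refine ⟨h3, ?_⟩
  subst h3
  exact Nat.eq_of_mul_eq_mul_left hs0 h

/-- Existence of the decomposition. -/
lemma decomp_exists (y n : ℕ) (hn : 0 < n) :
    ∃ s m, n = s * m ∧ 0 < s ∧ 0 < m ∧ (∀ p, p.Prime → p ∣ s → p < y) ∧ Nat.Coprime m (W y) := by
  induction n using Nat.strong_induction_on with
  | _ n ih =>
    by_cases h : ∃ p, p.Prime ∧ p ∣ n ∧ p < y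
    · obtain ⟨p, hp, ⟨c, rfl⟩, hpy⟩ := h
      have hc : 0 < c := Nat.pos_of_mul_pos_left hn
      obtain ⟨s, m, h1, h2, h3, h4, h5⟩ := ih c
        (by nlinarith [hp.two_le]) hc
      refine ⟨p * s, m, by rw [h1]; ring, Nat.mul_pos hp.pos h2, h3, ?_, h5⟩
      intro r hr hrs
      rcases (Nat.Prime.dvd_mul hr).1 hrs with h | h
      · rw [(Nat.prime_dvd_prime_iff_eq hr hp).1 h]
        exact hpy
      · exact h4 r hr h
    · push Not at h
      refine ⟨1, n, by ring, one_pos, hn, ?_, ?_⟩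
      · intro p hp h1
        exact absurd (Nat.dvd_one.1 h1) hp.one_lt.ne'
      · exact coprime_W_iff.2 fun p hp hpn => h p hp hpn

end Pool.Agent.Helper54.GP
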