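import Pool.Agent.Helper54.GP.Main

/-!
# `β_k` is the limit of the normalized extremal reciprocal sums
-/

namespace Pool.Agent.Helper54.GP

open Finset Filter Topology
open Pool.Agent.Helper54.SigmaDens (N N_mono N_le)

/-- The maximum of `∑_{b ∈ B} 1/b` over the `k`-GP-free subsets `B` of `{1, …, x}`. -/
noncomputable def L (k x : ℕ) : ℝ :=
  sSup {w | ∃ B ⊆ Icc 1 x, Free k (B : Set ℕ) ∧ w = ∑ b ∈ B, 1 / (b : ℝ)}

lemma L_set_finite (k x : ℕ) :
    {w : ℝ | ∃ B ⊆ Icc 1 x, Free k (B : Set ℕ) ∧ w = ∑ b ∈ B, 1 / (b : ℝ)}.Finite := by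
  classical
  refine ((Icc 1 x).powerset.finite_toSet.image
    fun B : Finset ℕ => ∑ b ∈ B, 1 / (b : ℝ)).subset ?_
  rintro w ⟨B, hB, _, rfl⟩
  exact ⟨B, by rw [Finset.mem_coe, Finset.mem_powerset]; exact hB, rfl⟩

lemma le_L {k x : ℕ} {B : Finset ℕ} (hB : B ⊆ Icc 1 x) (hf : Free k (B : Set ℕ)) :
    ∑ b ∈ B, 1 / (b : ℝ) ≤ L k x :=
  le_csSup (L_set_finite k x).bddAbove ⟨B, hB, hf, rfl⟩

lemma exists_L {k : ℕ} (hk : 0 < k) (x : ℕ) :
    ∃ B ⊆ Icc 1 x, Free k (B : Set ℕ) ∧ L k x = ∑ b ∈ B, 1 / (b : ℝ) := by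
  have hne : {w : ℝ | ∃ B ⊆ Icc 1 x, Free k (B : Set ℕ) ∧ w = ∑ b ∈ B, 1 / (b : ℝ)}.Nonempty :=
    ⟨_, ∅, by simp, by simpa using free_empty k hk, rfl⟩
  exact hne.csSup_mem (L_set_finite k x)

/-- The logarithmic upper bound, with a constant which does not depend on the set. -/
lemma log_upper_unif {k T : ℕ} (y : ℕ) (hk : 0 < k) (hT : 1 ≤ T) :
    ∃ C : ℝ, ∀ A : Set ℕ, Free k A → ∀ x : ℕ, 1 ≤ x →
      LS A x ≤ (1 - Phi y * (∑ s ∈ S y T, 1 / (s : ℝ) - M k y T)) * Real.log x + C := by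
  obtain ⟨E, hE⟩ : ∃ E, E = ∑ s ∈ S y T, 1 / (s : ℝ) - M k y T := ⟨_, rfl⟩
  have hE0 : 0 ≤ E := by rw [hE]; linarith [M_le hk y T]
  rw [← hE]
  refine ⟨1 + E * (Phi y * (Real.log T + 1) + W y), fun A hA x hx => ?_⟩
  have h1 := LS_add_compl A x
  have h2 := logsum_compl (y := y) hT hA x
  rw [← hE] at h2
  have h3 := LS_rough_ge y (x / T)
  have h4 : Real.log x - Real.log T ≤ Real.log (((x / T : ℕ) : ℝ) + 1) := by
    have hx' : (0 : ℝ) < x := by exact_mod_cast hx
    have hT' : (0 : ℝ) < T := by exact_mod_cast hT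
    rw [← Real.log_div hx'.ne' hT'.ne']
    refine Real.log_le_log (by positivity) ?_
    have := (Nat.lt_floor_add_one ((x : ℝ) / (T : ℝ))).le
    rwa [Nat.floor_div_natCast, Nat.floor_natCast] at this
  have h5 : (harmonic x : ℝ) ≤ 1 + Real.log x := harmonic_le_one_add_log x
  have hP := Phi_pos y
  have h6 : Phi y * (Real.log x - Real.log T - 1) - W y ≤ LS (Rough y) (x / T) := by
    have := mul_le_mul_of_nonneg_left h4 hP.le
    linarith
  have h7 := mul_le_mul_of_nonneg_left h6 hE0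
  nlinarith

lemma tendsto_log_nat : Tendsto (fun x : ℕ => Real.log x) atTop atTop :=
  Real.tendsto_log_atTop.comp tendsto_natCast_atTop_atTop

/-- `β_k = lim L_k(x) / log x`. -/
theorem tendsto_L {k : ℕ} (hk : 3 ≤ k) :
    Tendsto (fun x : ℕ => L k x / Real.log x) atTop (𝓝 (beta k)) := by
  classical
  refine tendsto_order.2 ⟨fun a ha => ?_, fun b hb => ?_⟩
  · -- the lower bound
    obtain ⟨A, hA, hd⟩ := exists_beta_set hk (beta_spec hk)
    have hLS : ∀ x, LS A x ≤ L k x := by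
      intro x
      refine le_L (Finset.filter_subset _ _) (hA.mono ?_)
      intro n hn
      rw [Finset.coe_filter] at hn
      exact hn.2
    rcases lt_or_ge a 0 with h0 | h0
    · filter_upwards [tendsto_log_nat.eventually_gt_atTop 0] with x hx
      refine lt_of_lt_of_le h0 (div_nonneg (le_trans ?_ (hLS x)) hx.le)
      rw [LS]
      positivity
    · obtain ⟨μ, hμ⟩ : ∃ μ, μ = (a + beta k) / 2 := ⟨_, rfl⟩
      have h1 : ∀ᶠ x : ℕ in atTop, μ ≤ (N A x : ℝ) / x := by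
        have h2 : Tendsto (fun x : ℕ => (N A x : ℝ) / x) atTop (𝓝 (beta k)) := hd
        filter_upwards [h2.eventually_const_lt (show μ < beta k by linarith)] with x hx
        exact hx.le
      obtain ⟨C, hC⟩ := LS_ge (A := A) (show 0 ≤ μ by linarith) h1
      filter_upwards [hC, tendsto_log_nat.eventually_gt_atTop 0,
        tendsto_log_nat.eventually_gt_atTop (C / (μ - a))] with x h2 h3 h4
      rw [lt_div_iff₀ h3]
      rw [div_lt_iff₀ (by linarith)] at h4
      have := hLS x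
      nlinarith
  · -- the upper bound
    obtain ⟨y, T, _, hy, hT, h1, _⟩ := width (k := k) (by omega) 0
      (show 0 < (b - beta k) / 2 by linarith)
    have h2 := (beta_spec hk y T hy hT).1
    obtain ⟨C, hC⟩ := log_upper_unif (T := T) y (by omega : 0 < k) hT
    obtain ⟨u, hu⟩ : ∃ u, u = 1 - Phi y * (∑ s ∈ S y T, 1 / (s : ℝ) - M k y T) := ⟨_, rfl⟩
    have hub : u ≤ (b + beta k) / 2 := by
      have : u = bUp k y T := by rw [hu, bUp]
      linarith
    rw [← hu] at hC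
    filter_upwards [tendsto_log_nat.eventually_gt_atTop 0,
      tendsto_log_nat.eventually_gt_atTop (C / ((b - beta k) / 2)),
      eventually_ge_atTop 1] with x h3 h4 h5
    obtain ⟨B, hB, hBf, hBL⟩ := exists_L (k := k) (by omega) x
    have h6 := hC B hBf x h5
    have h7 : LS (B : Set ℕ) x = L k x := by
      rw [hBL, LS]
      refine Finset.sum_congr ?_ fun _ _ => rfl
      ext n
      simp only [Finset.mem_filter, Finset.mem_coe]
      exact ⟨fun h => h.2, fun h => ⟨hB h, h⟩⟩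
    rw [h7] at h6
    rw [div_lt_iff₀ h3]
    rw [div_lt_iff₀ (by linarith)] at h4
    nlinarith

end Pool.Agent.Helper54.GP
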