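import Pool.Agent.Helper54.GP.Defs

/-!
# Constructions of sets without `k`-term geometric progressions
-/

namespace Pool.Agent.Helper54.GP

open Finset Filter Topology
open Pool.Agent.Helper54.SigmaDens (N)

lemma Free.mono {k : ℕ} {A B : Set ℕ} (h : Free k B) (hAB : A ⊆ B) : Free k A := by
  refine ⟨fun n hn => h.1 n (hAB hn), fun a q ha hq hall => h.2 a q ha hq fun i hi => ?_⟩
  obtain ⟨n, hn, h1⟩ := hall i hi
  exact ⟨n, hAB hn, h1⟩

lemma free_empty (k : ℕ) (hk : 0 < k) : Free k (∅ : Set ℕ) := by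
  refine ⟨fun n hn => absurd hn (Set.notMem_empty n), fun a q _ _ hall => ?_⟩
  obtain ⟨n, hn, _⟩ := hall 0 hk
  exact absurd hn (Set.notMem_empty n)

/-- Sections of a free set are free. -/
lemma Free.section {k : ℕ} {A : Set ℕ} (h : Free k A) {m : ℕ} (hm : 0 < m) :
    Free k {s | s * m ∈ A} := by
  refine ⟨fun n hn => Nat.pos_of_mul_pos_right (h.1 _ hn), fun a q ha hq hall => ?_⟩
  refine h.2 (a * m) q (Nat.mul_pos ha hm) hq fun i hi => ?_
  obtain ⟨n, hn, h1⟩ := hall i hi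
  refine ⟨n * m, hn, ?_⟩
  push_cast
  rw [h1]
  ring

/-- The terms of a geometric progression as a sequence. -/
lemma gp_terms {k : ℕ} {A : Set ℕ} {a : ℕ} {q : ℚ} (hall : ∀ i < k, ∃ n ∈ A, (n : ℚ) = a * q ^ i) :
    ∃ n : ℕ → ℕ, (∀ i < k, n i ∈ A ∧ (n i : ℚ) = a * q ^ i) ∧
      ∀ i, i + 2 < k → n i * n (i + 2) = n (i + 1) * n (i + 1) := by
  classical
  choose! n hn using hall
  refine ⟨n, hn, fun i hi => ?_⟩
  have h1 := (hn i (by omega)).2
  have h2 := (hn (i + 1) (by omega)).2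
  have h3 := (hn (i + 2) (by omega)).2
  have : ((n i * n (i + 2) : ℕ) : ℚ) = ((n (i + 1) * n (i + 1) : ℕ) : ℚ) := by
    push_cast
    rw [h1, h2, h3]
    ring
  exact_mod_cast this

/-- Three squarefree numbers in geometric progression are equal. -/
lemma sqfree_gp {a b c : ℕ} (ha : Squarefree a) (hb : Squarefree b) (hc : Squarefree c)
    (h : a * c = b * b) : a = b ∧ c = b := by
  have hb0 : 0 < b := Nat.pos_of_ne_zero hb.ne_zero
  have h1 : a ∣ b := by
    have : a ∣ b ^ 2 := by rw [pow_two, ← h]; exact Dvd.intro _ rfl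
    exact (ha.dvd_pow_iff_dvd (by norm_num)).1 this
  have h2 : c ∣ b := by
    have : c ∣ b ^ 2 := by rw [pow_two, ← h]; exact Dvd.intro_left _ rfl
    exact (hc.dvd_pow_iff_dvd (by norm_num)).1 this
  have h3 := Nat.le_of_dvd hb0 h1
  have h4 := Nat.le_of_dvd hb0 h2
  constructor
  · nlinarith [Nat.pos_of_ne_zero ha.ne_zero, Nat.pos_of_ne_zero hc.ne_zero]
  · nlinarith [Nat.pos_of_ne_zero ha.ne_zero, Nat.pos_of_ne_zero hc.ne_zero]

/-- All numbers `s m` with `m` rough and squarefree and `s` in a free set `Bf m` of smooth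
numbers. -/
def lift (y : ℕ) (Bf : ℕ → Set ℕ) : Set ℕ :=
  {n | ∃ s m, n = s * m ∧ 0 < m ∧ Nat.Coprime m (W y) ∧ Squarefree m ∧ s ∈ Bf m}

lemma lift_free {k y : ℕ} (hk : 3 ≤ k) {Bf : ℕ → Set ℕ} (hB : ∀ m, Free k (Bf m))
    (hsm : ∀ m, ∀ s ∈ Bf m, ∀ p, p.Prime → p ∣ s → p < y) : Free k (lift y Bf) := by
  constructor
  · rintro n ⟨s, m, rfl, hm, _, _, hs⟩
    exact Nat.mul_pos ((hB m).1 s hs) hm
  · intro a q ha hq hall
    obtain ⟨n, hn, hgp⟩ := gp_terms hall
    have hex : ∀ i < k, ∃ s m, n i = s * m ∧ 0 < m ∧ Nat.Coprime m (W y) ∧ Squarefree m ∧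
        s ∈ Bf m := fun i hi => (hn i hi).1
    choose! s m hsm' using hex
    have htrip : ∀ i, i + 2 < k → m i = m (i + 1) ∧ m (i + 2) = m (i + 1) := by
      intro i hi
      obtain ⟨a1, a2, a3, a4, a5⟩ := hsm' i (by omega)
      obtain ⟨b1, b2, b3, b4, b5⟩ := hsm' (i + 1) (by omega)
      obtain ⟨c1, c2, c3, c4, c5⟩ := hsm' (i + 2) (by omega)
      have h1 := hgp i hi
      rw [a1, b1, c1] at h1
      have h2 : s i * s (i + 2) * (m i * m (i + 2)) =
          s (i + 1) * s (i + 1) * (m (i + 1) * m (i + 1)) := by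
        linarith
      have hdvd : ∀ u v : ℕ, (∀ p, p.Prime → p ∣ u → p < y) → (∀ p, p.Prime → p ∣ v → p < y) →
          (∀ p, p.Prime → p ∣ u * v → p < y) := by
        intro u v hu hv p hp h
        rcases (Nat.Prime.dvd_mul hp).1 h with h | h
        · exact hu p hp h
        · exact hv p hp h
      have h3 := decomp_unique (y := y)
        (hdvd _ _ (hsm _ _ a5) (hsm _ _ c5)) (hdvd _ _ (hsm _ _ b5) (hsm _ _ b5))
        (Nat.Coprime.mul_left a3 c3) (Nat.Coprime.mul_left b3 b3)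
        (Nat.mul_pos a2 c2) (Nat.mul_pos ((hB _).1 _ a5) ((hB _).1 _ c5)) h2
      exact sqfree_gp a4 b4 c4 h3.2
    have hconst : ∀ i < k, m i = m 0 := by
      intro i
      induction i using Nat.strong_induction_on with
      | _ i ih =>
        intro hi
        match i, hi with
        | 0, _ => rfl
        | 1, _ => exact (htrip 0 (by omega)).1.symm
        | i + 2, hi =>
          rw [(htrip i hi).2]
          exact ih (i + 1) (by omega) (by omega)
    have hm0 : 0 < m 0 := (hsm' 0 (by omega)).2.1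
    have hm0' : (m 0 : ℚ) ≠ 0 := by exact_mod_cast hm0.ne'
    have hs0 := (hsm' 0 (by omega)).2.2.2.2
    refine (hB (m 0)).2 (s 0) q ((hB _).1 _ hs0) hq fun i hi => ?_
    refine ⟨s i, ?_, ?_⟩
    · have := (hsm' i hi).2.2.2.2
      rwa [hconst i hi] at this
    · have h1 := (hn i hi).2
      have h2 := (hn 0 (by omega)).2
      rw [(hsm' i hi).1, hconst i hi] at h1
      rw [(hsm' 0 (by omega)).1] at h2
      push_cast at h1 h2
      rw [pow_zero, mul_one] at h2
      rw [← h2] at h1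
      refine mul_right_cancel₀ hm0' ?_
      rw [h1]
      ring

end Pool.Agent.Helper54.GP
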