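import Pool.Agent.Helper54.GP.Width

/-!
# No set is optimal at all levels
-/

namespace Pool.Agent.Helper54.GP

open Finset Filter Topology
open Pool.Agent.Helper54.SigmaDens (N N_mono N_le)

/-- Geometric progressions of length `k` below `4 ^ (k - 1)`. -/
lemma gp_class {k t : ℕ} (hk : 3 ≤ k) (ht : t < 4 ^ (k - 1)) {A : Set ℕ} (hA : ∀ n ∈ A, 0 < n ∧ n ≤ t)
    (h2 : ∀ w, 0 < w → ¬ ∀ i < k, w * 2 ^ i ∈ A) (h3 : ∀ w, 0 < w → ¬ ∀ i < k, w * 3 ^ i ∈ A)
    (h32 : ∀ w, 0 < w → ¬ ∀ i < k, w * (2 ^ (k - 1 - i) * 3 ^ i) ∈ A) : Free k A := by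
  refine ⟨fun n hn => (hA n hn).1, fun a q ha hq hall => ?_⟩
  obtain ⟨n, hn, -⟩ := gp_terms hall
  obtain ⟨u, hu⟩ : ∃ u, u = q.num.natAbs := ⟨_, rfl⟩
  obtain ⟨v, hv⟩ : ∃ v, v = q.den := ⟨_, rfl⟩
  have hqpos : 0 < q := by linarith
  have hnum : (q.num : ℚ) = u := by
    rw [hu]
    have : 0 < q.num := Rat.num_pos.2 hqpos
    have h := Int.natAbs_of_nonneg this.le
    calc (q.num : ℚ) = ((q.num.natAbs : ℤ) : ℚ) := by rw [h]
      _ = ((q.num.natAbs : ℕ) : ℚ) := Int.cast_natCast _
  have hv0 : 0 < v := hv ▸ q.den_pos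
  have hquv : q = (u : ℚ) / v := by
    rw [← hnum, hv]
    exact (Rat.num_div_den q).symm
  have hcop : Nat.Coprime u v := by
    rw [hu, hv]
    exact q.reduced
  have hv0' : (0 : ℚ) < v := by exact_mod_cast hv0
  have huv : v < u := by
    rw [hquv, lt_div_iff₀ hv0', one_mul] at hq
    exact_mod_cast hq
  -- `v ^ (k - 1)` divides `a`
  obtain ⟨m, hm⟩ : ∃ m, k = m + 1 := ⟨k - 1, by omega⟩
  have h0 := (hn 0 (by omega)).2
  have hlast := (hn m (by omega)).2
  rw [pow_zero, mul_one] at h0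
  have h0' : n 0 = a := by exact_mod_cast h0
  have hmul : n m * v ^ m = a * u ^ m := by
    have : ((n m * v ^ m : ℕ) : ℚ) = ((a * u ^ m : ℕ) : ℚ) := by
      push_cast
      rw [hlast, hquv, div_pow]
      field_simp
    exact_mod_cast this
  have hdvd : v ^ m ∣ a := by
    have h1 : v ^ m ∣ a * u ^ m := hmul ▸ Dvd.intro_left _ rfl
    exact (Nat.Coprime.pow m m hcop.symm).dvd_of_dvd_mul_right h1
  obtain ⟨w, hw⟩ := hdvd
  have hw0 : 0 < w := by
    rcases Nat.eq_zero_or_pos w with h | h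
    · rw [h, mul_zero] at hw
      omega
    · exact h
  have hterm : ∀ i < k, n i = w * (v ^ (k - 1 - i) * u ^ i) := by
    intro i hi
    have h1 := (hn i hi).2
    have h4 : (n i : ℚ) = ((w * (v ^ (k - 1 - i) * u ^ i) : ℕ) : ℚ) := by
      rw [h1, hw, hquv]
      push_cast
      have h5 : (v : ℚ) ^ m = v ^ (k - 1 - i) * v ^ i := by
        rw [← pow_add]
        congr 1
        omega
      rw [h5, div_pow]
      field_simp
    exact_mod_cast h4
  have hu4 : u < 4 := by
    by_contra hcon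
    push Not at hcon
    have h1 := hterm m (by omega)
    rw [show k - 1 - m = 0 by omega, pow_zero, one_mul] at h1
    have h4 : 4 ^ m ≤ u ^ m := Nat.pow_le_pow_left hcon m
    have h5 : u ^ m ≤ n m := by
      rw [h1]
      exact Nat.le_mul_of_pos_left _ hw0
    have h6 := (hA _ (hn m (by omega)).1).2
    rw [show k - 1 = m by omega] at ht
    omega
  have hcases : (u = 2 ∧ v = 1) ∨ (u = 3 ∧ v = 1) ∨ (u = 3 ∧ v = 2) := by omega
  rcases hcases with ⟨rfl, rfl⟩ | ⟨rfl, rfl⟩ | ⟨rfl, rfl⟩
  · refine h2 w hw0 fun i hi => ?_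
    have h1 := hterm i hi
    rw [one_pow, one_mul] at h1
    rw [← h1]
    exact (hn i hi).1
  · refine h3 w hw0 fun i hi => ?_
    have h1 := hterm i hi
    rw [one_pow, one_mul] at h1
    rw [← h1]
    exact (hn i hi).1
  · refine h32 w hw0 fun i hi => ?_
    have h1 := hterm i hi
    rw [← h1]
    exact (hn i hi).1

/-- Odd numbers `b` with `b 2 ^ (k - 1) ≤ t`. -/
def O (k t : ℕ) : Finset ℕ := (Icc 1 t).filter (fun b => Odd b ∧ b * 2 ^ (k - 1) ≤ t)

lemma mem_O {k t b : ℕ} : b ∈ O k t ↔ Odd b ∧ b * 2 ^ (k - 1) ≤ t := by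
  rw [O, Finset.mem_filter, Finset.mem_Icc]
  constructor
  · rintro ⟨_, h⟩
    exact h
  · rintro ⟨h1, h2⟩
    refine ⟨⟨h1.pos, ?_⟩, h1, h2⟩
    exact (Nat.le_mul_of_pos_right _ (by positivity)).trans h2

lemma odd_unique {b b' i i' : ℕ} (hb : Odd b) (hb' : Odd b') (h : b * 2 ^ i = b' * 2 ^ i') :
    b = b' ∧ i = i' := by
  have h1 : Nat.Coprime b (2 ^ i') := (Nat.coprime_two_right.2 hb).pow_right _
  have h2 : Nat.Coprime b' (2 ^ i) := (Nat.coprime_two_right.2 hb').pow_right _
  have h3 : b ∣ b' := h1.dvd_of_dvd_mul_right (h ▸ Dvd.intro _ rfl)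
  have h4 : b' ∣ b := h2.dvd_of_dvd_mul_right (h ▸ Dvd.intro _ rfl)
  have h5 : b = b' := Nat.dvd_antisymm h3 h4
  subst h5
  exact ⟨rfl, Nat.pow_right_injective le_rfl (Nat.eq_of_mul_eq_mul_left hb.pos h)⟩

/-- The counting lemma: disjoint chains `b, 2 b, …, 2 ^ (k - 1) b` must all be hit. -/
lemma chain_count {k t : ℕ} (hk : 1 ≤ k) {B : Finset ℕ} (hB : Free k (B : Set ℕ)) {E : Finset ℕ}
    (hE : ∀ e ∈ E, 0 < e ∧ e ≤ t ∧ e ∉ B ∧ ∃ g s, Odd g ∧ e = g * 2 ^ s ∧ t < g * 2 ^ (k - 1)) :
    (O k t).card + E.card + (B.filter (· ≤ t)).card ≤ t := by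
  classical
  have hhit : ∀ b ∈ O k t, ∃ i < k, b * 2 ^ i ∉ B := by
    intro b hb
    rw [mem_O] at hb
    by_contra hcon
    push Not at hcon
    refine hB.2 b 2 hb.1.pos (by norm_num) fun i hi => ⟨b * 2 ^ i, hcon i hi, by push_cast; ring⟩
  choose! i hi1 hi2 using hhit
  obtain ⟨I, hI⟩ : ∃ I, I = (O k t).image (fun b => b * 2 ^ i b) := ⟨_, rfl⟩
  have hIcard : I.card = (O k t).card := by
    rw [hI]
    refine Finset.card_image_of_injOn fun b hb b' hb' h => ?_
    exact (odd_unique (mem_O.1 hb).1 (mem_O.1 hb').1 h).1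
  have hIE : Disjoint I E := by
    rw [Finset.disjoint_left]
    intro n hn hnE
    rw [hI, Finset.mem_image] at hn
    obtain ⟨b, hb, rfl⟩ := hn
    obtain ⟨_, _, _, g, s, hg, h1, h2⟩ := hE _ hnE
    have h3 := (odd_unique (mem_O.1 hb).1 hg h1).1
    rw [← h3] at h2
    exact absurd (mem_O.1 hb).2 (not_le.2 h2)
  have hIEB : Disjoint (I ∪ E) (B.filter (· ≤ t)) := by
    rw [Finset.disjoint_left]
    intro n hn hnB
    rw [Finset.mem_filter] at hnB
    rw [Finset.mem_union] at hn
    rcases hn with hn | hn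
    · rw [hI, Finset.mem_image] at hn
      obtain ⟨b, hb, rfl⟩ := hn
      exact hi2 b hb hnB.1
    · exact (hE n hn).2.2.1 hnB.1
  have hsub : (I ∪ E) ∪ B.filter (· ≤ t) ⊆ Icc 1 t := by
    intro n hn
    rw [Finset.mem_union, Finset.mem_union] at hn
    rw [Finset.mem_Icc]
    rcases hn with (hn | hn) | hn
    · rw [hI, Finset.mem_image] at hn
      obtain ⟨b, hb, rfl⟩ := hn
      have hb' := mem_O.1 hb
      refine ⟨Nat.mul_pos hb'.1.pos (by positivity), ?_⟩
      refine le_trans (Nat.mul_le_mul_left _ (Nat.pow_le_pow_right (by norm_num) ?_)) hb'.2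
      have := hi1 b hb
      omega
    · exact ⟨(hE n hn).1, (hE n hn).2.1⟩
    · rw [Finset.mem_filter] at hn
      exact ⟨hB.1 n hn.1, hn.2⟩
  have h1 := Finset.card_le_card hsub
  rw [Finset.card_union_of_disjoint hIEB, Finset.card_union_of_disjoint hIE, hIcard,
    Nat.card_Icc] at h1
  omega

/-- A lower bound for `f` from a hitting set. -/
lemma f_ge {k y t : ℕ} (ht : t < y) {H : Finset ℕ}
    (hH : Free k {n | 1 ≤ n ∧ n ≤ t ∧ n ∉ H}) : t ≤ f k y t + H.card := by
  classical
  have h1 : (Icc 1 t) \ H ⊆ S y t := by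
    intro n hn
    rw [Finset.mem_sdiff, Finset.mem_Icc] at hn
    rw [mem_S]
    refine ⟨hn.1, fun p hp hpn => ?_⟩
    have := Nat.le_of_dvd hn.1.1 hpn
    omega
  have h2 : Free k (((Icc 1 t) \ H : Finset ℕ) : Set ℕ) := by
    refine hH.mono ?_
    intro n hn
    rw [Finset.mem_coe, Finset.mem_sdiff, Finset.mem_Icc] at hn
    exact ⟨hn.1.1, hn.1.2, hn.2⟩
  have h3 := le_f h1 h2
  have h4 := Finset.le_card_sdiff H (Icc 1 t)
  rw [Nat.card_Icc] at h4
  omega

/-- The 2-part of the start of a chain is small. -/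
lemma two_part {w : ℕ} (hw : 0 < w) : ∃ g e, Odd g ∧ w = g * 2 ^ e := by
  obtain ⟨e, g, hg, h⟩ := Nat.exists_eq_two_pow_mul_odd hw.ne'
  exact ⟨g, e, hg, by rw [h]; ring⟩

lemma three_pow_lt {k : ℕ} (hk : 4 ≤ k) : 2 * 3 ^ (k - 1) < 4 ^ (k - 1) := by
  obtain ⟨m, rfl⟩ : ∃ m, k = m + 4 := ⟨k - 4, by omega⟩
  rw [show m + 4 - 1 = m + 3 by omega]
  induction m with
  | zero => norm_num
  | succ m ih =>
    have := ih (by omega)
    have e1 : 3 ^ (m + 1 + 3) = 3 * 3 ^ (m + 3) := by ring
    have e2 : 4 ^ (m + 1 + 3) = 4 * 4 ^ (m + 3) := by ring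
    rw [e1, e2]
    omega

lemma odd_three_pow (i : ℕ) : Odd (3 ^ i) := Odd.pow (by decide)

/-- The level where the greedy set is not optimal, `k ≥ 4`. -/
lemma greedy_fails_four {k : ℕ} (hk : 4 ≤ k) {y : ℕ} (hy : 2 * 3 ^ (k - 1) < y) {B : Finset ℕ}
    (hB : Free k (B : Set ℕ)) :
    ∃ t ∈ Icc 1 (2 * 3 ^ (k - 1)), (B.filter (· ≤ t)).card < f k y t := by
  classical
  by_contra hcon
  push Not at hcon
  have hopt : ∀ t, 1 ≤ t → t ≤ 2 * 3 ^ (k - 1) → f k y t ≤ (B.filter (· ≤ t)).card :=
    fun t h1 h2 => hcon t (Finset.mem_Icc.2 ⟨h1, h2⟩)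
  have h4 := three_pow_lt hk
  obtain ⟨c, hc⟩ : ∃ c, c = 3 ^ (k - 1) := ⟨_, rfl⟩
  obtain ⟨a, ha⟩ : ∃ a, a = 2 ^ (k - 1) := ⟨_, rfl⟩
  have hc0 : 0 < c := hc ▸ by positivity
  have ha4 : 8 ≤ a := by
    rw [ha]
    calc 8 = 2 ^ 3 := by norm_num
      _ ≤ 2 ^ (k - 1) := Nat.pow_le_pow_right (by norm_num) (by omega)
  -- the hitting set of `b 2 ^ (k - 1)`
  have hfree1 : ∀ n, n < c → Free k {m | 1 ≤ m ∧ m ≤ n ∧ m ∉ (O k n).image (fun b => b * a)} := by
    intro n hn
    have hnc : n < 3 ^ (k - 1) := hc ▸ hn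
    refine gp_class (t := n) (by omega) (by omega) (fun m hm => ⟨hm.1, hm.2.1⟩) ?_ ?_ ?_
    · intro w hw hall
      obtain ⟨g, e, hg, rfl⟩ := two_part hw
      have hlast := (hall (k - 1) (by omega)).2.1
      have he : e < k - 1 := by
        have h5 : 2 ^ e * 2 ^ (k - 1) < 2 ^ (k - 1) * 2 ^ (k - 1) := by
          calc 2 ^ e * 2 ^ (k - 1) ≤ g * 2 ^ e * 2 ^ (k - 1) :=
                Nat.mul_le_mul_right _ (Nat.le_mul_of_pos_left _ hg.pos)
            _ ≤ n := hlast
            _ < 4 ^ (k - 1) := by omega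
            _ = 2 ^ (k - 1) * 2 ^ (k - 1) := by
              rw [← mul_pow]
              norm_num
        have h6 := Nat.lt_of_mul_lt_mul_right h5
        exact (Nat.pow_lt_pow_iff_right (by norm_num)).1 h6
      have h5 := hall (k - 1 - e) (by omega)
      have h6 : g * 2 ^ e * 2 ^ (k - 1 - e) = g * a := by
        rw [ha, mul_assoc, ← pow_add]
        congr 2
        omega
      rw [h6] at h5
      refine h5.2.2 ?_
      rw [Finset.mem_image]
      exact ⟨g, mem_O.2 ⟨hg, by rw [← ha]; exact h5.2.1⟩, rfl⟩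
    · intro w hw hall
      have hlast := (hall (k - 1) (by omega)).2.1
      have : 3 ^ (k - 1) ≤ w * 3 ^ (k - 1) := Nat.le_mul_of_pos_left _ hw
      omega
    · intro w hw hall
      have hlast := (hall (k - 1) (by omega)).2.1
      rw [Nat.sub_self, pow_zero, one_mul] at hlast
      have : 3 ^ (k - 1) ≤ w * 3 ^ (k - 1) := Nat.le_mul_of_pos_left _ hw
      omega
  have hcardO : ∀ n, ((O k n).image (fun b => b * a)).card ≤ (O k n).card := fun n =>
    Finset.card_image_le
  -- elements below `c` with odd part large belong to `B`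
  have hin : ∀ n g s, 1 ≤ n → n < c → Odd g → n = g * 2 ^ s → n < g * a → n ∈ B := by
    intro n g s hn1 hnc hg hns hlt
    by_contra hnB
    have h1 := f_ge (k := k) (y := y) (t := n) (by omega) (hfree1 n hnc)
    have h2 := hopt n hn1 (by omega)
    have h3 := chain_count (k := k) (t := n) (by omega) hB (E := {n}) (fun e he => by
      rw [Finset.mem_singleton] at he
      subst he
      exact ⟨hn1, le_rfl, hnB, g, s, hg, hns, by rw [← ha]; exact hlt⟩)
    have h5 := hcardO n
    rw [Finset.card_singleton] at h3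
    omega
  have hin3 : ∀ i, i < k - 1 → 3 ^ i ∈ B := by
    intro i hi
    refine hin (3 ^ i) (3 ^ i) 0 (Nat.pos_of_ne_zero (by positivity)) ?_ (odd_three_pow i) (by simp) ?_
    · exact hc ▸ Nat.pow_lt_pow_right (by norm_num) hi
    · have : 0 < 3 ^ i := by positivity
      nlinarith
  have hin23 : ∀ i, i < k - 1 → 2 * 3 ^ i ∈ B := by
    intro i hi
    have h0 : 0 < 3 ^ i := by positivity
    refine hin (2 * 3 ^ i) (3 ^ i) 1 (by omega) ?_ (odd_three_pow i) (by ring) ?_
    · calc 2 * 3 ^ i < 3 ^ (i + 1) := by rw [pow_succ]; omega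
        _ ≤ 3 ^ (k - 1) := Nat.pow_le_pow_right (by norm_num) (by omega)
        _ = c := hc.symm
    · nlinarith
  have hcB : c ∉ B := by
    intro hcB
    refine hB.2 1 3 one_pos (by norm_num) fun i hi => ⟨3 ^ i, ?_, by push_cast; ring⟩
    rcases Nat.lt_or_ge i (k - 1) with h | h
    · exact hin3 i h
    · rw [show i = k - 1 by omega, ← hc]
      exact hcB
  have h2cB : 2 * c ∉ B := by
    intro hcB
    refine hB.2 2 3 two_pos (by norm_num) fun i hi => ⟨2 * 3 ^ i, ?_, by push_cast; ring⟩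
    rcases Nat.lt_or_ge i (k - 1) with h | h
    · exact hin23 i h
    · rw [show i = k - 1 by omega, ← hc]
      exact hcB
  have hodd : Odd c := hc ▸ odd_three_pow _
  -- the exponent `x`
  have hex : ∃ m, 2 ^ k ≤ 3 ^ m := ⟨k, Nat.pow_le_pow_left (by norm_num) k⟩
  obtain ⟨m, hm⟩ : ∃ m, m = Nat.find hex := ⟨_, rfl⟩
  have hm1 : 2 ^ k ≤ 3 ^ m := hm ▸ Nat.find_spec hex
  have hm0 : 0 < m := by
    rcases Nat.eq_zero_or_pos m with h | h
    · rw [h, pow_zero] at hm1
      have : 1 < 2 ^ k := Nat.one_lt_two_pow (by omega)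
      omega
    · exact h
  obtain ⟨x, rfl⟩ : ∃ x, m = x + 1 := ⟨m - 1, by omega⟩
  have hx1 : 3 ^ x < 2 ^ k := by
    have := Nat.find_min hex (m := x) (by omega)
    omega
  have h2k : 2 ^ k = 2 * a := by
    rw [ha, ← pow_succ']
    congr 1
    omega
  have hx2 : a < 2 * 3 ^ x := by
    rw [pow_succ] at hm1
    omega
  have hpow : ∀ r, 3 ≤ r → 2 ^ r ≤ 3 ^ (r - 1) := by
    intro r hr
    induction r, hr using Nat.le_induction with
    | base => norm_num
    | succ r hr ih =>
      rw [pow_succ, show r + 1 - 1 = (r - 1) + 1 by omega, pow_succ]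
      omega
  have hxk : x < k - 1 := by
    by_contra hcon2
    push Not at hcon2
    have h5 : 3 ^ (k - 1) ≤ 3 ^ x := Nat.pow_le_pow_right (by norm_num) hcon2
    have h6 := hpow k (by omega)
    omega
  obtain ⟨j, hj⟩ : ∃ j, j = k - 1 - x := ⟨_, rfl⟩
  have hj1 : 1 ≤ j := by omega
  have hjk : j < k := by omega
  have hcj : c = 3 ^ j * 3 ^ x := by
    rw [hc, ← pow_add]
    congr 1
    omega
  have hj0 : 0 < 3 ^ j := by positivity
  have hne1 : (1 : ℕ) ≠ 3 ^ j := by
    have : 3 ^ 1 ≤ 3 ^ j := Nat.pow_le_pow_right (by norm_num) hj1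
    omega
  have hac : a ≤ c := by
    rw [ha, hc]
    exact Nat.pow_le_pow_left (by norm_num) _
  have he_small : ∀ g e t : ℕ, t < 4 ^ (k - 1) → 0 < g → g * 2 ^ e * 2 ^ (k - 1) ≤ t → e < k - 1 := by
    intro g e t ht hg hlast
    have h5 : 2 ^ e * 2 ^ (k - 1) < 2 ^ (k - 1) * 2 ^ (k - 1) := by
      calc 2 ^ e * 2 ^ (k - 1) ≤ g * 2 ^ e * 2 ^ (k - 1) :=
            Nat.mul_le_mul_right _ (Nat.le_mul_of_pos_left _ hg)
        _ ≤ t := hlast
        _ < 4 ^ (k - 1) := ht
        _ = 2 ^ (k - 1) * 2 ^ (k - 1) := by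
          rw [← mul_pow]
          norm_num
    have h6 := Nat.lt_of_mul_lt_mul_right h5
    exact (Nat.pow_lt_pow_iff_right (by norm_num)).1 h6
  have hterm : ∀ g e, e < k - 1 → g * 2 ^ e * 2 ^ (k - 1 - e) = g * a := by
    intro g e he
    rw [ha, mul_assoc, ← pow_add]
    congr 2
    omega
  rcases Nat.lt_or_ge (3 ^ x) a with hcase | hcase
  · -- case 2: level `2 c`
    have hj2 : 2 ≤ j := by
      by_contra hcon2
      have hxe : x = k - 1 - 1 := by omega
      have h6 := hpow (k - 1) (by omega)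
      rw [← hxe, ← ha] at h6
      omega
    have hmem3 : 3 ^ j ∈ O k (2 * c) := by
      rw [mem_O, ← ha]
      refine ⟨odd_three_pow j, ?_⟩
      rw [hcj]
      nlinarith
    obtain ⟨H, hH⟩ : ∃ H, H = ((O k (2 * c)).erase (3 ^ j)).image (fun b => b * a) ∪ {2 * 3 ^ j, c} :=
      ⟨_, rfl⟩
    have hHcard : H.card ≤ (O k (2 * c)).card + 1 := by
      rw [hH]
      refine (Finset.card_union_le _ _).trans ?_
      have h5 : (((O k (2 * c)).erase (3 ^ j)).image (fun b => b * a)).card ≤
          (O k (2 * c)).card - 1 := by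
        refine Finset.card_image_le.trans ?_
        rw [Finset.card_erase_of_mem hmem3]
      have h6 : ({2 * 3 ^ j, c} : Finset ℕ).card ≤ 2 := Finset.card_le_two
      have h7 : 0 < (O k (2 * c)).card := Finset.card_pos.2 ⟨_, hmem3⟩
      omega
    have hmH1 : ∀ g, Odd g → g ≠ 3 ^ j → g * a ≤ 2 * c → g * a ∈ H := by
      intro g hg hne hle
      rw [hH, Finset.mem_union, Finset.mem_image]
      left
      exact ⟨g, Finset.mem_erase.2 ⟨hne, mem_O.2 ⟨hg, by rw [← ha]; exact hle⟩⟩, rfl⟩
    have hmH2 : 2 * 3 ^ j ∈ H := by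
      rw [hH]
      simp
    have hmH3 : c ∈ H := by
      rw [hH]
      simp
    have hfree : Free k {n | 1 ≤ n ∧ n ≤ 2 * c ∧ n ∉ H} := by
      refine gp_class (t := 2 * c) (by omega) (by omega) (fun m hm => ⟨hm.1, hm.2.1⟩) ?_ ?_ ?_
      · intro w hw hall
        obtain ⟨g, e, hg, rfl⟩ := two_part hw
        have hlast := (hall (k - 1) (by omega)).2.1
        have he := he_small g e (2 * c) (by omega) hg.pos hlast
        by_cases hgj : g = 3 ^ j
        · have he0 : e = 0 := by
            rw [hgj, hcj, mul_assoc, ← ha] at hlast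
            have h5 : 2 ^ e * a ≤ 2 * 3 ^ x := by
              have : 3 ^ j * (2 ^ e * a) ≤ 3 ^ j * (2 * 3 ^ x) := by linarith
              exact Nat.le_of_mul_le_mul_left this hj0
            by_contra he0
            have h6 : 2 ≤ 2 ^ e := by
              calc 2 = 2 ^ 1 := by norm_num
                _ ≤ 2 ^ e := Nat.pow_le_pow_right (by norm_num) (by omega)
            nlinarith
          have h5 := hall 1 (by omega)
          rw [he0, hgj, pow_zero, mul_one, pow_one] at h5
          refine h5.2.2 ?_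
          rw [mul_comm]
          exact hmH2
        · have h5 := hall (k - 1 - e) (by omega)
          rw [hterm g e he] at h5
          exact h5.2.2 (hmH1 g hg hgj h5.2.1)
      · intro w hw hall
        have hlast := (hall (k - 1) (by omega)).2.1
        rw [← hc] at hlast
        have hw2 : w ≤ 2 := by
          by_contra hcon2
          push Not at hcon2
          have : 3 * c ≤ w * c := Nat.mul_le_mul_right _ hcon2
          omega
        have hw' : w = 1 ∨ w = 2 := by omega
        rcases hw' with rfl | rfl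
        · have h5 := hall (k - 1) (by omega)
          rw [← hc, one_mul] at h5
          exact h5.2.2 hmH3
        · exact (hall j hjk).2.2 hmH2
      · intro w hw hall
        have hlast := (hall (k - 1) (by omega)).2.1
        rw [Nat.sub_self, pow_zero, one_mul, ← hc] at hlast
        have hw2 : w ≤ 2 := by
          by_contra hcon2
          push Not at hcon2
          have : 3 * c ≤ w * c := Nat.mul_le_mul_right _ hcon2
          omega
        have hw' : w = 1 ∨ w = 2 := by omega
        rcases hw' with rfl | rfl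
        · have h5 := hall (k - 1) (by omega)
          rw [Nat.sub_self, pow_zero, one_mul, one_mul, ← hc] at h5
          exact h5.2.2 hmH3
        · have h5 := hall 1 (by omega)
          have h6 : 2 * (2 ^ (k - 1 - 1) * 3 ^ 1) = 3 * a := by
            rw [ha]
            have : 2 ^ (k - 1) = 2 * 2 ^ (k - 1 - 1) := by
              rw [← pow_succ']
              congr 1
              omega
            rw [this]
            ring
          rw [h6] at h5
          refine h5.2.2 (hmH1 3 (by decide) ?_ h5.2.1)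
          have : 3 ^ 2 ≤ 3 ^ j := Nat.pow_le_pow_right (by norm_num) hj2
          omega
    have h1 := f_ge (k := k) (y := y) (t := 2 * c) (by omega) hfree
    have h2 := hopt (2 * c) (by omega) (by omega)
    have h3 := chain_count (k := k) (t := 2 * c) (by omega) hB (E := {c, 2 * c}) (fun e he => by
      rw [Finset.mem_insert, Finset.mem_singleton] at he
      rcases he with rfl | rfl
      · exact ⟨hc0, by omega, hcB, e, 0, hodd, by simp, by rw [← ha]; nlinarith⟩
      · exact ⟨by omega, le_rfl, h2cB, c, 1, hodd, by ring, by rw [← ha]; nlinarith⟩)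
    have h5 : ({c, 2 * c} : Finset ℕ).card = 2 := Finset.card_pair (by omega)
    rw [h5] at h3
    omega
  · -- case 1: level `c`
    have hmem3 : 3 ^ j ∈ O k c := by
      rw [mem_O, ← ha]
      refine ⟨odd_three_pow j, ?_⟩
      rw [hcj]
      exact Nat.mul_le_mul_left _ hcase
    obtain ⟨H, hH⟩ : ∃ H, H = ((O k c).erase (3 ^ j)).image (fun b => b * a) ∪ {3 ^ j} :=
      ⟨_, rfl⟩
    have hHcard : H.card ≤ (O k c).card := by
      rw [hH]
      refine (Finset.card_union_le _ _).trans ?_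
      have h5 : (((O k c).erase (3 ^ j)).image (fun b => b * a)).card ≤
          (O k c).card - 1 := by
        refine Finset.card_image_le.trans ?_
        rw [Finset.card_erase_of_mem hmem3]
      have h7 : 0 < (O k c).card := Finset.card_pos.2 ⟨_, hmem3⟩
      rw [Finset.card_singleton]
      omega
    have hmH1 : ∀ g, Odd g → g ≠ 3 ^ j → g * a ≤ c → g * a ∈ H := by
      intro g hg hne hle
      rw [hH, Finset.mem_union, Finset.mem_image]
      left
      exact ⟨g, Finset.mem_erase.2 ⟨hne, mem_O.2 ⟨hg, by rw [← ha]; exact hle⟩⟩, rfl⟩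
    have hmH2 : 3 ^ j ∈ H := by
      rw [hH]
      simp
    have hfree : Free k {n | 1 ≤ n ∧ n ≤ c ∧ n ∉ H} := by
      refine gp_class (t := c) (by omega) (by omega) (fun m hm => ⟨hm.1, hm.2.1⟩) ?_ ?_ ?_
      · intro w hw hall
        obtain ⟨g, e, hg, rfl⟩ := two_part hw
        have hlast := (hall (k - 1) (by omega)).2.1
        have he := he_small g e c (by omega) hg.pos hlast
        by_cases hgj : g = 3 ^ j
        · have he0 : e = 0 := by
            rw [hgj, hcj, mul_assoc, ← ha] at hlast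
            have h5 : 2 ^ e * a ≤ 3 ^ x := Nat.le_of_mul_le_mul_left hlast hj0
            by_contra he0
            have h6 : 2 ≤ 2 ^ e := by
              calc 2 = 2 ^ 1 := by norm_num
                _ ≤ 2 ^ e := Nat.pow_le_pow_right (by norm_num) (by omega)
            nlinarith
          have h5 := hall 0 (by omega)
          rw [he0, hgj, pow_zero, mul_one, mul_one] at h5
          exact h5.2.2 hmH2
        · have h5 := hall (k - 1 - e) (by omega)
          rw [hterm g e he] at h5
          exact h5.2.2 (hmH1 g hg hgj h5.2.1)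
      · intro w hw hall
        have hlast := (hall (k - 1) (by omega)).2.1
        rw [← hc] at hlast
        have hw' : w = 1 := by
          by_contra hcon2
          have : 2 * c ≤ w * c := Nat.mul_le_mul_right _ (by omega)
          omega
        subst hw'
        have h5 := hall j hjk
        rw [one_mul] at h5
        exact h5.2.2 hmH2
      · intro w hw hall
        have hlast := (hall (k - 1) (by omega)).2.1
        rw [Nat.sub_self, pow_zero, one_mul, ← hc] at hlast
        have hw' : w = 1 := by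
          by_contra hcon2
          have : 2 * c ≤ w * c := Nat.mul_le_mul_right _ (by omega)
          omega
        subst hw'
        have h5 := hall 0 (by omega)
        rw [Nat.sub_zero, pow_zero, mul_one, ← ha] at h5
        exact h5.2.2 (hmH1 1 (by decide) hne1 h5.2.1)
    have h1 := f_ge (k := k) (y := y) (t := c) (by omega) hfree
    have h2 := hopt c (by omega) (by omega)
    have h3 := chain_count (k := k) (t := c) (by omega) hB (E := {c}) (fun e he => by
      rw [Finset.mem_singleton] at he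
      subst he
      exact ⟨hc0, le_rfl, hcB, e, 0, hodd, by simp, by rw [← ha]; nlinarith⟩)
    rw [Finset.card_singleton] at h3
    omega

/-- The level `12` for `k = 3`. -/
lemma greedy_fails_three {y : ℕ} (hy : 12 < y) {B : Finset ℕ} (hB : Free 3 (B : Set ℕ)) :
    ∃ t ∈ Icc 1 12, (B.filter (· ≤ t)).card < f 3 y t := by
  classical
  by_contra hcon
  push Not at hcon
  have h3 : 3 ≤ f 3 y 3 + (∅ : Finset ℕ).card := by
    refine f_ge (by omega) ?_
    refine gp_class (t := 3) (by norm_num) (by norm_num) (fun m hm => ⟨hm.1, hm.2.1⟩) ?_ ?_ ?_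
    · intro w hw hall
      have := (hall 2 (by norm_num)).2.1
      omega
    · intro w hw hall
      have := (hall 2 (by norm_num)).2.1
      omega
    · intro w hw hall
      have := (hall 2 (by norm_num)).2.1
      omega
  have h12 : 12 ≤ f 3 y 12 + ({3, 4} : Finset ℕ).card := by
    refine f_ge (by omega) ?_
    refine gp_class (t := 12) (by norm_num) (by norm_num) (fun m hm => ⟨hm.1, hm.2.1⟩) ?_ ?_ ?_
    · intro w hw hall
      have h1 := (hall 2 (by norm_num)).2.1
      have h2 : w = 1 ∨ w = 2 ∨ w = 3 := by omega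
      rcases h2 with rfl | rfl | rfl
      · exact (hall 2 (by norm_num)).2.2 (by simp)
      · exact (hall 1 (by norm_num)).2.2 (by simp)
      · exact (hall 0 (by norm_num)).2.2 (by simp)
    · intro w hw hall
      have h1 := (hall 2 (by norm_num)).2.1
      have h2 : w = 1 := by omega
      subst h2
      exact (hall 1 (by norm_num)).2.2 (by simp)
    · intro w hw hall
      have h1 := (hall 2 (by norm_num)).2.1
      have h2 : w = 1 := by omega
      subst h2
      exact (hall 0 (by norm_num)).2.2 (by simp)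
  have e34 : ({3, 4} : Finset ℕ).card = 2 := by decide
  have g3 := hcon 3 (by simp)
  have g12 := hcon 12 (by simp)
  rw [Finset.card_empty] at h3
  have hsub3 : B.filter (· ≤ 3) ⊆ {1, 2, 3} := by
    intro n hn
    rw [Finset.mem_filter] at hn
    have := hB.1 n hn.1
    simp only [Finset.mem_insert, Finset.mem_singleton]
    omega
  have heq3 : B.filter (· ≤ 3) = {1, 2, 3} := by
    refine Finset.eq_of_subset_of_card_le hsub3 ?_
    have : ({1, 2, 3} : Finset ℕ).card = 3 := by decide
    omega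
  have hm : ∀ n ∈ ({1, 2, 3} : Finset ℕ), n ∈ B := by
    intro n hn
    rw [← heq3] at hn
    exact (Finset.mem_filter.1 hn).1
  have m1 := hm 1 (by simp)
  have m2 := hm 2 (by simp)
  have m3 := hm 3 (by simp)
  have n4 : 4 ∉ B := by
    intro h
    refine hB.2 1 2 one_pos (by norm_num) fun i hi => ?_
    have : i = 0 ∨ i = 1 ∨ i = 2 := by omega
    rcases this with rfl | rfl | rfl
    · exact ⟨1, m1, by norm_num⟩
    · exact ⟨2, m2, by norm_num⟩
    · exact ⟨4, h, by norm_num⟩
  have n9 : 9 ∉ B := by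
    intro h
    refine hB.2 1 3 one_pos (by norm_num) fun i hi => ?_
    have : i = 0 ∨ i = 1 ∨ i = 2 := by omega
    rcases this with rfl | rfl | rfl
    · exact ⟨1, m1, by norm_num⟩
    · exact ⟨3, m3, by norm_num⟩
    · exact ⟨9, h, by norm_num⟩
  have n612 : ¬ (6 ∈ B ∧ 12 ∈ B) := by
    rintro ⟨h, h'⟩
    refine hB.2 3 2 (by norm_num) (by norm_num) fun i hi => ?_
    have : i = 0 ∨ i = 1 ∨ i = 2 := by omega
    rcases this with rfl | rfl | rfl
    · exact ⟨3, m3, by norm_num⟩
    · exact ⟨6, h, by norm_num⟩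
    · exact ⟨12, h', by norm_num⟩
  -- three missing elements
  have hmiss : ∃ e, e ∉ B ∧ (e = 6 ∨ e = 12) := by
    by_cases h : 6 ∈ B
    · exact ⟨12, fun h' => n612 ⟨h, h'⟩, Or.inr rfl⟩
    · exact ⟨6, h, Or.inl rfl⟩
  obtain ⟨e, he, he'⟩ := hmiss
  have hsub12 : B.filter (· ≤ 12) ⊆ (((Icc 1 12).erase 4).erase 9).erase e := by
    intro n hn
    rw [Finset.mem_filter] at hn
    rw [Finset.mem_erase, Finset.mem_erase, Finset.mem_erase, Finset.mem_Icc]
    refine ⟨?_, ?_, ?_, hB.1 n hn.1, hn.2⟩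
    · rintro rfl
      exact he hn.1
    · rintro rfl
      exact n9 hn.1
    · rintro rfl
      exact n4 hn.1
  have hcard := Finset.card_le_card hsub12
  have hc9 : ((((Icc 1 12).erase 4).erase 9).erase e).card = 9 := by
    rcases he' with rfl | rfl <;> decide
  omega

lemma greedy_fails {k : ℕ} (hk : 3 ≤ k) : ∃ T0, 1 ≤ T0 ∧ ∀ y, T0 < y → ∀ B : Finset ℕ,
    Free k (B : Set ℕ) → ∃ t ∈ Icc 1 T0, (B.filter (· ≤ t)).card < f k y t := by
  rcases Nat.lt_or_ge k 4 with h | h
  · obtain rfl : k = 3 := by omega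
    exact ⟨12, by norm_num, fun y hy B hB => greedy_fails_three hy hB⟩
  · refine ⟨2 * 3 ^ (k - 1), ?_, fun y hy B hB => greedy_fails_four h hy hB⟩
    have : 0 < 3 ^ (k - 1) := by positivity
    omega

end Pool.Agent.Helper54.GP
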