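import Pool.Agent.Helper54.GP.Upper2

/-!
# Lower bounds: explicit free sets
-/

namespace Pool.Agent.Helper54.GP

open Finset Filter Topology
open Pool.Agent.Helper54.SigmaDens (N N_mono N_le)

lemma cast_div_ge (x s : ℕ) : (x : ℝ) / s - 1 ≤ ((x / s : ℕ) : ℝ) := by
  have := Nat.lt_floor_add_one ((x : ℝ) / (s : ℝ))
  rw [Nat.floor_div_natCast, Nat.floor_natCast] at this
  linarith

lemma factor_nonneg {y : ℕ} (hy : 2 ≤ y) : 0 ≤ 1 - 1 / ((y : ℝ) - 1) := by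
  have : (2 : ℝ) ≤ y := by exact_mod_cast hy
  rw [sub_nonneg, div_le_one (by linarith)]
  linarith

lemma factor_le_one {y : ℕ} (hy : 2 ≤ y) : 1 - 1 / ((y : ℝ) - 1) ≤ 1 := by
  have : (2 : ℝ) ≤ y := by exact_mod_cast hy
  have : (0 : ℝ) ≤ 1 / ((y : ℝ) - 1) := div_nonneg zero_le_one (by linarith)
  linarith

/-- The numbers `s m`, `s ∈ B`, `m` rough and squarefree. -/
def prodRS (y : ℕ) (B : Finset ℕ) : Set ℕ := {n | ∃ s ∈ B, ∃ m ∈ RS y, n = s * m}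

lemma prodRS_free {k y T : ℕ} (hk : 3 ≤ k) {B : Finset ℕ} (hB : B ⊆ S y T)
    (hf : Free k (B : Set ℕ)) : Free k (prodRS y B) := by
  refine (lift_free (y := y) hk (Bf := fun _ => (B : Set ℕ)) (fun _ => hf) ?_).mono ?_
  · intro _ s hs
    exact (mem_S.1 (hB hs)).2
  · rintro n ⟨s, hs, m, hm, rfl⟩
    exact ⟨s, m, rfl, hm.1, hm.2.1, hm.2.2, hs⟩

lemma prodRS_count {y T : ℕ} (hy : 2 ≤ y) {B : Finset ℕ} (hB : B ⊆ S y T) :
    ∃ C : ℝ, ∀ x : ℕ, (Phi y * (1 - 1 / ((y : ℝ) - 1)) * ∑ b ∈ B, 1 / (b : ℝ)) * x -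
      C * (Nat.sqrt x + 1) ≤ N (prodRS y B) x := by
  refine ⟨B.card * (5 * W y + 1), fun x => ?_⟩
  have hB' : ∀ s ∈ B, 0 < s ∧ Sm y s := fun s hs =>
    ⟨(mem_S.1 (hB hs)).1.1, (mem_S.1 (hB hs)).2⟩
  have h1 := N_prodset B hB' (RS y) (RS_subset y) x
  have h2 : (N (prodRS y B) x : ℝ) = ∑ s ∈ B, (N (RS y) (x / s) : ℝ) := by
    rw [prodRS, h1]
    push_cast
    rfl
  rw [h2]
  obtain ⟨c, hc⟩ : ∃ c, c = Phi y * (1 - 1 / ((y : ℝ) - 1)) := ⟨_, rfl⟩
  have hc0 : 0 ≤ c := hc ▸ mul_nonneg (Phi_pos y).le (factor_nonneg hy)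
  have hc1 : c ≤ 1 := by
    rw [hc]
    have := mul_le_mul (Phi_le_one y) (factor_le_one hy) (factor_nonneg hy) zero_le_one
    linarith
  have h3 : ∑ s ∈ B, (c * (1 / (s : ℝ)) * x - (5 * W y + 1) * (Nat.sqrt x + 1)) ≤
      ∑ s ∈ B, (N (RS y) (x / s) : ℝ) := by
    refine Finset.sum_le_sum fun s hs => ?_
    have hs0 := (hB' s hs).1
    have h4 := RS_lower hy (x / s)
    rw [← hc] at h4
    have h5 := mul_le_mul_of_nonneg_left (cast_div_ge x s) hc0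
    have h6 : (Nat.sqrt (x / s) : ℝ) ≤ Nat.sqrt x := by
      exact_mod_cast Nat.sqrt_le_sqrt (Nat.div_le_self x s)
    have hW : (0 : ℝ) < W y := by exact_mod_cast W_pos y
    have h7 : c * (1 / (s : ℝ)) * x = c * (x / s) := by ring
    have h8 : (0 : ℝ) ≤ Nat.sqrt x := Nat.cast_nonneg _
    rw [h7]
    nlinarith
  refine le_trans (le_of_eq ?_) h3
  rw [Finset.sum_sub_distrib, Finset.sum_const, nsmul_eq_mul, ← Finset.sum_mul, ← Finset.mul_sum,
    ← hc]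
  ring

lemma tendsto_sqrt_div : Tendsto (fun x : ℕ => ((Nat.sqrt x : ℝ) + 1) / x) atTop (𝓝 0) := by
  have h1 : Tendsto (fun x : ℕ => 1 / Real.sqrt x + 1 / (x : ℝ)) atTop (𝓝 (0 + 0)) := by
    refine Tendsto.add ?_ tendsto_one_div_atTop_nhds_zero_nat
    have : Tendsto (fun x : ℕ => Real.sqrt x) atTop atTop :=
      Real.tendsto_sqrt_atTop.comp tendsto_natCast_atTop_atTop
    simp only [one_div]
    exact this.inv_tendsto_atTop
  rw [add_zero] at h1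
  refine squeeze_zero' (Eventually.of_forall fun _ => by positivity) ?_ h1
  filter_upwards [eventually_gt_atTop 0] with x hx
  have hx' : (0 : ℝ) < x := by exact_mod_cast hx
  rw [add_div]
  refine add_le_add ?_ le_rfl
  rw [div_le_div_iff₀ hx' (Real.sqrt_pos.2 hx')]
  have h2 : (Nat.sqrt x : ℝ) ≤ Real.sqrt x := Real.nat_sqrt_le_real_sqrt
  have h3 := Real.mul_self_sqrt hx'.le
  nlinarith [Real.sqrt_nonneg (x : ℝ)]

lemma eventually_ge_of_count {A : Set ℕ} {c C : ℝ}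
    (h : ∀ x : ℕ, c * x - C * (Nat.sqrt x + 1) ≤ N A x) {ε : ℝ} (hε : 0 < ε) :
    ∀ᶠ x : ℕ in atTop, c - ε ≤ (N A x : ℝ) / x := by
  have h1 : Tendsto (fun x : ℕ => C * (((Nat.sqrt x : ℝ) + 1) / x)) atTop (𝓝 (C * 0)) :=
    tendsto_sqrt_div.const_mul C
  rw [mul_zero] at h1
  filter_upwards [h1.eventually_lt_const hε, eventually_gt_atTop 0] with x hx hx0
  have hx' : (0 : ℝ) < x := by exact_mod_cast hx0
  rw [le_div_iff₀ hx']
  have h2 := h x
  have h3 : C * (((Nat.sqrt x : ℝ) + 1) / x) * x = C * (Nat.sqrt x + 1) := by field_simp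
  nlinarith

/-- The lower bound from one finite set is below the upper bound from another. -/
lemma lower_le_upper {k y T y' T' : ℕ} (hk : 3 ≤ k) (hy : 2 ≤ y) (hT' : 1 ≤ T') :
    Phi y * (1 - 1 / ((y : ℝ) - 1)) * M k y T ≤
      1 - Phi y' * (∑ s ∈ S y' T', 1 / (s : ℝ) - M k y' T') := by
  obtain ⟨B, hB, hf, hM⟩ := exists_M (k := k) (by omega) y T
  obtain ⟨C, hC⟩ := prodRS_count hy hB
  rw [← hM] at hC
  refine le_of_forall_pos_le_add fun ε hε => ?_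
  have h1 := lower_le_bound (y := y') (by omega) hT' (prodRS_free hk hB hf)
    (eventually_ge_of_count hC hε)
  linarith

/-! ### The sets at one scale for the upper density -/

/-- The set at scale `X`: `s m` with `m` rough and squarefree, `s ∈ C ⌊X / m⌋`. -/
def scaleSet (y T : ℕ) (C : ℕ → Finset ℕ) (X : ℕ) : Set ℕ :=
  lift y (fun m => {s | 0 < X / m ∧ X / m ≤ T ∧ s ∈ C (X / m)})

lemma scaleSet_free {k y T : ℕ} (hk : 3 ≤ k) {C : ℕ → Finset ℕ} (hC : ∀ t, C t ⊆ S y t)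
    (hf : ∀ t, Free k (C t : Set ℕ)) (X : ℕ) : Free k (scaleSet y T C X) := by
  refine lift_free hk ?_ ?_
  · intro m
    refine (hf (X / m)).mono ?_
    intro s hs
    exact hs.2.2
  · intro m s hs
    exact (mem_S.1 (hC _ hs.2.2)).2

lemma scaleSet_bounds {y T : ℕ} {C : ℕ → Finset ℕ} (hC : ∀ t, C t ⊆ S y t) {X n : ℕ}
    (hn : n ∈ scaleSet y T C X) : X < (T + 1) * n ∧ n ≤ X ∧ 0 < n := by
  obtain ⟨s, m, rfl, hm, _, _, h1, h2, h3⟩ := hn
  have h4 := mem_S.1 (hC _ h3)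
  refine ⟨?_, ?_, Nat.mul_pos h4.1.1 hm⟩
  · have h5 : X < (T + 1) * m := by
      have := Nat.lt_mul_div_succ X hm
      calc X < m * (X / m + 1) := this
        _ ≤ m * (T + 1) := Nat.mul_le_mul_left _ (by omega)
        _ = (T + 1) * m := by ring
    calc X < (T + 1) * m := h5
      _ ≤ (T + 1) * (s * m) := Nat.mul_le_mul_left _ (Nat.le_mul_of_pos_left _ h4.1.1)
  · calc s * m ≤ (X / m) * m := Nat.mul_le_mul_right _ h4.1.2
      _ ≤ X := Nat.div_mul_le_self X m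

lemma scaleSet_count {y T : ℕ} (hy : 2 ≤ y) {C : ℕ → Finset ℕ} (hC : ∀ t, C t ⊆ S y t) :
    ∃ D : ℝ, 0 ≤ D ∧ ∀ X : ℕ, (Phi y * (1 - 1 / ((y : ℝ) - 1)) *
      ∑ t ∈ Icc 1 T, ((C t).card : ℝ) / ((t : ℝ) * (t + 1))) * X -
      D * (Nat.sqrt X + 1) ≤ N (scaleSet y T C X) X := by
  classical
  refine ⟨∑ t ∈ Icc 1 T, ((C t).card : ℝ) * (5 * W y + 1), by positivity, fun X => ?_⟩
  obtain ⟨c, hc⟩ : ∃ c, c = Phi y * (1 - 1 / ((y : ℝ) - 1)) := ⟨_, rfl⟩
  have hc0 : 0 ≤ c := hc ▸ mul_nonneg (Phi_pos y).le (factor_nonneg hy)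
  have hc1 : c ≤ 1 := by
    rw [hc]
    have := mul_le_mul (Phi_le_one y) (factor_le_one hy) (factor_nonneg hy) zero_le_one
    linarith
  obtain ⟨Pt, hPt⟩ : ∃ Pt : ℕ → Finset (ℕ × ℕ), Pt = fun t =>
      ((C t) ×ˢ ((Ioc (X / (t + 1)) (X / t)).filter (· ∈ RS y))) := ⟨_, rfl⟩
  have hmem : ∀ t p, p ∈ Pt t ↔ (p.1 ∈ C t ∧ p.2 ∈ Ioc (X / (t + 1)) (X / t) ∧ p.2 ∈ RS y) := by
    intro t p
    rw [hPt]
    simp only [Finset.mem_filter, Finset.mem_product]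
  obtain ⟨P, hP⟩ : ∃ P, P = (Icc 1 T).biUnion Pt := ⟨_, rfl⟩
  have hP1 : ∀ p ∈ P, 0 < p.1 ∧ Sm y p.1 ∧ p.2 ∈ Rough y := by
    intro p hp
    rw [hP, Finset.mem_biUnion] at hp
    obtain ⟨t, _, hpt⟩ := hp
    rw [hmem] at hpt
    have := mem_S.1 (hC t hpt.1)
    exact ⟨this.1.1, this.2, RS_subset y hpt.2.2⟩
  have hsub : P.image (fun p => p.1 * p.2) ⊆
      (Icc 1 X).filter (· ∈ scaleSet y T C X) := by
    intro n hn
    rw [Finset.mem_image] at hn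
    obtain ⟨p, hp, rfl⟩ := hn
    have h0 := hP1 p hp
    rw [hP, Finset.mem_biUnion] at hp
    obtain ⟨t, ht, hpt⟩ := hp
    rw [hmem] at hpt
    rw [Finset.mem_Icc] at ht
    have h3 := div_eq_of_mem hpt.2.1 ht.1
    have h4 := mem_S.1 (hC t hpt.1)
    have hmem' : p.1 * p.2 ∈ scaleSet y T C X := by
      refine ⟨p.1, p.2, rfl, h0.2.2.1, hpt.2.2.2.1, hpt.2.2.2.2, ?_⟩
      show 0 < X / p.2 ∧ X / p.2 ≤ T ∧ p.1 ∈ C (X / p.2)
      rw [h3.1]
      exact ⟨ht.1, ht.2, hpt.1⟩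
    rw [Finset.mem_filter, Finset.mem_Icc]
    have h5 := scaleSet_bounds hC hmem'
    exact ⟨⟨h5.2.2, h5.2.1⟩, hmem'⟩
  have hcardP : P.card ≤ N (scaleSet y T C X) X := by
    rw [← card_pairs P hP1]
    unfold N
    exact Finset.card_le_card hsub
  have hdisj : P.card = ∑ t ∈ Icc 1 T, (Pt t).card := by
    rw [hP, Finset.card_biUnion]
    intro t ht t' ht' hne
    rw [Function.onFun, Finset.disjoint_left]
    intro p hp hp'
    rw [hmem] at hp hp'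
    have h1 := div_eq_of_mem hp.2.1 (Finset.mem_Icc.1 ht).1
    have h2 := div_eq_of_mem hp'.2.1 (Finset.mem_Icc.1 ht').1
    exact hne (h1.1.symm.trans h2.1)
  have hPtcard : ∀ t ∈ Icc 1 T, c * ((C t).card / ((t : ℝ) * (t + 1))) * X -
      (C t).card * (5 * W y + 1) * (Nat.sqrt X + 1) ≤ (Pt t).card := by
    intro t ht
    rw [Finset.mem_Icc] at ht
    have hle : X / (t + 1) ≤ X / t := Nat.div_le_div_left (by omega) ht.1
    have h1 : (((Ioc (X / (t + 1)) (X / t)).filter (· ∈ RS y)).card : ℝ) =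
        ((N (RS y) (X / t) : ℝ) - N (RS y) (X / (t + 1))) := by
      have := N_Ioc (RS y) hle
      have h' : (N (RS y) (X / t) : ℝ) = N (RS y) (X / (t + 1)) +
        ((Ioc (X / (t + 1)) (X / t)).filter (· ∈ RS y)).card := by exact_mod_cast this
      rw [h']
      ring
    have h2 : ((Pt t).card : ℝ) = (C t).card *
        (((Ioc (X / (t + 1)) (X / t)).filter (· ∈ RS y)).card : ℝ) := by
      rw [hPt]
      simp only
      rw [Finset.card_product]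
      push_cast
      rfl
    have h3 := RS_interval hy hle
    rw [← hc] at h3
    have ht' : (0 : ℝ) < t := by exact_mod_cast ht.1
    have h4 := cast_div_ge X t
    have h5 : ((X / (t + 1) : ℕ) : ℝ) ≤ X / ((t : ℝ) + 1) := by
      have := @Nat.cast_div_le ℝ _ _ _ X (t + 1)
      push_cast at this
      exact this
    have h6 : (X : ℝ) / ((t : ℝ) * (t + 1)) = X / t - X / (t + 1) := by
      field_simp
      ring
    have h7 : (Nat.sqrt (X / t) : ℝ) ≤ Nat.sqrt X := by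
      exact_mod_cast Nat.sqrt_le_sqrt (Nat.div_le_self X t)
    have hW : (0 : ℝ) < W y := by exact_mod_cast W_pos y
    have h8 : (0 : ℝ) ≤ Nat.sqrt X := Nat.cast_nonneg _
    have h9 : c * ((X : ℝ) / ((t : ℝ) * (t + 1)) - 1) ≤
        c * (((X / t : ℕ) : ℝ) - ((X / (t + 1) : ℕ) : ℝ)) :=
      mul_le_mul_of_nonneg_left (by rw [h6]; linarith) hc0
    have h10 : c * ((X : ℝ) / ((t : ℝ) * (t + 1))) - (5 * W y + 1) * (Nat.sqrt X + 1) ≤
        (N (RS y) (X / t) : ℝ) - N (RS y) (X / (t + 1)) := by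
      nlinarith
    rw [h2, h1]
    have h11 := mul_le_mul_of_nonneg_left h10 (Nat.cast_nonneg (α := ℝ) (C t).card)
    calc c * ((C t).card / ((t : ℝ) * (t + 1))) * X - (C t).card * (5 * W y + 1) * (Nat.sqrt X + 1)
        = (C t).card * (c * ((X : ℝ) / ((t : ℝ) * (t + 1))) - (5 * W y + 1) * (Nat.sqrt X + 1)) := by
          ring
      _ ≤ _ := h11
  have hfinal : ∑ t ∈ Icc 1 T, (c * ((C t).card / ((t : ℝ) * (t + 1))) * X -
      (C t).card * (5 * W y + 1) * (Nat.sqrt X + 1)) ≤ (P.card : ℝ) := by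
    rw [hdisj]
    push_cast
    exact Finset.sum_le_sum hPtcard
  refine le_trans (le_of_eq ?_) (hfinal.trans (by exact_mod_cast hcardP))
  rw [← hc, Finset.mul_sum, Finset.sum_mul, Finset.sum_mul, ← Finset.sum_sub_distrib]

end Pool.Agent.Helper54.GP
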