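import Pool.Agent.Helper54.GP.Strict

/-!
# Main theorem on `α_k` and `β_k`
-/

namespace Pool.Agent.Helper54.GP

open Finset Filter Topology
open Pool.Agent.Helper54.SigmaDens (N N_mono N_le)

open Classical in
/-- The upper logarithmic density `limsup (∑_{n ≤ x, n ∈ A} 1/n) / log x`. -/
noncomputable def upperLogDensity (A : Set ℕ) : ℝ :=
  limsup (fun x : ℕ => (∑ n ∈ (Icc 1 x).filter (· ∈ A), (1 : ℝ) / n) / Real.log x) atTop

/-- The lower asymptotic density. -/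
noncomputable def lowerDensity (A : Set ℕ) : ℝ := liminf (fun x : ℕ => (N A x : ℝ) / x) atTop

/-- The abstract value: squeezed between all lower and all upper bounds. -/
lemma exists_between {lo up : ℕ → ℕ → ℝ} (h : ∀ y T y' T', 3 ≤ y → 1 ≤ T → 3 ≤ y' → 1 ≤ T' →
    lo y T ≤ up y' T') : ∃ b : ℝ, ∀ y T, 3 ≤ y → 1 ≤ T → lo y T ≤ b ∧ b ≤ up y T := by
  refine ⟨sSup {w | ∃ y T, 3 ≤ y ∧ 1 ≤ T ∧ w = lo y T}, fun y T hy hT => ⟨?_, ?_⟩⟩
  · refine le_csSup ⟨up 3 1, ?_⟩ ⟨y, T, hy, hT, rfl⟩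
    rintro w ⟨y', T', h1, h2, rfl⟩
    exact h _ _ _ _ h1 h2 le_rfl le_rfl
  · refine csSup_le ⟨lo 3 1, 3, 1, le_rfl, le_rfl, rfl⟩ ?_
    rintro w ⟨y', T', h1, h2, rfl⟩
    exact h _ _ _ _ h1 h2 hy hT

lemma le_of_forall_bUp {k : ℕ} (hk : 3 ≤ k) {b μ : ℝ}
    (hb : ∀ y T, 3 ≤ y → 1 ≤ T → bLo k y T ≤ b ∧ b ≤ bUp k y T)
    (hμ : ∀ y T, 3 ≤ y → 1 ≤ T → μ ≤ bUp k y T) : μ ≤ b := by
  refine le_of_forall_pos_le_add fun ε hε => ?_
  obtain ⟨y, T, _, hy, hT, h1, _⟩ := width (k := k) (by omega) 0 hε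
  have h2 := (hb y T hy hT).1
  have h3 := hμ y T hy hT
  linarith

lemma beta_eq {k : ℕ} (hk : 3 ≤ k) {b : ℝ}
    (hb : ∀ y T, 3 ≤ y → 1 ≤ T → bLo k y T ≤ b ∧ b ≤ bUp k y T) : beta k = b := by
  have hup : ∀ d ∈ {d | ∃ A, Free k A ∧ HasDensity A d}, d ≤ b := by
    rintro d ⟨A, hA, hd⟩
    refine le_of_forall_bUp hk hb fun y T _ hT => ?_
    refine le_of_forall_pos_le_add fun ε hε => ?_
    have h1 : ∀ᶠ x : ℕ in atTop, d - ε ≤ (N A x : ℝ) / x := by
      have h2 : Tendsto (fun x : ℕ => (N A x : ℝ) / x) atTop (𝓝 d) := hd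
      filter_upwards [h2.eventually_const_lt (show d - ε < d by linarith)] with x hx
      exact hx.le
    have h3 := lower_le_bound (y := y) (by omega : 0 < k) hT hA h1
    rw [bUp]
    linarith
  obtain ⟨A, hA, hd⟩ := exists_beta_set hk hb
  refine le_antisymm (csSup_le ⟨b, A, hA, hd⟩ hup) (le_csSup ⟨b, hup⟩ ⟨A, hA, hd⟩)

lemma beta_spec {k : ℕ} (hk : 3 ≤ k) :
    (∀ y T, 3 ≤ y → 1 ≤ T → bLo k y T ≤ beta k ∧ beta k ≤ bUp k y T) := by
  obtain ⟨b, hb⟩ := exists_between (lo := bLo k) (up := bUp k) (fun y T y' T' hy _ _ hT' =>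
    lower_le_upper hk (by omega) hT')
  rw [beta_eq hk hb]
  exact hb

lemma alpha_spec {k : ℕ} (hk : 3 ≤ k) :
    (∃ A, Free k A ∧ upperDensity A = alpha k) ∧
    ∀ y T, 3 ≤ y → aLo k y T ≤ alpha k ∧ alpha k ≤ aUp k y T := by
  obtain ⟨A, hA, h⟩ := exists_alpha_set hk
  have hup : ∀ A', Free k A' → upperDensity A' ≤ upperDensity A := by
    intro A' hA'
    refine le_of_forall_pos_le_add fun ε hε => ?_
    obtain ⟨y, T, _, hy, hT, _, h1⟩ := width (k := k) (by omega) 0 hε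
    have h2 := h y T (by omega)
    have h3 := upperDensity_le_bound (by omega : 0 < k) y T hA'
    rw [← aUp] at h3
    linarith
  have e : alpha k = upperDensity A := by
    refine le_antisymm (csSup_le ⟨_, A, hA, rfl⟩ ?_) (le_csSup ⟨upperDensity A, ?_⟩ ⟨A, hA, rfl⟩)
    · rintro d ⟨A', hA', rfl⟩
      exact hup A' hA'
    · rintro d ⟨A', hA', rfl⟩
      exact hup A' hA'
  refine ⟨⟨A, hA, e.symm⟩, fun y T hy => ?_⟩
  rw [e]
  refine ⟨h y T (by omega), ?_⟩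
  have := upperDensity_le_bound (by omega : 0 < k) y T hA
  rw [← aUp] at this
  exact this

lemma upperLog_le {k : ℕ} (hk : 3 ≤ k) {A : Set ℕ} (hA : Free k A) :
    upperLogDensity A ≤ beta k := by
  classical
  refine le_of_forall_bUp hk (beta_spec hk) fun y T _ hT => ?_
  obtain ⟨C, hC⟩ := log_upper (y := y) (by omega : 0 < k) hT hA
  refine le_of_forall_pos_le_add fun ε hε => ?_
  have hlog : Tendsto (fun x : ℕ => Real.log x) atTop atTop :=
    Real.tendsto_log_atTop.comp tendsto_natCast_atTop_atTop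
  refine limsup_le_of_le ?_ ?_
  · refine IsBoundedUnder.isCoboundedUnder_le (isBoundedUnder_of_eventually_ge (a := 0) ?_)
    filter_upwards [hlog.eventually_ge_atTop 0] with x hx
    exact div_nonneg (by positivity) hx
  · filter_upwards [hlog.eventually_gt_atTop 0, hlog.eventually_gt_atTop (C / ε),
      eventually_ge_atTop 1] with x h1 h2 h3
    have h4 := hC x h3
    rw [LS, ← bUp] at h4
    rw [div_le_iff₀ h1]
    rw [div_lt_iff₀ hε] at h2
    linarith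

lemma lowerDensity_le {k : ℕ} (hk : 3 ≤ k) {A : Set ℕ} (hA : Free k A) :
    lowerDensity A ≤ beta k := by
  refine le_of_forall_bUp hk (beta_spec hk) fun y T _ hT => ?_
  refine le_of_forall_pos_le_add fun ε hε => ?_
  have h1 : ∀ᶠ x : ℕ in atTop, lowerDensity A - ε ≤ (N A x : ℝ) / x := by
    have h2 : lowerDensity A - ε < liminf (fun x : ℕ => (N A x : ℝ) / x) atTop := by
      rw [← lowerDensity]
      linarith
    filter_upwards [eventually_lt_of_lt_liminf h2 (ratio_bdd_below A)] with x hx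
    exact hx.le
  have h3 := lower_le_bound (y := y) (by omega : 0 < k) hT hA h1
  rw [bUp]
  linarith

theorem main {k : ℕ} (hk : 3 ≤ k) :
    (∃ A, Free k A ∧ HasDensity A (beta k)) ∧
    (∃ A, Free k A ∧ upperDensity A = alpha k) ∧
    (∀ A, Free k A → upperLogDensity A ≤ beta k ∧ lowerDensity A ≤ beta k) ∧
    (∀ y T, 3 ≤ y → 1 ≤ T → |Phi y * M k y T - beta k| ≤
      (1 - Phi y * ∑ s ∈ S y T, 1 / (s : ℝ)) + 1 / ((y : ℝ) - 1)) ∧
    (∀ y T, 3 ≤ y → 1 ≤ T →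
      |Phi y * ∑ t ∈ Icc 1 T, (f k y t : ℝ) / ((t : ℝ) * (t + 1)) - alpha k| ≤
      (1 - Phi y * ∑ t ∈ Icc 1 T, ((S y t).card : ℝ) / ((t : ℝ) * (t + 1))) +
        1 / ((y : ℝ) - 1)) ∧
    (∀ y, Tendsto (fun T => Phi y * ∑ s ∈ S y T, 1 / (s : ℝ)) atTop (𝓝 1)) ∧
    (∀ y, Tendsto (fun T => Phi y * ∑ t ∈ Icc 1 T, ((S y t).card : ℝ) / ((t : ℝ) * (t + 1)))
      atTop (𝓝 1)) ∧
    beta k < alpha k := by
  have hb := beta_spec hk
  have ha := alpha_spec hk
  refine ⟨exists_beta_set hk hb, ha.1, fun A hA => ⟨upperLog_le hk hA, lowerDensity_le hk hA⟩,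
    fun y T hy hT => ?_, fun y T hy hT => ?_, fun y => ?_, fun y => ?_, ?_⟩
  · have h1 := hb y T hy hT
    have hP := Phi_pos y
    have hM := M_nonneg (k := k) (by omega) y T
    have h2 : Phi y * M k y T ≤ 1 :=
      le_trans (mul_le_mul_of_nonneg_left (M_le (by omega) y T) hP.le) (Phi_mul_sum_le y T)
    have h3 := Phi_mul_sum_le y T
    have hy' : (3 : ℝ) ≤ y := by exact_mod_cast hy
    have h4 : 0 < 1 / ((y : ℝ) - 1) := div_pos one_pos (by linarith)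
    have h5 : bUp k y T = 1 - Phi y * ∑ s ∈ S y T, 1 / (s : ℝ) + Phi y * M k y T := by
      rw [bUp]; ring
    have h6 : bLo k y T = Phi y * M k y T - Phi y * M k y T * (1 / ((y : ℝ) - 1)) := by
      rw [bLo]; ring
    rw [h5, h6] at h1
    rw [abs_le]
    constructor
    · nlinarith [h1.2]
    · nlinarith [h1.1]
  · obtain ⟨h1, h2⟩ := ha.2 y T hy
    have hP := Phi_pos y
    have h3 : Phi y * ∑ t ∈ Icc 1 T, (f k y t : ℝ) / ((t : ℝ) * (t + 1)) ≤
        Phi y * ∑ t ∈ Icc 1 T, ((S y t).card : ℝ) / ((t : ℝ) * (t + 1)) := by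
      refine mul_le_mul_of_nonneg_left (Finset.sum_le_sum fun t _ => ?_) hP.le
      refine div_le_div_of_nonneg_right ?_ (by positivity)
      exact_mod_cast f_le (by omega : 0 < k) y t
    have h4 : Phi y * ∑ t ∈ Icc 1 T, ((S y t).card : ℝ) / ((t : ℝ) * (t + 1)) ≤ 1 := by
      refine le_trans (mul_le_mul_of_nonneg_left ?_ hP.le) (Phi_mul_sum_le y T)
      rw [sum_card_S]
      have : (0 : ℝ) ≤ ((S y T).card : ℝ) / (T + 1) := by positivity
      linarith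
    have h0 : 0 ≤ Phi y * ∑ t ∈ Icc 1 T, (f k y t : ℝ) / ((t : ℝ) * (t + 1)) := by positivity
    have hy' : (3 : ℝ) ≤ y := by exact_mod_cast hy
    have h5 : 0 < 1 / ((y : ℝ) - 1) := div_pos one_pos (by linarith)
    have h6 : aUp k y T = 1 - Phi y * ∑ t ∈ Icc 1 T, ((S y t).card : ℝ) / ((t : ℝ) * (t + 1)) +
        Phi y * ∑ t ∈ Icc 1 T, (f k y t : ℝ) / ((t : ℝ) * (t + 1)) := by
      have h7 : ∑ t ∈ Icc 1 T, (((S y t).card : ℝ) - f k y t) / ((t : ℝ) * (t + 1)) =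
          ∑ t ∈ Icc 1 T, ((S y t).card : ℝ) / ((t : ℝ) * (t + 1)) -
          ∑ t ∈ Icc 1 T, (f k y t : ℝ) / ((t : ℝ) * (t + 1)) := by
        rw [← Finset.sum_sub_distrib]
        refine Finset.sum_congr rfl fun t _ => ?_
        ring
      rw [aUp, h7]
      ring
    have h7 : aLo k y T = Phi y * ∑ t ∈ Icc 1 T, (f k y t : ℝ) / ((t : ℝ) * (t + 1)) -
        Phi y * ∑ t ∈ Icc 1 T, (f k y t : ℝ) / ((t : ℝ) * (t + 1)) * (1 / ((y : ℝ) - 1)) := by
      rw [aLo, ← Finset.sum_mul]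
      ring
    rw [← Finset.sum_mul, ← mul_assoc] at h7
    rw [h6] at h2
    rw [h7] at h1
    rw [abs_le]
    constructor
    · nlinarith
    · nlinarith
  · have := (tendsto_sum_S y).const_mul (Phi y)
    rwa [mul_inv_cancel₀ (Phi_pos y).ne'] at this
  · have := (tendsto_sum_card_S y).const_mul (Phi y)
    rwa [mul_inv_cancel₀ (Phi_pos y).ne'] at this
  · obtain ⟨y, T, hy, hT, h⟩ := separate hk
    exact lt_of_le_of_lt (hb y T hy hT).2 (lt_of_lt_of_le h (ha.2 y T hy).1)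

end Pool.Agent.Helper54.GP
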