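import Pool.Agent.Helper54.GP.Greedy
import Pool.Agent.Helper54.GP.BetaMain

/-!
# `β_k < α_k`
-/

namespace Pool.Agent.Helper54.GP

open Finset Filter Topology
open Pool.Agent.Helper54.SigmaDens (N N_mono N_le partial_summation)

lemma Phi_succ_of_not {n : ℕ} (h : ¬ n.Prime) : Phi (n + 1) = Phi n := by
  rw [Phi, Phi]
  congr 1
  ext p
  rw [Nat.mem_primesBelow, Nat.mem_primesBelow]
  constructor
  · rintro ⟨h1, h2⟩
    refine ⟨?_, h2⟩
    rcases Nat.lt_succ_iff_lt_or_eq.1 h1 with h3 | h3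
    · exact h3
    · rw [h3] at h2
      exact absurd h2 h
  · rintro ⟨h1, h2⟩
    exact ⟨by omega, h2⟩

lemma Phi_succ_ge {n : ℕ} (hn : 1 ≤ n) : Phi n * (1 - 1 / (n : ℝ)) ≤ Phi (n + 1) := by
  have hn' : (1 : ℝ) ≤ n := by exact_mod_cast hn
  by_cases h : n.Prime
  · refine le_of_eq ?_
    rw [Phi, Phi]
    have e : Nat.primesBelow (n + 1) = insert n (Nat.primesBelow n) := by
      ext p
      rw [Nat.mem_primesBelow, Finset.mem_insert, Nat.mem_primesBelow]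
      constructor
      · rintro ⟨h1, h2⟩
        rcases Nat.lt_succ_iff_lt_or_eq.1 h1 with h3 | h3
        · exact Or.inr ⟨h3, h2⟩
        · exact Or.inl h3
      · rintro (rfl | ⟨h1, h2⟩)
        · exact ⟨by omega, h⟩
        · exact ⟨by omega, h2⟩
    rw [e, Finset.prod_insert (by
      rw [Nat.mem_primesBelow]
      rintro ⟨h1, _⟩
      omega)]
    ring
  · rw [Phi_succ_of_not h]
    have h1 : 0 ≤ 1 / (n : ℝ) := by positivity
    have := Phi_pos n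
    nlinarith

lemma Phi_four : Phi 4 = 1 / 3 := by
  have e : Nat.primesBelow 4 = {2, 3} := by decide
  rw [Phi, e, Finset.prod_pair (by norm_num)]
  norm_num

/-- `Φ y ≥ 1 / (2 √y)` in a convenient form. -/
lemma Phi_sq_ge (m : ℕ) : 1 ≤ 4 * Phi (2 * m + 4) ^ 2 * (2 * m + 3) := by
  induction m with
  | zero =>
    rw [show 2 * 0 + 4 = 4 by norm_num, Phi_four]
    norm_num
  | succ m ih =>
    have h1 : Phi (2 * m + 4) * (1 - 1 / ((2 * m + 5 : ℕ) : ℝ)) ≤ Phi (2 * (m + 1) + 4) := by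
      have h2 : Phi (2 * m + 4 + 1) = Phi (2 * m + 4) := by
        refine Phi_succ_of_not ?_
        intro hp
        have h3 : 2 ∣ 2 * m + 4 := ⟨m + 2, by ring⟩
        rcases (Nat.dvd_prime hp).1 h3 with h4 | h4 <;> omega
      have h3 := Phi_succ_ge (n := 2 * m + 5) (by omega)
      rw [show 2 * m + 5 = 2 * m + 4 + 1 by ring, h2] at h3
      rw [show 2 * (m + 1) + 4 = 2 * m + 4 + 1 + 1 by ring, show 2 * m + 5 = 2 * m + 4 + 1 by ring]
      exact h3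
    have hP := Phi_pos (2 * m + 4)
    have hm : (0 : ℝ) ≤ m := Nat.cast_nonneg m
    have h5 : 0 ≤ 1 - 1 / ((2 * m + 5 : ℕ) : ℝ) := by
      rw [sub_nonneg, div_le_one (by positivity)]
      push_cast
      linarith
    have h6 : (Phi (2 * m + 4) * (1 - 1 / ((2 * m + 5 : ℕ) : ℝ))) ^ 2 ≤ Phi (2 * (m + 1) + 4) ^ 2 :=
      pow_le_pow_left₀ (mul_nonneg hP.le h5) h1 2
    have h7 : ((2 : ℝ) * m + 3) ≤ (1 - 1 / ((2 * m + 5 : ℕ) : ℝ)) ^ 2 * (2 * m + 5) := by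
      push_cast
      have h8 : (0 : ℝ) < 2 * m + 5 := by linarith
      have h9 : (1 - 1 / ((2 : ℝ) * m + 5)) ^ 2 * (2 * m + 5) = (2 * m + 4) ^ 2 / (2 * m + 5) := by
        field_simp
        ring
      rw [h9, le_div_iff₀ h8]
      nlinarith
    push_cast
    calc (1 : ℝ) ≤ 4 * Phi (2 * m + 4) ^ 2 * (2 * m + 3) := ih
      _ ≤ 4 * Phi (2 * m + 4) ^ 2 * ((1 - 1 / ((2 * m + 5 : ℕ) : ℝ)) ^ 2 * (2 * m + 5)) :=
        mul_le_mul_of_nonneg_left h7 (by positivity)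
      _ = 4 * (Phi (2 * m + 4) * (1 - 1 / ((2 * m + 5 : ℕ) : ℝ))) ^ 2 * (2 * m + 5) := by ring
      _ ≤ 4 * Phi (2 * (m + 1) + 4) ^ 2 * (2 * m + 5) := by
        refine mul_le_mul_of_nonneg_right ?_ (by linarith)
        linarith
      _ = 4 * Phi (2 * (m + 1) + 4) ^ 2 * (2 * (m + 1) + 3) := by ring

lemma exists_y {κ : ℝ} (hκ : 0 < κ) (T0 : ℕ) :
    ∃ y, T0 < y ∧ 3 ≤ y ∧ 1 / ((y : ℝ) - 1) < Phi y * (1 - 1 / ((y : ℝ) - 1)) * κ := by
  obtain ⟨K, hK⟩ := exists_nat_gt (3 / κ ^ 2)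
  obtain ⟨m, hm⟩ : ∃ m, m = max K T0 + 1 := ⟨_, rfl⟩
  have hmK : K ≤ m := by
    have := le_max_left K T0
    omega
  have hmT : T0 ≤ m := by
    have := le_max_right K T0
    omega
  have hm1 : 1 ≤ m := by omega
  have hm1' : (1 : ℝ) ≤ m := by exact_mod_cast hm1
  refine ⟨2 * m + 4, by omega, by omega, ?_⟩
  have hsq := Phi_sq_ge m
  obtain ⟨P, hP⟩ : ∃ P, P = Phi (2 * m + 4) := ⟨_, rfl⟩
  have hP0 : 0 < P := hP ▸ Phi_pos _
  rw [← hP] at hsq ⊢
  push_cast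
  have e : (2 : ℝ) * m + 4 - 1 = 2 * m + 3 := by ring
  rw [e]
  have h3 : (0 : ℝ) < 2 * m + 3 := by linarith
  have h4 : 1 - 1 / ((2 : ℝ) * m + 3) = (2 * m + 2) / (2 * m + 3) := by
    field_simp
    ring
  rw [h4]
  have h5 : P * ((2 * m + 2) / (2 * m + 3)) * κ = P * (2 * m + 2) * κ * (1 / (2 * (m : ℝ) + 3)) := by
    ring
  rw [h5]
  have h6 : 1 < P * (2 * m + 2) * κ := by
    have h7 : 1 < (P * (2 * m + 2) * κ) ^ 2 := by
      have hKm : (K : ℝ) ≤ m := by exact_mod_cast hmK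
      rw [div_lt_iff₀ (by positivity)] at hK
      have h8 : 3 < m * κ ^ 2 := by
        have : (K : ℝ) * κ ^ 2 ≤ m * κ ^ 2 := mul_le_mul_of_nonneg_right hKm (by positivity)
        linarith
      have h9 : (P * (2 * m + 2) * κ) ^ 2 = (4 * P ^ 2 * (2 * m + 3)) *
          ((m + 1) ^ 2 * κ ^ 2 / (2 * m + 3)) := by
        field_simp
        ring
      rw [h9]
      have h10 : 1 < ((m : ℝ) + 1) ^ 2 * κ ^ 2 / (2 * m + 3) := by
        rw [lt_div_iff₀ h3]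
        nlinarith
      nlinarith
    by_contra hcon
    push Not at hcon
    have h8 : 0 ≤ P * (2 * m + 2) * κ := by positivity
    nlinarith
  have h7 : 0 < 1 / (2 * (m : ℝ) + 3) := by positivity
  nlinarith

/-- `Σ_{b ∈ B} 1/b` by partial summation. -/
lemma sum_inv_eq (B : Finset ℕ) (T : ℕ) (hB : ∀ b ∈ B, 0 < b ∧ b ≤ T) :
    ∑ b ∈ B, 1 / (b : ℝ) =
      ∑ t ∈ Icc 1 T, ((B.filter (· ≤ t)).card : ℝ) / ((t : ℝ) * (t + 1)) + B.card / (T + 1) := by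
  classical
  obtain ⟨U, hU⟩ : ∃ U : Set ℕ, U = (B : Set ℕ) := ⟨_, rfl⟩
  have hmU : ∀ n, n ∈ U ↔ n ∈ B := fun n => by rw [hU, Finset.mem_coe]
  have h := partial_summation U T
  have e1 : (Icc 1 T).filter (· ∈ U) = B := by
    ext n
    rw [Finset.mem_filter, Finset.mem_Icc, hmU]
    constructor
    · rintro ⟨_, h⟩
      exact h
    · intro h
      exact ⟨⟨(hB n h).1, (hB n h).2⟩, h⟩
  have e2 : ∀ t, N U t = (B.filter (· ≤ t)).card := by
    intro t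
    unfold N
    congr 1
    ext n
    rw [Finset.mem_filter, Finset.mem_Icc, Finset.mem_filter, hmU]
    constructor
    · rintro ⟨h1, h2⟩
      exact ⟨h2, h1.2⟩
    · rintro ⟨h1, h2⟩
      exact ⟨⟨(hB n h1).1, h2⟩, h1⟩
  have e3 : B.filter (· ≤ T) = B := by
    refine Finset.filter_true_of_mem fun b hb => (hB b hb).2
  have e5 : ∑ b ∈ B, 1 / (b : ℝ) = ∑ n ∈ Icc 1 T, (N U n : ℝ) * (1 / n - 1 / (n + 1)) +
      N U T / (T + 1) := by
    rw [← h, e1]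
  rw [e5, e2 T, e3]
  congr 1
  refine Finset.sum_congr rfl fun t ht => ?_
  have ht0 : (0 : ℝ) < t := by exact_mod_cast (Finset.mem_Icc.1 ht).1
  rw [e2]
  field_simp
  ring

/-- The finite bounds already separate `α_k` from `β_k`. -/
lemma separate {k : ℕ} (hk : 3 ≤ k) : ∃ y T, 3 ≤ y ∧ 1 ≤ T ∧ bUp k y T < aLo k y T := by
  classical
  obtain ⟨T0, hT0, hgr⟩ := greedy_fails hk
  obtain ⟨κ, hκ⟩ : ∃ κ : ℝ, κ = 1 / ((T0 : ℝ) * (T0 + 1)) := ⟨_, rfl⟩
  have hT0' : (1 : ℝ) ≤ T0 := by exact_mod_cast hT0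
  have hκ0 : 0 < κ := by
    rw [hκ]
    positivity
  obtain ⟨y, hy, hy3, hyκ⟩ := exists_y hκ0 T0
  obtain ⟨F, hF⟩ : ∃ F, F = 1 - 1 / ((y : ℝ) - 1) := ⟨_, rfl⟩
  have hF0 : 0 ≤ F := hF ▸ factor_nonneg (by omega)
  have hF1 : F ≤ 1 := hF ▸ factor_le_one (by omega)
  have hP := Phi_pos y
  have hP1 := Phi_le_one y
  obtain ⟨gap, hgap⟩ : ∃ gap, gap = Phi y * F * κ - 1 / ((y : ℝ) - 1) := ⟨_, rfl⟩
  have hgap0 : 0 < gap := by
    rw [hgap, hF]
    linarith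
  have hlim1 := (tendsto_sum_S y).eventually_const_lt
    (show (Phi y)⁻¹ - gap / 3 < (Phi y)⁻¹ by linarith)
  have hlim2 := (tendsto_card_S y).eventually_lt_const (show (0 : ℝ) < gap / 3 by linarith)
  obtain ⟨T, h1, h2, h3⟩ := (hlim1.and (hlim2.and (eventually_ge_atTop T0))).exists
  refine ⟨y, T, hy3, by omega, ?_⟩
  obtain ⟨B, hB, hfB, hM⟩ := exists_M (k := k) (by omega) y T
  have hBb : ∀ b ∈ B, 0 < b ∧ b ≤ T := fun b hb =>
    ⟨(mem_S.1 (hB hb)).1.1, (mem_S.1 (hB hb)).1.2⟩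
  have hMeq := sum_inv_eq B T hBb
  obtain ⟨t0, ht0, hlt⟩ := hgr y hy B hfB
  rw [Finset.mem_Icc] at ht0
  have hle : ∀ t, (B.filter (· ≤ t)).card ≤ f k y t := by
    intro t
    refine le_f ?_ (hfB.mono (by
      intro n hn
      rw [Finset.mem_coe, Finset.mem_filter] at hn
      exact hn.1))
    intro n hn
    rw [Finset.mem_filter] at hn
    have := mem_S.1 (hB hn.1)
    rw [mem_S]
    exact ⟨⟨this.1.1, hn.2⟩, this.2⟩
  have hsum : ∑ t ∈ Icc 1 T, ((B.filter (· ≤ t)).card : ℝ) / ((t : ℝ) * (t + 1)) + κ ≤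
      ∑ t ∈ Icc 1 T, (f k y t : ℝ) / ((t : ℝ) * (t + 1)) := by
    have hmem : t0 ∈ Icc 1 T := Finset.mem_Icc.2 ⟨ht0.1, by omega⟩
    rw [← Finset.add_sum_erase _ _ hmem, ← Finset.add_sum_erase (Icc 1 T)
      (fun t : ℕ => (f k y t : ℝ) / ((t : ℝ) * (t + 1))) hmem]
    have h4 : ∑ t ∈ (Icc 1 T).erase t0, ((B.filter (· ≤ t)).card : ℝ) / ((t : ℝ) * (t + 1)) ≤
        ∑ t ∈ (Icc 1 T).erase t0, (f k y t : ℝ) / ((t : ℝ) * (t + 1)) := by
      refine Finset.sum_le_sum fun t _ => ?_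
      refine div_le_div_of_nonneg_right ?_ (by positivity)
      exact_mod_cast hle t
    have ht0' : (1 : ℝ) ≤ t0 := by exact_mod_cast ht0.1
    have ht0T : (t0 : ℝ) ≤ T0 := by exact_mod_cast ht0.2
    have h5 : κ ≤ 1 / ((t0 : ℝ) * (t0 + 1)) := by
      rw [hκ]
      refine one_div_le_one_div_of_le (by positivity) ?_
      nlinarith
    have h6 : ((B.filter (· ≤ t0)).card : ℝ) + 1 ≤ f k y t0 := by exact_mod_cast hlt
    have h7 : ((B.filter (· ≤ t0)).card : ℝ) / ((t0 : ℝ) * (t0 + 1)) + 1 / ((t0 : ℝ) * (t0 + 1)) ≤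
        (f k y t0 : ℝ) / ((t0 : ℝ) * (t0 + 1)) := by
      rw [← add_div]
      exact div_le_div_of_nonneg_right h6 (by positivity)
    linarith
  have hcard : (B.card : ℝ) / (T + 1) < gap / 3 := by
    refine lt_of_le_of_lt ?_ h2
    refine div_le_div_of_nonneg_right ?_ (by positivity)
    exact_mod_cast Finset.card_le_card hB
  have hPM : Phi y * M k y T ≤ 1 :=
    le_trans (mul_le_mul_of_nonneg_left (M_le (by omega) y T) hP.le) (Phi_mul_sum_le y T)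
  have hPinv : Phi y * (Phi y)⁻¹ = 1 := mul_inv_cancel₀ hP.ne'
  have hs1 : 1 - gap / 3 < Phi y * ∑ s ∈ S y T, 1 / (s : ℝ) := by
    have := mul_lt_mul_of_pos_left h1 hP
    have h8 : Phi y * (gap / 3) ≤ gap / 3 := by nlinarith
    nlinarith
  rw [← hM] at hMeq
  have hη : 1 / ((y : ℝ) - 1) = 1 - F := by rw [hF]; ring
  -- assemble
  have hA : Phi y * F * (M k y T - gap / 3 + κ) ≤ aLo k y T := by
    rw [aLo, ← hF]
    refine mul_le_mul_of_nonneg_left ?_ (mul_nonneg hP.le hF0)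
    linarith
  have hPF : Phi y * F ≤ 1 := by nlinarith
  have hPF0 : 0 ≤ Phi y * F := mul_nonneg hP.le hF0
  have h9 : Phi y * F * (gap / 3) ≤ gap / 3 := by nlinarith
  have h10 : Phi y * M k y T * (1 - F) ≤ 1 - F := by nlinarith
  have h11 : Phi y * F * κ = gap + (1 - F) := by
    rw [hgap, hη]
    ring
  have hU : bUp k y T = 1 - Phi y * ∑ s ∈ S y T, 1 / (s : ℝ) + Phi y * M k y T := by
    rw [bUp]
    ring
  have h12 : Phi y * F * (M k y T - gap / 3 + κ) =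
      Phi y * M k y T - Phi y * M k y T * (1 - F) - Phi y * F * (gap / 3) + Phi y * F * κ := by
    ring
  rw [hU]
  rw [h12] at hA
  linarith

end Pool.Agent.Helper54.GP
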