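import Pool.Agent.Helper54.GP.Count2

/-!
# Upper bounds for logarithmic sums and counting functions of free sets
-/

namespace Pool.Agent.Helper54.GP

open Finset Filter Topology
open Pool.Agent.Helper54.SigmaDens (N N_mono N_le partial_summation)

/-! ### The optima `M` and `f` -/

lemma M_set_finite (k y T : ℕ) :
    {w : ℝ | ∃ B ⊆ S y T, Free k (B : Set ℕ) ∧ w = ∑ b ∈ B, 1 / (b : ℝ)}.Finite := by
  refine Set.Finite.subset (Set.Finite.image (fun B : Finset ℕ => ∑ b ∈ B, 1 / (b : ℝ))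
    (Finset.finite_toSet (S y T).powerset)) ?_
  rintro w ⟨B, hB, _, rfl⟩
  exact ⟨B, by rw [Finset.mem_coe, Finset.mem_powerset]; exact hB, rfl⟩

lemma le_M {k y T : ℕ} {B : Finset ℕ} (hB : B ⊆ S y T) (hf : Free k (B : Set ℕ)) :
    ∑ b ∈ B, 1 / (b : ℝ) ≤ M k y T :=
  le_csSup (M_set_finite k y T).bddAbove ⟨B, hB, hf, rfl⟩

lemma exists_M {k : ℕ} (hk : 0 < k) (y T : ℕ) :
    ∃ B ⊆ S y T, Free k (B : Set ℕ) ∧ M k y T = ∑ b ∈ B, 1 / (b : ℝ) := by
  have hne : {w : ℝ | ∃ B ⊆ S y T, Free k (B : Set ℕ) ∧ w = ∑ b ∈ B, 1 / (b : ℝ)}.Nonempty :=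
    ⟨_, ∅, Finset.empty_subset _, by simpa using free_empty k hk, rfl⟩
  exact hne.csSup_mem (M_set_finite k y T)

lemma M_nonneg {k : ℕ} (hk : 0 < k) (y T : ℕ) : 0 ≤ M k y T := by
  obtain ⟨B, _, _, h⟩ := exists_M hk y T
  rw [h]
  positivity

lemma M_le {k : ℕ} (hk : 0 < k) (y T : ℕ) : M k y T ≤ ∑ s ∈ S y T, 1 / (s : ℝ) := by
  obtain ⟨B, hB, _, h⟩ := exists_M hk y T
  rw [h]
  exact Finset.sum_le_sum_of_subset_of_nonneg hB fun _ _ _ => by positivity

lemma f_set_finite (k y t : ℕ) :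
    {c : ℕ | ∃ B ⊆ S y t, Free k (B : Set ℕ) ∧ c = B.card}.Finite := by
  refine Set.Finite.subset (Set.Finite.image (fun B : Finset ℕ => B.card)
    (Finset.finite_toSet (S y t).powerset)) ?_
  rintro w ⟨B, hB, _, rfl⟩
  exact ⟨B, by rw [Finset.mem_coe, Finset.mem_powerset]; exact hB, rfl⟩

lemma le_f {k y t : ℕ} {B : Finset ℕ} (hB : B ⊆ S y t) (hf : Free k (B : Set ℕ)) :
    B.card ≤ f k y t :=
  le_csSup (f_set_finite k y t).bddAbove ⟨B, hB, hf, rfl⟩

lemma exists_f {k : ℕ} (hk : 0 < k) (y t : ℕ) :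
    ∃ B ⊆ S y t, Free k (B : Set ℕ) ∧ f k y t = B.card := by
  have hne : {c : ℕ | ∃ B ⊆ S y t, Free k (B : Set ℕ) ∧ c = B.card}.Nonempty :=
    ⟨_, ∅, Finset.empty_subset _, by simpa using free_empty k hk, rfl⟩
  exact hne.csSup_mem (f_set_finite k y t)

lemma f_le {k : ℕ} (hk : 0 < k) (y t : ℕ) : f k y t ≤ (S y t).card := by
  obtain ⟨B, hB, _, h⟩ := exists_f hk y t
  rw [h]
  exact Finset.card_le_card hB

/-! ### The logarithmic upper bound -/

open Classical in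
/-- The logarithmic sum of `A` up to `x`. -/
noncomputable def LS (A : Set ℕ) (x : ℕ) : ℝ := ∑ n ∈ (Icc 1 x).filter (· ∈ A), (1 : ℝ) / n

lemma LS_rough_ge (y z : ℕ) : Phi y * (Real.log (z + 1) - 1) - W y ≤ LS (Rough y) z := by
  classical
  have e : ∀ z : ℕ, (harmonic z : ℝ) = ∑ n ∈ Icc 1 z, (1 : ℝ) / n := by
    intro z
    rw [harmonic_eq_sum_Icc]
    push_cast
    refine Finset.sum_congr rfl fun n _ => ?_
    rw [one_div]
  have hP := Phi_pos y
  have hW : (0 : ℝ) < W y := by exact_mod_cast W_pos y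
  have hterm : ∀ n : ℕ, 1 ≤ n → Phi y * (1 / ((n : ℝ) + 1)) - W y * (1 / n - 1 / (n + 1)) ≤
      (N (Rough y) n : ℝ) * (1 / n - 1 / (n + 1)) := by
    intro n hn
    have hn' : (1 : ℝ) ≤ n := by exact_mod_cast hn
    have h1 := (abs_le.1 (rough_count y n)).1
    have h2 : (1 : ℝ) / n - 1 / (n + 1) = 1 / (n * (n + 1)) := by
      field_simp
      ring
    have h3 : Phi y * (1 / ((n : ℝ) + 1)) = Phi y * n * (1 / n - 1 / (n + 1)) := by
      rw [h2]
      field_simp
    have h4 : (0 : ℝ) ≤ 1 / n - 1 / (n + 1) := by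
      rw [h2]
      positivity
    rw [h3, ← sub_mul]
    exact mul_le_mul_of_nonneg_right (by linarith) h4
  rw [LS, partial_summation]
  have h1 : ∑ n ∈ Icc 1 z, (Phi y * (1 / ((n : ℝ) + 1)) - W y * (1 / n - 1 / (n + 1))) ≤
      ∑ n ∈ Icc 1 z, (N (Rough y) n : ℝ) * (1 / n - 1 / (n + 1)) :=
    Finset.sum_le_sum fun n hn => hterm n (Finset.mem_Icc.1 hn).1
  have h2 : ∑ n ∈ Icc 1 z, ((1 : ℝ) / n - 1 / (n + 1)) = 1 - 1 / (z + 1) := by
    induction z with
    | zero => simp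
    | succ z ih =>
      rw [Finset.sum_Icc_succ_top (by omega)]
      have := ih (by
        refine Finset.sum_le_sum fun n hn => hterm n (Finset.mem_Icc.1 hn).1)
      rw [this]
      push_cast
      ring
  have h3 : ∑ n ∈ Icc 1 z, (1 : ℝ) / ((n : ℝ) + 1) = harmonic (z + 1) - 1 := by
    rw [e]
    clear h1 h2
    induction z with
    | zero => simp
    | succ z ih =>
      rw [Finset.sum_Icc_succ_top (by omega), ih, Finset.sum_Icc_succ_top (b := z + 1) (by omega)]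
      push_cast
      ring
  rw [Finset.sum_sub_distrib, ← Finset.mul_sum, ← Finset.mul_sum, h2, h3] at h1
  have h4 : Real.log (z + 1) ≤ (harmonic (z + 1) : ℝ) := by
    have := log_add_one_le_harmonic (z + 1)
    refine le_trans (Real.log_le_log (by positivity) ?_) this
    push_cast
    linarith
  have h5 : (0 : ℝ) ≤ (N (Rough y) z : ℝ) / (z + 1) := by positivity
  have h6 : (0 : ℝ) ≤ 1 / ((z : ℝ) + 1) := by positivity
  have h7 := mul_le_mul_of_nonneg_left h4 hP.le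
  have h8 := mul_nonneg hW.le h6
  nlinarith

lemma logsum_compl {k y T : ℕ} (hT : 1 ≤ T) {A : Set ℕ} (hA : Free k A) (x : ℕ) :
    (∑ s ∈ S y T, 1 / (s : ℝ) - M k y T) * LS (Rough y) (x / T) ≤ LS Aᶜ x := by
  classical
  obtain ⟨U, hU⟩ : ∃ U : Set ℕ, U = Aᶜ := ⟨_, rfl⟩
  have hmU : ∀ n, n ∈ U ↔ n ∉ A := fun n => by rw [hU, Set.mem_compl_iff]
  rw [← hU]
  obtain ⟨P, hPdef⟩ : ∃ P : Finset (ℕ × ℕ), P = ((S y T) ×ˢ ((Icc 1 (x / T)).filter (· ∈ Rough y))).filter
      (fun p => p.1 * p.2 ∉ A) := ⟨_, rfl⟩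
  have hP : ∀ p ∈ P, 0 < p.1 ∧ Sm y p.1 ∧ p.2 ∈ Rough y := by
    intro p hp
    rw [hPdef, Finset.mem_filter, Finset.mem_product, mem_S, Finset.mem_filter] at hp
    exact ⟨hp.1.1.1.1, hp.1.1.2, hp.1.2.2⟩
  have h1 := sum_pairs P hP (fun n => 1 / (n : ℝ))
  have hsub : P.image (fun p => p.1 * p.2) ⊆ (Icc 1 x).filter (· ∈ U) := by
    intro n hn
    rw [Finset.mem_image] at hn
    obtain ⟨p, hp, rfl⟩ := hn
    rw [hPdef, Finset.mem_filter, Finset.mem_product, mem_S, Finset.mem_filter, Finset.mem_Icc] at hp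
    obtain ⟨⟨⟨⟨h1, h2⟩, h3⟩, ⟨⟨h4, h5⟩, h6⟩⟩, h7⟩ := hp
    rw [Finset.mem_filter, Finset.mem_Icc, hmU]
    refine ⟨⟨Nat.mul_pos h1 h4, ?_⟩, h7⟩
    calc p.1 * p.2 ≤ T * (x / T) := Nat.mul_le_mul h2 h5
      _ ≤ x := Nat.mul_div_le x T
  have h2 : ∑ n ∈ P.image (fun p : ℕ × ℕ => (p.1 * p.2 : ℕ)), 1 / ((n : ℕ) : ℝ) ≤ LS U x := by
    rw [LS]
    exact Finset.sum_le_sum_of_subset_of_nonneg hsub fun _ _ _ => by positivity
  refine le_trans ?_ h2
  rw [h1]
  have h3 : ∑ p ∈ P, 1 / ((p.1 * p.2 : ℕ) : ℝ) =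
      ∑ m ∈ (Icc 1 (x / T)).filter (· ∈ Rough y),
        (1 / (m : ℝ)) * ∑ s ∈ (S y T).filter (fun s => s * m ∉ A), 1 / (s : ℝ) := by
    rw [hPdef, Finset.sum_filter, Finset.sum_product_right]
    refine Finset.sum_congr rfl fun m _ => ?_
    rw [Finset.mul_sum, Finset.sum_filter]
    refine Finset.sum_congr rfl fun s _ => ?_
    split_ifs
    · rfl
    · push_cast
      rw [one_div_mul_one_div]
      ring_nf
  rw [h3, LS, Finset.mul_sum]
  refine Finset.sum_le_sum fun m hm => ?_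
  rw [Finset.mem_filter, Finset.mem_Icc] at hm
  have hm0 : 0 < m := hm.1.1
  rw [mul_comm]
  refine mul_le_mul_of_nonneg_left ?_ (by positivity)
  have h4 : ∑ s ∈ S y T, 1 / (s : ℝ) = ∑ s ∈ (S y T).filter (fun s => s * m ∈ A), 1 / (s : ℝ) +
      ∑ s ∈ (S y T).filter (fun s => s * m ∉ A), 1 / (s : ℝ) :=
    (Finset.sum_filter_add_sum_filter_not _ _ _).symm
  have h5 : ∑ s ∈ (S y T).filter (fun s => s * m ∈ A), 1 / (s : ℝ) ≤ M k y T := by
    refine le_M (Finset.filter_subset _ _) ?_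
    refine (hA.section hm0).mono ?_
    intro s hs
    rw [Finset.coe_filter] at hs
    exact hs.2
  linarith

lemma LS_add_compl (A : Set ℕ) (x : ℕ) : LS A x + LS Aᶜ x = (harmonic x : ℝ) := by
  classical
  rw [LS, LS, harmonic_eq_sum_Icc]
  push_cast
  have := Finset.sum_filter_add_sum_filter_not (Icc 1 x) (· ∈ A) (fun n => (1 : ℝ) / n)
  simp only [Set.mem_compl_iff]
  simp only [one_div] at this ⊢
  exact this

/-- The logarithmic upper bound for free sets. -/
lemma log_upper {k y T : ℕ} (hk : 0 < k) (hT : 1 ≤ T) {A : Set ℕ} (hA : Free k A) :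
    ∃ C : ℝ, ∀ x : ℕ, 1 ≤ x →
      LS A x ≤ (1 - Phi y * (∑ s ∈ S y T, 1 / (s : ℝ) - M k y T)) * Real.log x + C := by
  obtain ⟨E, hE⟩ : ∃ E, E = ∑ s ∈ S y T, 1 / (s : ℝ) - M k y T := ⟨_, rfl⟩
  have hE0 : 0 ≤ E := by rw [hE]; linarith [M_le hk y T]
  rw [← hE]
  refine ⟨1 + E * (Phi y * (Real.log T + 1) + W y), fun x hx => ?_⟩
  have h1 := LS_add_compl A x
  have h2 := logsum_compl (y := y) hT hA x
  rw [← hE] at h2
  have h3 := LS_rough_ge y (x / T)
  have h4 : Real.log x - Real.log T ≤ Real.log (((x / T : ℕ) : ℝ) + 1) := by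
    have hx' : (0 : ℝ) < x := by exact_mod_cast hx
    have hT' : (0 : ℝ) < T := by exact_mod_cast hT
    rw [← Real.log_div hx'.ne' hT'.ne']
    refine Real.log_le_log (by positivity) ?_
    have := (Nat.lt_floor_add_one ((x : ℝ) / (T : ℝ))).le
    rwa [Nat.floor_div_natCast, Nat.floor_natCast] at this
  have h5 : (harmonic x : ℝ) ≤ 1 + Real.log x := harmonic_le_one_add_log x
  have hP := Phi_pos y
  have h6 : Phi y * (Real.log x - Real.log T - 1) - W y ≤ LS (Rough y) (x / T) := by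
    have := mul_le_mul_of_nonneg_left h4 hP.le
    linarith
  have h7 := mul_le_mul_of_nonneg_left h6 hE0
  nlinarith

/-- A lower bound for the counting function gives one for the logarithmic sum. -/
lemma LS_ge {A : Set ℕ} {μ : ℝ} (hμ0 : 0 ≤ μ) (hμ : ∀ᶠ x : ℕ in atTop, μ ≤ (N A x : ℝ) / x) :
    ∃ C : ℝ, ∀ᶠ x : ℕ in atTop, μ * Real.log x - C ≤ LS A x := by
  classical
  obtain ⟨K, hK⟩ := eventually_atTop.1 hμ
  refine ⟨μ * (1 + Real.log (K + 1)), ?_⟩
  filter_upwards [eventually_ge_atTop (K + 2)] with x hx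
  have h3 : μ * ∑ n ∈ Ioc K x, (1 : ℝ) / (n + 1) ≤ LS A x := by
    rw [LS, partial_summation]
    have h4 : ∑ n ∈ Ioc K x, μ * ((1 : ℝ) / (n + 1)) ≤
        ∑ n ∈ Icc 1 x, (N A n : ℝ) * (1 / n - 1 / (n + 1)) := by
      refine le_trans (Finset.sum_le_sum (g := fun n : ℕ => (N A n : ℝ) * (1 / n - 1 / (n + 1)))
        fun n hn => ?_) (Finset.sum_le_sum_of_subset_of_nonneg ?_ fun n hn _ => ?_)
      · rw [Finset.mem_Ioc] at hn
        have hn0 : (0 : ℝ) < n := by exact_mod_cast (by omega : 0 < n)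
        have h5 := hK n hn.1.le
        rw [le_div_iff₀ hn0] at h5
        have h6 : (1 : ℝ) / n - 1 / (n + 1) = 1 / (n * (n + 1)) := by
          field_simp
          ring
        rw [h6]
        calc μ * ((1 : ℝ) / (n + 1)) = (μ * n) * (1 / (n * (n + 1))) := by field_simp
          _ ≤ N A n * (1 / (n * (n + 1))) := mul_le_mul_of_nonneg_right h5 (by positivity)
      · intro n hn
        rw [Finset.mem_Ioc] at hn
        rw [Finset.mem_Icc]
        omega
      · rw [Finset.mem_Icc] at hn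
        have hn0 : (0 : ℝ) < n := by exact_mod_cast (by omega : 0 < n)
        have h6 : (1 : ℝ) / n - 1 / (n + 1) = 1 / (n * (n + 1)) := by
          field_simp
          ring
        rw [h6]
        positivity
    rw [Finset.mul_sum]
    have h7 : (0 : ℝ) ≤ N A x / (x + 1) := by positivity
    linarith
  have h4 : Real.log x - (1 + Real.log (K + 1)) ≤ ∑ n ∈ Ioc K x, (1 : ℝ) / (n + 1) := by
    have e : ∀ z : ℕ, (harmonic z : ℝ) = ∑ n ∈ Icc 1 z, (1 : ℝ) / n := by
      intro z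
      rw [harmonic_eq_sum_Icc]
      push_cast
      refine Finset.sum_congr rfl fun n _ => ?_
      rw [one_div]
    have h5 : (harmonic (K + 1) : ℝ) ≤ 1 + Real.log (K + 1 : ℕ) := harmonic_le_one_add_log (K + 1)
    have h6 : Real.log (x + 1 + 1 : ℕ) ≤ (harmonic (x + 1) : ℝ) := log_add_one_le_harmonic (x + 1)
    have h7 : Real.log x ≤ Real.log (x + 1 + 1 : ℕ) := by
      refine Real.log_le_log (by exact_mod_cast (by omega : 0 < x)) ?_
      push_cast
      linarith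
    have h8 : (harmonic (x + 1) : ℝ) = harmonic (K + 1) + ∑ n ∈ Ioc K x, (1 : ℝ) / (n + 1) := by
      rw [e, e]
      have h9 : ∑ n ∈ Ioc K x, (1 : ℝ) / (n + 1) = ∑ n ∈ Ioc (K + 1) (x + 1), (1 : ℝ) / n := by
        have := Finset.sum_bij (s := Ioc K x) (t := Ioc (K + 1) (x + 1))
          (f := fun n : ℕ => (1 : ℝ) / (n + 1)) (g := fun n : ℕ => (1 : ℝ) / n)
          (fun n _ => n + 1) (fun n hn => by
            rw [Finset.mem_Ioc] at hn ⊢
            omega) (fun a _ b _ hab => by omega) (fun b hb => by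
            rw [Finset.mem_Ioc] at hb
            exact ⟨b - 1, by rw [Finset.mem_Ioc]; omega, by omega⟩) (fun n _ => by
            push_cast
            rfl)
        exact this
      rw [h9, ← Finset.sum_union]
      · congr 1
        ext n
        simp only [Finset.mem_Icc, Finset.mem_union, Finset.mem_Ioc]
        omega
      · rw [Finset.disjoint_left]
        intro n hn hn2
        rw [Finset.mem_Icc] at hn
        rw [Finset.mem_Ioc] at hn2
        omega
    push_cast at h5 h6 h7 h8 ⊢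
    linarith
  have := mul_le_mul_of_nonneg_left h4 hμ0
  nlinarith

lemma le_of_log {a b C : ℝ} (h : ∀ᶠ x : ℕ in atTop, a * Real.log x ≤ b * Real.log x + C) :
    a ≤ b := by
  by_contra hlt
  push Not at hlt
  have h1 : Tendsto (fun x : ℕ => (a - b) * Real.log x) atTop atTop :=
    Tendsto.const_mul_atTop (by linarith) (Real.tendsto_log_atTop.comp tendsto_natCast_atTop_atTop)
  obtain ⟨x, hx1, hx2⟩ := (h.and (h1.eventually_gt_atTop C)).exists
  nlinarith

/-- A free set cannot have a lower density above the logarithmic bound. -/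
lemma lower_le_bound {k y T : ℕ} (hk : 0 < k) (hT : 1 ≤ T) {A : Set ℕ} (hA : Free k A) {μ : ℝ}
    (hμ : ∀ᶠ x : ℕ in atTop, μ ≤ (N A x : ℝ) / x) :
    μ ≤ 1 - Phi y * (∑ s ∈ S y T, 1 / (s : ℝ) - M k y T) := by
  classical
  obtain ⟨C, hC⟩ := log_upper (y := y) hk hT hA
  rcases le_or_gt 0 μ with h0 | h0
  · obtain ⟨C', hC'⟩ := LS_ge h0 hμ
    refine le_of_log (C := C + C') ?_
    filter_upwards [hC', eventually_ge_atTop 1] with x h1 h2
    linarith [hC x h2]
  · refine h0.le.trans (le_of_log (C := C) ?_)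
    filter_upwards [eventually_ge_atTop 1] with x h2
    have h3 := hC x h2
    have h4 : 0 ≤ LS A x := by
      rw [LS]
      positivity
    linarith

end Pool.Agent.Helper54.GP
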