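import Pool.Agent.Helper54.GP.Upper

/-!
# Upper bound for the counting function of free sets
-/

namespace Pool.Agent.Helper54.GP

open Finset Filter Topology
open Pool.Agent.Helper54.SigmaDens (N N_mono N_le)

lemma div_eq_of_mem {x t m : ℕ} (h : m ∈ Ioc (x / (t + 1)) (x / t)) (ht : 0 < t) :
    x / m = t ∧ 0 < m ∧ m ≤ x := by
  rw [Finset.mem_Ioc] at h
  obtain ⟨h1, h2⟩ := h
  have hm : 0 < m := Nat.lt_of_le_of_lt (Nat.zero_le _) h1
  rw [Nat.div_lt_iff_lt_mul (by omega)] at h1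
  rw [Nat.le_div_iff_mul_le ht] at h2
  refine ⟨Nat.div_eq_of_lt_le (by linarith [mul_comm t m]) (by linarith [mul_comm m (t + 1)]), hm, ?_⟩
  nlinarith

lemma interval_ge (y x t : ℕ) (ht : 0 < t) :
    Phi y * (x / ((t : ℝ) * (t + 1))) - (2 * W y + 1) ≤
      (N (Rough y) (x / t) : ℝ) - N (Rough y) (x / (t + 1)) := by
  have h3 := rough_count y (x / t)
  have h4 := rough_count y (x / (t + 1))
  rw [abs_le] at h3 h4
  have ht' : (0 : ℝ) < t := by exact_mod_cast ht
  have h5 : ((x / (t + 1) : ℕ) : ℝ) ≤ x / ((t : ℝ) + 1) := by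
    have := @Nat.cast_div_le ℝ _ _ _ x (t + 1)
    push_cast at this
    exact this
  have h6 : (x : ℝ) / t - 1 ≤ ((x / t : ℕ) : ℝ) := by
    have := Nat.lt_floor_add_one ((x : ℝ) / (t : ℝ))
    rw [Nat.floor_div_natCast, Nat.floor_natCast] at this
    linarith
  have hP := Phi_pos y
  have hP1 := Phi_le_one y
  have h7 := mul_le_mul_of_nonneg_left h5 hP.le
  have h8 := mul_le_mul_of_nonneg_left h6 hP.le
  have h9 : (x : ℝ) / ((t : ℝ) * (t + 1)) = x / t - x / (t + 1) := by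
    field_simp
    ring
  rw [h9]
  nlinarith

lemma count_upper {k y : ℕ} (hk : 0 < k) (T : ℕ) {A : Set ℕ} (hA : Free k A) :
    ∃ C : ℝ, ∀ x : ℕ, (N A x : ℝ) ≤
      (1 - Phi y * ∑ t ∈ Icc 1 T, (((S y t).card : ℝ) - f k y t) / ((t : ℝ) * (t + 1))) * x + C := by
  classical
  refine ⟨∑ t ∈ Icc 1 T, (((S y t).card : ℝ) - f k y t) * (2 * W y + 1), fun x => ?_⟩
  obtain ⟨U, hU⟩ : ∃ U : Set ℕ, U = Aᶜ := ⟨_, rfl⟩
  have hmU : ∀ n, n ∈ U ↔ n ∉ A := fun n => by rw [hU, Set.mem_compl_iff]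
  have hcompl := N_compl A x
  rw [← hU] at hcompl
  -- the pairs
  obtain ⟨Pt, hPt⟩ : ∃ Pt : ℕ → Finset (ℕ × ℕ), Pt = fun t =>
      ((S y t) ×ˢ ((Ioc (x / (t + 1)) (x / t)).filter (· ∈ Rough y))).filter
        (fun p => p.1 * p.2 ∉ A) := ⟨_, rfl⟩
  have hmem : ∀ t p, p ∈ Pt t ↔ (p.1 ∈ S y t ∧ p.2 ∈ Ioc (x / (t + 1)) (x / t) ∧ p.2 ∈ Rough y) ∧
      p.1 * p.2 ∉ A := by
    intro t p
    rw [hPt]
    simp only [Finset.mem_filter, Finset.mem_product]
  obtain ⟨P, hP⟩ : ∃ P, P = (Icc 1 T).biUnion Pt := ⟨_, rfl⟩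
  have hP1 : ∀ p ∈ P, 0 < p.1 ∧ Sm y p.1 ∧ p.2 ∈ Rough y := by
    intro p hp
    rw [hP, Finset.mem_biUnion] at hp
    obtain ⟨t, _, hpt⟩ := hp
    rw [hmem, mem_S] at hpt
    exact ⟨hpt.1.1.1.1, hpt.1.1.2, hpt.1.2.2⟩
  have hsub : P.image (fun p => p.1 * p.2) ⊆ (Icc 1 x).filter (· ∈ U) := by
    intro n hn
    rw [Finset.mem_image] at hn
    obtain ⟨p, hp, rfl⟩ := hn
    have h0 := hP1 p hp
    rw [hP, Finset.mem_biUnion] at hp
    obtain ⟨t, ht, hpt⟩ := hp
    rw [hmem, mem_S] at hpt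
    rw [Finset.mem_Icc] at ht
    have h3 := div_eq_of_mem hpt.1.2.1 ht.1
    rw [Finset.mem_filter, Finset.mem_Icc, hmU]
    refine ⟨⟨Nat.mul_pos h0.1 h0.2.2.1, ?_⟩, hpt.2⟩
    calc p.1 * p.2 ≤ (x / p.2) * p.2 := Nat.mul_le_mul_right _ (by rw [h3.1]; exact hpt.1.1.1.2)
      _ ≤ x := Nat.div_mul_le_self x p.2
  have hcardP : P.card ≤ N U x := by
    rw [← card_pairs P hP1]
    exact Finset.card_le_card hsub
  have hdisj : P.card = ∑ t ∈ Icc 1 T, (Pt t).card := by
    rw [hP, Finset.card_biUnion]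
    intro t ht t' ht' hne
    rw [Function.onFun, Finset.disjoint_left]
    intro p hp hp'
    rw [hmem] at hp hp'
    have h1 := div_eq_of_mem hp.1.2.1 (Finset.mem_Icc.1 ht).1
    have h2 := div_eq_of_mem hp'.1.2.1 (Finset.mem_Icc.1 ht').1
    exact hne (h1.1.symm.trans h2.1)
  have hPtcard : ∀ t ∈ Icc 1 T, (((S y t).card : ℝ) - f k y t) *
      ((N (Rough y) (x / t) : ℝ) - N (Rough y) (x / (t + 1))) ≤ (Pt t).card := by
    intro t ht
    rw [Finset.mem_Icc] at ht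
    have hle : x / (t + 1) ≤ x / t := Nat.div_le_div_left (by omega) ht.1
    have h1 : ((N (Rough y) (x / t) : ℝ) - N (Rough y) (x / (t + 1))) =
        ((Ioc (x / (t + 1)) (x / t)).filter (· ∈ Rough y)).card := by
      have := N_Ioc (Rough y) hle
      have h' : (N (Rough y) (x / t) : ℝ) = N (Rough y) (x / (t + 1)) +
        ((Ioc (x / (t + 1)) (x / t)).filter (· ∈ Rough y)).card := by exact_mod_cast this
      rw [h']
      ring
    have h2 : (Pt t).card = ∑ m ∈ (Ioc (x / (t + 1)) (x / t)).filter (· ∈ Rough y),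
        ((S y t).filter (fun s => s * m ∉ A)).card := by
      rw [hPt]
      simp only
      rw [Finset.card_filter, Finset.sum_product_right]
      refine Finset.sum_congr rfl fun m _ => ?_
      rw [Finset.card_filter]
    rw [h1, h2]
    push_cast
    rw [mul_comm, ← nsmul_eq_mul]
    refine Finset.card_nsmul_le_sum _ _ _ fun m hm => ?_
    rw [Finset.mem_filter] at hm
    have h3 : (S y t).card = ((S y t).filter (fun s => s * m ∈ A)).card +
        ((S y t).filter (fun s => s * m ∉ A)).card :=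
      (Finset.card_filter_add_card_filter_not _).symm
    have h4 : ((S y t).filter (fun s => s * m ∈ A)).card ≤ f k y t := by
      refine le_f (Finset.filter_subset _ _) ?_
      refine (hA.section hm.2.1).mono ?_
      intro s hs
      rw [Finset.coe_filter] at hs
      exact hs.2
    have h3' : ((S y t).card : ℝ) = ((S y t).filter (fun s => s * m ∈ A)).card +
        ((S y t).filter (fun s => s * m ∉ A)).card := by exact_mod_cast h3
    have h4' : (((S y t).filter (fun s => s * m ∈ A)).card : ℝ) ≤ f k y t := by exact_mod_cast h4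
    linarith
  have hfinal : ∑ t ∈ Icc 1 T, (((S y t).card : ℝ) - f k y t) *
      (Phi y * (x / ((t : ℝ) * (t + 1))) - (2 * W y + 1)) ≤ P.card := by
    rw [hdisj]
    push_cast
    refine Finset.sum_le_sum fun t ht => le_trans ?_ (hPtcard t ht)
    refine mul_le_mul_of_nonneg_left (interval_ge y x t (Finset.mem_Icc.1 ht).1) ?_
    have : (f k y t : ℝ) ≤ (S y t).card := by exact_mod_cast f_le hk y t
    linarith
  have h1 : ∑ t ∈ Icc 1 T, (((S y t).card : ℝ) - f k y t) *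
      (Phi y * (x / ((t : ℝ) * (t + 1))) - (2 * W y + 1)) =
      Phi y * (∑ t ∈ Icc 1 T, (((S y t).card : ℝ) - f k y t) / ((t : ℝ) * (t + 1))) * x -
      ∑ t ∈ Icc 1 T, (((S y t).card : ℝ) - f k y t) * (2 * W y + 1) := by
    rw [Finset.mul_sum, Finset.sum_mul, ← Finset.sum_sub_distrib]
    refine Finset.sum_congr rfl fun t _ => ?_
    ring
  have h2 : (P.card : ℝ) ≤ N U x := by exact_mod_cast hcardP
  have h3 : (N A x : ℝ) + N U x = x := by exact_mod_cast hcompl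
  rw [h1] at hfinal
  nlinarith

/-! ### Upper density -/

lemma ratio_nonneg (A : Set ℕ) (x : ℕ) : 0 ≤ (N A x : ℝ) / x := by positivity

lemma ratio_le_one (A : Set ℕ) (x : ℕ) : (N A x : ℝ) / x ≤ 1 := by
  rcases Nat.eq_zero_or_pos x with rfl | hx
  · simp
  · have hx' : (0 : ℝ) < x := by exact_mod_cast hx
    rw [div_le_one hx']
    exact_mod_cast N_le A x

lemma ratio_bdd_above (A : Set ℕ) : IsBoundedUnder (· ≤ ·) atTop (fun x : ℕ => (N A x : ℝ) / x) :=
  isBoundedUnder_of ⟨1, fun x => ratio_le_one A x⟩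

lemma ratio_bdd_below (A : Set ℕ) : IsBoundedUnder (· ≥ ·) atTop (fun x : ℕ => (N A x : ℝ) / x) :=
  isBoundedUnder_of ⟨0, fun x => ratio_nonneg A x⟩

lemma upperDensity_le {A : Set ℕ} {b : ℝ} (h : ∀ᶠ x : ℕ in atTop, (N A x : ℝ) / x ≤ b) :
    upperDensity A ≤ b :=
  limsup_le_of_le (ratio_bdd_below A).isCoboundedUnder_le h

lemma upperDensity_le_of_linear {A : Set ℕ} {b C : ℝ} (h : ∀ x : ℕ, (N A x : ℝ) ≤ b * x + C) :
    upperDensity A ≤ b := by
  refine le_of_forall_pos_le_add fun ε hε => ?_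
  refine upperDensity_le ?_
  have h1 : Tendsto (fun x : ℕ => C / (x : ℝ)) atTop (𝓝 0) := tendsto_const_div_atTop_nhds_zero_nat C
  filter_upwards [h1.eventually_lt_const hε, eventually_gt_atTop 0] with x hx hx0
  have hx' : (0 : ℝ) < x := by exact_mod_cast hx0
  have h2 := h x
  have h3 : (N A x : ℝ) / x ≤ (b * x + C) / x := div_le_div_of_nonneg_right h2 hx'.le
  have h4 : (b * x + C) / x = b + C / x := by field_simp
  linarith

lemma upperDensity_ge {A : Set ℕ} {b : ℝ} (h : ∃ᶠ x : ℕ in atTop, b ≤ (N A x : ℝ) / x) :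
    b ≤ upperDensity A :=
  le_limsup_of_frequently_le h (ratio_bdd_above A)

lemma upperDensity_le_bound {k : ℕ} (hk : 0 < k) (y T : ℕ) {A : Set ℕ} (hA : Free k A) :
    upperDensity A ≤
      1 - Phi y * ∑ t ∈ Icc 1 T, (((S y t).card : ℝ) - f k y t) / ((t : ℝ) * (t + 1)) := by
  obtain ⟨C, hC⟩ := count_upper (y := y) hk T hA
  exact upperDensity_le_of_linear hC

end Pool.Agent.Helper54.GP
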