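import Pool.Agent.Helper54.GP.Lower

/-!
# The finite bounds converge
-/

namespace Pool.Agent.Helper54.GP

open Finset Filter Topology
open Pool.Agent.Helper54.SigmaDens (N N_mono N_le partial_summation)

/-- The monoid homomorphism `n ↦ 1/n`. -/
noncomputable def invHom : ℕ →* ℝ where
  toFun n := (n : ℝ)⁻¹
  map_one' := by simp
  map_mul' m n := by
    push_cast
    rw [mul_inv]

lemma hasSum_smooth (y : ℕ) :
    HasSum (fun m : Nat.smoothNumbers y => (((m : ℕ) : ℝ))⁻¹) (Phi y)⁻¹ := by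
  have h := (EulerProduct.summable_and_hasSum_smoothNumbers_prod_primesBelow_geometric
    (f := invHom) (by
      intro p hp
      have hp2 : (2 : ℝ) ≤ p := by exact_mod_cast hp.two_le
      show ‖((p : ℝ))⁻¹‖ < 1
      rw [norm_inv, Real.norm_natCast]
      exact inv_lt_one_of_one_lt₀ (by linarith)) y).2
  have e : (∏ p ∈ Nat.primesBelow y, (1 - invHom p)⁻¹) = (Phi y)⁻¹ := by
    rw [Phi, ← Finset.prod_inv_distrib]
    refine Finset.prod_congr rfl fun p _ => ?_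
    rw [one_div]
    rfl
  rw [e] at h
  exact h

lemma sum_S_eq (y T : ℕ) : ∑ s ∈ S y T, 1 / (s : ℝ) =
    ∑ n ∈ range (T + 1), (Nat.smoothNumbers y).indicator (fun n : ℕ => ((n : ℝ))⁻¹) n := by
  classical
  rw [S, Finset.sum_filter]
  symm
  have h1 : range (T + 1) = insert 0 (Icc 1 T) := by
    ext n
    rw [Finset.mem_range, Finset.mem_insert, Finset.mem_Icc]
    omega
  rw [h1, Finset.sum_insert (by simp)]
  have h2 : (Nat.smoothNumbers y).indicator (fun n : ℕ => ((n : ℝ))⁻¹) 0 = 0 := by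
    rw [Set.indicator_apply]
    split_ifs <;> simp
  rw [h2, zero_add]
  refine Finset.sum_congr rfl fun n _ => ?_
  rw [Set.indicator_apply, one_div]

lemma tendsto_sum_S (y : ℕ) :
    Tendsto (fun T => ∑ s ∈ S y T, 1 / (s : ℝ)) atTop (𝓝 (Phi y)⁻¹) := by
  have h1 := hasSum_smooth y
  have h2 : HasSum ((fun n : ℕ => ((n : ℝ))⁻¹) ∘ ((↑) : Nat.smoothNumbers y → ℕ)) (Phi y)⁻¹ := h1
  rw [hasSum_subtype_iff_indicator] at h2
  have h3 := h2.tendsto_sum_nat.comp (tendsto_add_atTop_nat 1)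
  refine h3.congr fun T => ?_
  rw [sum_S_eq]
  rfl

lemma sum_S_mono (y : ℕ) : Monotone (fun T => ∑ s ∈ S y T, 1 / (s : ℝ)) := by
  intro T T' h
  exact Finset.sum_le_sum_of_subset_of_nonneg (S_mono h) fun _ _ _ => by positivity

lemma sum_S_le (y T : ℕ) : ∑ s ∈ S y T, 1 / (s : ℝ) ≤ (Phi y)⁻¹ :=
  (sum_S_mono y).ge_of_tendsto (tendsto_sum_S y) T

lemma Phi_mul_sum_le (y T : ℕ) : Phi y * ∑ s ∈ S y T, 1 / (s : ℝ) ≤ 1 := by
  have h := mul_le_mul_of_nonneg_left (sum_S_le y T) (Phi_pos y).le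
  rwa [mul_inv_cancel₀ (Phi_pos y).ne'] at h

lemma card_S_eq (y T : ℕ) : (S y T).card = N (Nat.smoothNumbers y) T := by
  classical
  unfold S N
  congr!

lemma tendsto_card_S (y : ℕ) : Tendsto (fun T => ((S y T).card : ℝ) / (T + 1)) atTop (𝓝 0) := by
  rw [Metric.tendsto_atTop]
  intro ε hε
  obtain ⟨T0, hT0⟩ := ((tendsto_sum_S y).eventually_const_lt
    (show (Phi y)⁻¹ - ε / 2 < (Phi y)⁻¹ by linarith)).exists
  obtain ⟨K, hK⟩ := exists_nat_gt (2 * T0 / ε)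
  refine ⟨max K T0, fun T hT => ?_⟩
  have hT1 : K ≤ T := le_trans (le_max_left _ _) hT
  have hT2 : T0 ≤ T := le_trans (le_max_right _ _) hT
  have hT' : (0 : ℝ) < (T : ℝ) + 1 := by positivity
  rw [Real.dist_eq, sub_zero, abs_of_nonneg (by positivity), div_lt_iff₀ hT']
  have h1 : ((S y T).card : ℝ) = ((S y T \ S y T0).card : ℝ) + (S y T0).card := by
    exact_mod_cast (Finset.card_sdiff_add_card_eq_card (S_mono hT2)).symm
  have h2 : ((S y T0).card : ℝ) ≤ T0 := by exact_mod_cast S_card_le y T0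
  have h3 : ((S y T \ S y T0).card : ℝ) * (1 / (T + 1)) ≤ ∑ s ∈ S y T \ S y T0, 1 / (s : ℝ) := by
    rw [← nsmul_eq_mul]
    refine Finset.card_nsmul_le_sum _ _ _ fun s hs => ?_
    rw [Finset.mem_sdiff, mem_S] at hs
    have hs1 : (0 : ℝ) < s := by exact_mod_cast hs.1.1.1
    have hs2 : (s : ℝ) ≤ T := by exact_mod_cast hs.1.1.2
    exact one_div_le_one_div_of_le hs1 (by linarith)
  have h4 : ∑ s ∈ S y T \ S y T0, 1 / (s : ℝ) + ∑ s ∈ S y T0, 1 / (s : ℝ) =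
      ∑ s ∈ S y T, 1 / (s : ℝ) := Finset.sum_sdiff (S_mono hT2)
  have h5 := sum_S_le y T
  have h6 : ∑ s ∈ S y T \ S y T0, 1 / (s : ℝ) < ε / 2 := by linarith
  have h7 : ((S y T \ S y T0).card : ℝ) < ε / 2 * (T + 1) := by
    have := lt_of_le_of_lt h3 h6
    rw [mul_one_div, div_lt_iff₀ hT'] at this
    exact this
  have h8 : (T0 : ℝ) ≤ ε / 2 * (T + 1) := by
    rw [div_lt_iff₀ hε] at hK
    have : (K : ℝ) ≤ T := by exact_mod_cast hT1
    nlinarith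
  linarith

lemma sum_card_S (y T : ℕ) : ∑ t ∈ Icc 1 T, ((S y t).card : ℝ) / ((t : ℝ) * (t + 1)) =
    ∑ s ∈ S y T, 1 / (s : ℝ) - (S y T).card / (T + 1) := by
  classical
  have h := partial_summation (Nat.smoothNumbers y) T
  have e : ∑ s ∈ S y T, 1 / (s : ℝ) =
      ∑ n ∈ Icc 1 T, (N (Nat.smoothNumbers y) n : ℝ) * (1 / n - 1 / (n + 1)) +
      N (Nat.smoothNumbers y) T / (T + 1) := by
    rw [← h, S]
    congr!
  rw [e, card_S_eq, add_sub_cancel_right]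
  refine Finset.sum_congr rfl fun t ht => ?_
  have ht0 : (0 : ℝ) < t := by exact_mod_cast (Finset.mem_Icc.1 ht).1
  rw [card_S_eq]
  field_simp
  ring

lemma tendsto_sum_card_S (y : ℕ) :
    Tendsto (fun T => ∑ t ∈ Icc 1 T, ((S y t).card : ℝ) / ((t : ℝ) * (t + 1))) atTop
      (𝓝 (Phi y)⁻¹) := by
  have := (tendsto_sum_S y).sub (tendsto_card_S y)
  rw [sub_zero] at this
  exact this.congr fun T => (sum_card_S y T).symm

/-- The finite upper bound for `β_k`. -/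
noncomputable def bUp (k y T : ℕ) : ℝ := 1 - Phi y * (∑ s ∈ S y T, 1 / (s : ℝ) - M k y T)

/-- The finite lower bound for `β_k`. -/
noncomputable def bLo (k y T : ℕ) : ℝ := Phi y * (1 - 1 / ((y : ℝ) - 1)) * M k y T

/-- The finite upper bound for `α_k`. -/
noncomputable def aUp (k y T : ℕ) : ℝ :=
  1 - Phi y * ∑ t ∈ Icc 1 T, (((S y t).card : ℝ) - f k y t) / ((t : ℝ) * (t + 1))

/-- The finite lower bound for `α_k`. -/
noncomputable def aLo (k y T : ℕ) : ℝ :=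
  Phi y * (1 - 1 / ((y : ℝ) - 1)) * ∑ t ∈ Icc 1 T, (f k y t : ℝ) / ((t : ℝ) * (t + 1))

lemma width {k : ℕ} (hk : 0 < k) (Y : ℕ) {ε : ℝ} (hε : 0 < ε) :
    ∃ y T, Y ≤ y ∧ 3 ≤ y ∧ 1 ≤ T ∧ bUp k y T - bLo k y T < ε ∧ aUp k y T - aLo k y T < ε := by
  obtain ⟨K, hK⟩ := exists_nat_gt (2 / ε)
  obtain ⟨y, hy⟩ : ∃ y, y = max Y (K + 3) := ⟨_, rfl⟩
  have hyY : Y ≤ y := hy ▸ le_max_left _ _
  have hyK : K + 3 ≤ y := hy ▸ le_max_right _ _
  have hy3 : 3 ≤ y := by omega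
  have hP := Phi_pos y
  have hPi : Phi y * (Phi y)⁻¹ = 1 := mul_inv_cancel₀ hP.ne'
  have hlt : (Phi y)⁻¹ - ε / 2 < (Phi y)⁻¹ := by linarith
  have hP1 := Phi_le_one y
  obtain ⟨T, hT1, hT2, hT3⟩ := (((tendsto_sum_S y).eventually_const_lt hlt).and
    (((tendsto_sum_card_S y).eventually_const_lt hlt).and (eventually_ge_atTop 1))).exists
  have hyR : ((K : ℝ) + 3) ≤ y := by exact_mod_cast hyK
  have hinv : 1 / ((y : ℝ) - 1) < ε / 2 := by
    rw [div_lt_iff₀ (by linarith [Nat.cast_nonneg (α := ℝ) K])]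
    rw [div_lt_iff₀ hε] at hK
    nlinarith
  have hinv0 : 0 < 1 / ((y : ℝ) - 1) :=
    div_pos one_pos (by linarith [Nat.cast_nonneg (α := ℝ) K])
  have h1 : 1 - Phi y * ∑ s ∈ S y T, 1 / (s : ℝ) < ε / 2 := by
    have := mul_lt_mul_of_pos_left hT1 hP
    nlinarith
  have h2 : 1 - Phi y * ∑ t ∈ Icc 1 T, ((S y t).card : ℝ) / ((t : ℝ) * (t + 1)) < ε / 2 := by
    have := mul_lt_mul_of_pos_left hT2 hP
    nlinarith
  have h3 : Phi y * M k y T ≤ 1 :=
    le_trans (mul_le_mul_of_nonneg_left (M_le hk y T) hP.le) (Phi_mul_sum_le y T)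
  have h4 : Phi y * ∑ t ∈ Icc 1 T, (f k y t : ℝ) / ((t : ℝ) * (t + 1)) ≤ 1 := by
    refine le_trans (mul_le_mul_of_nonneg_left ?_ hP.le) (Phi_mul_sum_le y T)
    have h5 : ∑ t ∈ Icc 1 T, (f k y t : ℝ) / ((t : ℝ) * (t + 1)) ≤
        ∑ t ∈ Icc 1 T, ((S y t).card : ℝ) / ((t : ℝ) * (t + 1)) := by
      refine Finset.sum_le_sum fun t _ => ?_
      refine div_le_div_of_nonneg_right ?_ (by positivity)
      exact_mod_cast f_le hk y t
    rw [sum_card_S] at h5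
    have : (0 : ℝ) ≤ ((S y T).card : ℝ) / (T + 1) := by positivity
    linarith
  refine ⟨y, T, hyY, hy3, hT3, ?_, ?_⟩
  · have h5 : bUp k y T - bLo k y T = (1 - Phi y * ∑ s ∈ S y T, 1 / (s : ℝ)) +
        (Phi y * M k y T) * (1 / ((y : ℝ) - 1)) := by
      rw [bUp, bLo]
      ring
    rw [h5]
    nlinarith
  · have h5 : ∑ t ∈ Icc 1 T, (((S y t).card : ℝ) - f k y t) / ((t : ℝ) * (t + 1)) =
        ∑ t ∈ Icc 1 T, ((S y t).card : ℝ) / ((t : ℝ) * (t + 1)) -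
        ∑ t ∈ Icc 1 T, (f k y t : ℝ) / ((t : ℝ) * (t + 1)) := by
      rw [← Finset.sum_sub_distrib]
      refine Finset.sum_congr rfl fun t _ => ?_
      ring
    have h6 : aUp k y T - aLo k y T =
        (1 - Phi y * ∑ t ∈ Icc 1 T, ((S y t).card : ℝ) / ((t : ℝ) * (t + 1))) +
        (Phi y * ∑ t ∈ Icc 1 T, (f k y t : ℝ) / ((t : ℝ) * (t + 1))) * (1 / ((y : ℝ) - 1)) := by
      rw [aUp, aLo, h5]
      ring
    rw [h6]
    nlinarith

end Pool.Agent.Helper54.GP
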